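import Mathlib

/-! Helper lemmas: a block construction of a divergent approximation function for which
`n ^ θ` is rarely close to an integer, for almost every `θ ∈ (0,1)`. -/

namespace Pool.Agent.P.MP_33ac70_nt

open MeasureTheory Filter Set

/-- The set of exponents in `(0,1)` for which `N ^ θ` is within `η` of a positive integer. -/
def nearSet (N : ℕ) (η : ℝ) : Set ℝ :=
  {θ | θ ∈ Ioo (0 : ℝ) 1 ∧ ∃ b : ℕ, 1 ≤ b ∧ |(N : ℝ) ^ θ - b| ≤ η}

lemma nearSet_subset (N : ℕ) (hN : 2 ≤ N) (η : ℝ) (h1 : η ≤ 1 / 2) :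
    nearSet N η ⊆ ⋃ b ∈ Finset.Icc 1 N,
      Icc (Real.log (b - η) / Real.log N) (Real.log (b + η) / Real.log N) := by
  rintro θ ⟨⟨_, hθ1⟩, b, hb, hle⟩
  have hN1 : (1 : ℝ) < N := by exact_mod_cast hN
  have hN0 : (0 : ℝ) < N := by linarith
  have hlog : 0 < Real.log N := Real.log_pos hN1
  have hpow : (N : ℝ) ^ θ ≤ N := by
    have := Real.rpow_le_rpow_of_exponent_le hN1.le hθ1.le
    simpa using this
  have hb1 : (1 : ℝ) ≤ b := by exact_mod_cast hb
  obtain ⟨hl, hr⟩ := abs_le.mp hle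
  have hbN : b ≤ N := by
    have : (b : ℝ) < N + 1 := by linarith
    have : b < N + 1 := by exact_mod_cast this
    omega
  have hpos : 0 < (N : ℝ) ^ θ := Real.rpow_pos_of_pos hN0 θ
  have hl2 : Real.log ((N : ℝ) ^ θ) = θ * Real.log N := Real.log_rpow hN0 θ
  simp only [mem_iUnion]
  refine ⟨b, Finset.mem_Icc.mpr ⟨hb, hbN⟩, ?_, ?_⟩
  · rw [div_le_iff₀ hlog, ← hl2]
    exact Real.log_le_log (by linarith) (by linarith)
  · rw [le_div_iff₀ hlog, ← hl2]
    exact Real.log_le_log hpos (by linarith)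

lemma volume_nearSet_le (N : ℕ) (hN : 2 ≤ N) (η : ℝ) (h0 : 0 ≤ η) (h1 : η ≤ 1 / 2) :
    volume (nearSet N η) ≤ ENNReal.ofReal (12 * η) := by
  have hN1 : (1 : ℝ) < N := by exact_mod_cast hN
  have hN2 : (2 : ℝ) ≤ N := by exact_mod_cast hN
  have hlog : 0 < Real.log N := Real.log_pos hN1
  have hlog2 : 1 / 2 ≤ Real.log N := by
    have := Real.log_le_log (by norm_num) hN2
    have h2 := Real.log_two_gt_d9
    linarith
  refine (measure_mono (nearSet_subset N hN η h1)).trans ?_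
  refine (measure_biUnion_finset_le _ _).trans ?_
  have hterm : ∀ b ∈ Finset.Icc 1 N,
      volume (Icc (Real.log (b - η) / Real.log N) (Real.log (b + η) / Real.log N))
        ≤ ENNReal.ofReal (4 * η / Real.log N * ((b : ℝ))⁻¹) := by
    intro b hb
    have hb1 : (1 : ℝ) ≤ b := by exact_mod_cast (Finset.mem_Icc.mp hb).1
    rw [Real.volume_Icc]
    apply ENNReal.ofReal_le_ofReal
    have hm : 0 < (b : ℝ) - η := by linarith
    have hp : 0 < (b : ℝ) + η := by linarith
    have key : Real.log (b + η) - Real.log (b - η) ≤ 4 * η * (b : ℝ)⁻¹ := by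
      rw [← Real.log_div hp.ne' hm.ne']
      refine (Real.log_le_sub_one_of_pos (div_pos hp hm)).trans ?_
      have hb0 : (0 : ℝ) < b := by linarith
      rw [div_sub_one hm.ne', ← div_eq_mul_inv, div_le_div_iff₀ hm hb0]
      nlinarith [mul_nonneg h0 (show (0 : ℝ) ≤ b - 2 * η by linarith)]
    calc Real.log (b + η) / Real.log N - Real.log (b - η) / Real.log N
        = (Real.log (b + η) - Real.log (b - η)) / Real.log N := by ring
      _ ≤ (4 * η * (b : ℝ)⁻¹) / Real.log N := by gcongr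
      _ = 4 * η / Real.log N * ((b : ℝ))⁻¹ := by ring
  refine (Finset.sum_le_sum hterm).trans ?_
  rw [← ENNReal.ofReal_sum_of_nonneg (fun b _ => by positivity)]
  apply ENNReal.ofReal_le_ofReal
  rw [← Finset.mul_sum]
  have hh : ∑ b ∈ Finset.Icc 1 N, ((b : ℝ))⁻¹ ≤ 1 + Real.log N := by
    have := harmonic_le_one_add_log N
    rw [harmonic_eq_sum_Icc] at this
    push_cast at this
    exact this
  calc 4 * η / Real.log N * ∑ b ∈ Finset.Icc 1 N, ((b : ℝ))⁻¹
      ≤ 4 * η / Real.log N * (1 + Real.log N) := by gcongr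
    _ ≤ 4 * η / Real.log N * (3 * Real.log N) := by gcongr; linarith
    _ = 12 * η := by field_simp; ring

/-- Start of the `j`-th block. -/
def bStart (j : ℕ) : ℕ := 2 ^ ((j + 1) ^ 2)

/-- Length of the `j`-th block. -/
def bLen (j : ℕ) : ℕ := 2 ^ (j + 2)

/-- Membership in the `j`-th block. -/
def InBlock (n j : ℕ) : Prop := bStart j ≤ n ∧ n < bStart j + bLen j

open Classical in
/-- The approximation function: `1 / bLen j` on the `j`-th block, zero off the blocks. -/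
noncomputable def psi (n : ℕ) : ℝ :=
  if h : ∃ j, InBlock n j then 1 / (bLen (Nat.find h) : ℝ) else 0

lemma bLen_pos (j : ℕ) : (0 : ℝ) < bLen j := by
  unfold bLen; positivity

lemma psi_nonneg (n : ℕ) : 0 ≤ psi n := by
  unfold psi
  split_ifs
  · exact (one_div_pos.mpr (bLen_pos _)).le
  · exact le_rfl

lemma psi_le_one (n : ℕ) : psi n ≤ 1 := by
  unfold psi
  split_ifs
  · rw [div_le_one (bLen_pos _)]
    unfold bLen
    exact_mod_cast Nat.one_le_two_pow
  · exact zero_le_one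

lemma psi_cases (n : ℕ) : psi n = 0 ∨ ∃ j, InBlock n j ∧ psi n = 1 / (bLen j : ℝ) := by
  classical
  unfold psi
  split_ifs with h
  · exact Or.inr ⟨Nat.find h, Nat.find_spec h, rfl⟩
  · exact Or.inl rfl

lemma le_psi (n j : ℕ) (h : InBlock n j) : 1 / (bLen j : ℝ) ≤ psi n := by
  classical
  have hex : ∃ j, InBlock n j := ⟨j, h⟩
  unfold psi
  rw [dif_pos hex]
  have hle : Nat.find hex ≤ j := Nat.find_min' hex h
  apply one_div_le_one_div_of_le (bLen_pos _)
  unfold bLen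
  exact_mod_cast Nat.pow_le_pow_right (by norm_num) (by omega)

lemma le_bStart (j : ℕ) : j ≤ bStart j := by
  unfold bStart
  have h1 : (j + 1) ^ 2 < 2 ^ ((j + 1) ^ 2) := Nat.lt_two_pow_self
  nlinarith

lemma two_le_bStart (j : ℕ) : 2 ≤ bStart j := by
  unfold bStart
  calc 2 = 2 ^ 1 := by norm_num
    _ ≤ 2 ^ ((j + 1) ^ 2) := Nat.pow_le_pow_right (by norm_num) (Nat.one_le_pow _ _ (by omega))

lemma not_summable_psi : ¬ Summable psi := by
  intro hs
  have ht := tendsto_sum_nat_add psi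
  have hB : Tendsto bStart atTop atTop := tendsto_atTop_mono le_bStart tendsto_id
  have h2 := (ht.comp hB).eventually (gt_mem_nhds (show (0 : ℝ) < 1 by norm_num))
  obtain ⟨j, hj⟩ := h2.exists
  have hs' : Summable (fun k => psi (k + bStart j)) := (summable_nat_add_iff _).mpr hs
  have h3 : ∑ k ∈ Finset.range (bLen j), psi (k + bStart j) ≤ ∑' k, psi (k + bStart j) :=
    hs'.sum_le_tsum _ (fun k _ => psi_nonneg _)
  have h4 : ∑ _k ∈ Finset.range (bLen j), 1 / (bLen j : ℝ)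
      ≤ ∑ k ∈ Finset.range (bLen j), psi (k + bStart j) := by
    apply Finset.sum_le_sum
    intro k hk
    apply le_psi
    have := Finset.mem_range.mp hk
    constructor <;> omega
  rw [Finset.sum_const, Finset.card_range, nsmul_eq_mul, mul_one_div_cancel (bLen_pos j).ne'] at h4
  simp only [Function.comp] at hj
  linarith

/-- Within a block, `n ^ θ` hardly moves. -/
lemma block_close (θ : ℝ) (hθ : θ ∈ Ioo (0 : ℝ) 1) (n j : ℕ) (h : InBlock n j)
    (hj : 4 ≤ (1 - θ) * (j + 1)) :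
    |(bStart j : ℝ) ^ θ - (n : ℝ) ^ θ| ≤ 1 / (bLen j : ℝ) := by
  obtain ⟨h1, h2⟩ := h
  have hN : (2 : ℝ) ≤ bStart j := by exact_mod_cast two_le_bStart j
  have hN0 : (0 : ℝ) < bStart j := by linarith
  have hn : (bStart j : ℝ) ≤ n := by exact_mod_cast h1
  have hn2 : (n : ℝ) ≤ bStart j + bLen j := by exact_mod_cast h2.le
  have hn0 : (0 : ℝ) < n := by linarith
  have hmono : (bStart j : ℝ) ^ θ ≤ (n : ℝ) ^ θ := Real.rpow_le_rpow hN0.le hn hθ.1.le
  have hanti : (n : ℝ) ^ (θ - 1) ≤ (bStart j : ℝ) ^ (θ - 1) :=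
    Real.rpow_le_rpow_of_nonpos hN0 hn (by linarith [hθ.2])
  have e1 : (n : ℝ) ^ θ = n * (n : ℝ) ^ (θ - 1) := by
    rw [Real.rpow_sub_one hn0.ne']; field_simp
  have e2 : (bStart j : ℝ) ^ θ = bStart j * (bStart j : ℝ) ^ (θ - 1) := by
    rw [Real.rpow_sub_one hN0.ne']; field_simp
  have hq : 0 < (bStart j : ℝ) ^ (θ - 1) := Real.rpow_pos_of_pos hN0 _
  have hsmall : (bStart j : ℝ) ^ (θ - 1) ≤ 1 / (bLen j : ℝ) ^ 2 := by
    have a1 : (bStart j : ℝ) = (2 : ℝ) ^ (((j : ℝ) + 1) ^ 2) := by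
      unfold bStart
      rw [show ((j : ℝ) + 1) ^ 2 = (((j + 1) ^ 2 : ℕ) : ℝ) by push_cast; ring, Real.rpow_natCast]
      push_cast; rfl
    have a2 : 1 / (bLen j : ℝ) ^ 2 = (2 : ℝ) ^ (-(2 * ((j : ℝ) + 2))) := by
      unfold bLen
      rw [Real.rpow_neg (by norm_num), show 2 * ((j : ℝ) + 2) = (((j + 2) * 2 : ℕ) : ℝ) by
        push_cast; ring, Real.rpow_natCast]
      push_cast
      rw [← pow_mul, one_div]
    rw [a1, a2, ← Real.rpow_mul (by norm_num)]
    apply Real.rpow_le_rpow_of_exponent_le (by norm_num)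
    have hj0 : (0 : ℝ) ≤ j := Nat.cast_nonneg j
    nlinarith
  rw [abs_sub_comm, abs_of_nonneg (by linarith)]
  have hL := bLen_pos j
  calc (n : ℝ) ^ θ - (bStart j : ℝ) ^ θ
      ≤ n * (bStart j : ℝ) ^ (θ - 1) - bStart j * (bStart j : ℝ) ^ (θ - 1) := by
        rw [e1, e2]; gcongr
    _ = (n - bStart j) * (bStart j : ℝ) ^ (θ - 1) := by ring
    _ ≤ bLen j * (1 / (bLen j : ℝ) ^ 2) := by
        apply mul_le_mul (by linarith) hsmall hq.le hL.le
    _ = 1 / (bLen j : ℝ) := by field_simp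

lemma ae_eventually_not_near :
    ∀ᵐ θ : ℝ, ∀ᶠ j in atTop, θ ∉ nearSet (bStart j) (2 / (bLen j : ℝ)) := by
  apply ae_eventually_notMem
  have hb : ∀ j, volume (nearSet (bStart j) (2 / (bLen j : ℝ)))
      ≤ ENNReal.ofReal (6 * (1 / 2 : ℝ) ^ j) := by
    intro j
    have hL := bLen_pos j
    have h4 : (4 : ℝ) ≤ bLen j := by
      unfold bLen
      have : 2 ^ 2 ≤ 2 ^ (j + 2) := Nat.pow_le_pow_right (by norm_num) (by omega)
      exact_mod_cast this
    refine (volume_nearSet_le _ (two_le_bStart j) _ (by positivity) ?_).trans (le_of_eq ?_)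
    · rw [div_le_div_iff₀ hL (by norm_num)]; linarith
    · congr 1
      unfold bLen
      push_cast
      rw [one_div, inv_pow, pow_add]
      field_simp
      norm_num
  refine ne_top_of_le_ne_top ?_ (ENNReal.tsum_le_tsum hb)
  rw [← ENNReal.ofReal_tsum_of_nonneg (fun j => by positivity)
    (summable_geometric_two.mul_left 6)]
  exact ENNReal.ofReal_ne_top

lemma ae_no_exact : ∀ᵐ θ : ℝ, ∀ a b : ℕ, 2 ≤ a → (a : ℝ) ^ θ ≠ b := by
  have hc : (range (fun p : ℕ × ℕ => Real.log p.2 / Real.log p.1)).Countable := countable_range _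
  have h0 := hc.measure_zero (volume : Measure ℝ)
  have h1 : ∀ᵐ θ : ℝ, θ ∉ range (fun p : ℕ × ℕ => Real.log p.2 / Real.log p.1) :=
    measure_eq_zero_iff_ae_notMem.mp h0
  filter_upwards [h1] with θ hθ a b ha heq
  apply hθ
  refine ⟨(a, b), ?_⟩
  have ha1 : (1 : ℝ) < a := by exact_mod_cast ha
  have hlog : 0 < Real.log a := Real.log_pos ha1
  simp only
  rw [← heq, Real.log_rpow (by linarith)]
  field_simp

/-- For almost every `θ ∈ (0,1)` the pairs `(a, b)` with `|a ^ θ - b| ≤ psi a` are bounded. -/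
theorem ae_bounded : ∀ᵐ θ : ℝ, θ ∈ Ioo (0 : ℝ) 1 → ∃ M : ℕ, ∀ a b : ℕ, 1 ≤ a → 1 ≤ b →
    |(a : ℝ) ^ θ - b| ≤ psi a → a ≤ M ∧ b ≤ M := by
  filter_upwards [ae_eventually_not_near, ae_no_exact] with θ h1 h2 hθ
  have h3 : ∀ᶠ j : ℕ in atTop, 4 ≤ (1 - θ) * ((j : ℝ) + 1) := by
    have hp : 0 < 1 - θ := by linarith [hθ.2]
    have : Tendsto (fun j : ℕ => (1 - θ) * ((j : ℝ) + 1)) atTop atTop :=
      (tendsto_atTop_add_const_right _ 1 tendsto_natCast_atTop_atTop).const_mul_atTop hp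
    exact this.eventually_ge_atTop 4
  obtain ⟨J, hJ⟩ := eventually_atTop.mp (h1.and h3)
  obtain ⟨M, hM⟩ : ∃ M : ℕ, ∀ j < J, bStart j + bLen j ≤ M :=
    ⟨(Finset.range J).sup (fun j => bStart j + bLen j), fun j hj =>
      Finset.le_sup (f := fun j => bStart j + bLen j) (Finset.mem_range.mpr hj)⟩
  refine ⟨M + 2, fun a b ha hb hab => ?_⟩
  have haM : a ≤ M + 1 := by
    rcases psi_cases a with h0 | ⟨j, hj, hp⟩
    · rw [h0] at hab
      have : (a : ℝ) ^ θ = b := by
        have := abs_nonpos_iff.mp hab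
        linarith
      by_contra hcon
      exact h2 a b (by omega) this
    · by_cases hjJ : j < J
      · have := hM j hjJ
        have := hj.2
        omega
      · exfalso
        obtain ⟨hn, h4⟩ := hJ j (by omega)
        apply hn
        refine ⟨hθ, b, hb, ?_⟩
        have hc := block_close θ hθ a j hj h4
        rw [hp] at hab
        calc |(bStart j : ℝ) ^ θ - b| = |((bStart j : ℝ) ^ θ - (a : ℝ) ^ θ) + ((a : ℝ) ^ θ - b)| := by
              ring_nf
          _ ≤ |(bStart j : ℝ) ^ θ - (a : ℝ) ^ θ| + |(a : ℝ) ^ θ - b| := abs_add_le _ _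
          _ ≤ 1 / (bLen j : ℝ) + 1 / (bLen j : ℝ) := add_le_add hc hab
          _ = 2 / (bLen j : ℝ) := by ring
  refine ⟨by omega, ?_⟩
  have ha1 : (1 : ℝ) ≤ a := by exact_mod_cast ha
  have hpow : (a : ℝ) ^ θ ≤ a := by
    have := Real.rpow_le_rpow_of_exponent_le ha1 hθ.2.le
    simpa using this
  have hb2 : (b : ℝ) ≤ a + 1 := by
    have := (abs_le.mp hab).1
    have := psi_le_one a
    linarith
  have : b ≤ a + 1 := by exact_mod_cast hb2
  omega

end Pool.Agent.P.MP_33ac70_nt
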