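import Pool.Agent.P.MP_33ac70_nt.Kernel

/-! Covariance bounds for pairs of tuples. -/

namespace Pool.Agent.P.MP_33ac70_nt.Big

open Real Finset

theorem osc2 {ι : Type*} [Fintype ι] [DecidableEq ι] {c lam : ι → ℝ} {φ : ℝ → ℝ}
    (hφ : ∀ x, HasDerivAt φ (∑ u, c u * exp (lam u * x)) x)
    {α β Λ X : ℝ} (hab : α ≤ β) (hl : ∀ u, 0 ≤ lam u) (hΛ : ∀ u, lam u ≤ Λ) (hX : 0 < X)
    (v : ι) (hv : (univ.erase v).Nonempty)
    (h : 1 ≤ X ^ Fintype.card ι *
      (|c v| * (∏ t ∈ univ.erase v, |lam v - lam t|) * exp (lam v * α))) :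
    Ψ φ α β ≤ 10 * 2 ^ Fintype.card ι * exp (Λ * (β - α)) ^ 2 * X := by
  set E := exp (Λ * (β - α)) with hE
  have h0 : 0 ≤ Λ * (β - α) := mul_nonneg ((hl v).trans (hΛ v)) (sub_nonneg.2 hab)
  have hE1 : 1 + Λ * (β - α) ≤ E := by rw [add_comm]; exact add_one_le_exp _
  have hE0 : 0 < E := exp_pos _
  have hc : (univ.erase v).card + 1 = Fintype.card ι := by
    rw [card_erase_add_one (mem_univ v), card_univ]
  have h1 := osc (η := 2 * E * X) (μ := (2 * E * X)⁻¹) hφ hab hl hΛ (by positivity)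
    (by positivity) v hv (by
      rw [← hE, show 2 * E / (2 * E * X) = X⁻¹ by field_simp]
      rw [← hc, ← inv_mul_le_iff₀ (by positivity), mul_one] at h
      refine le_trans ?_ h
      rw [pow_succ', mul_inv (X : ℝ), inv_pow]
      refine mul_le_mul_of_nonneg_right (inv_anti₀ hX ?_) (by positivity)
      nlinarith)
  refine h1.trans ?_
  rw [div_inv_eq_mul, ← hc, pow_succ]
  have h2 : (4 + 2 * Λ * (β - α)) * (2 * E * X) + 2 * E * X ≤ 5 * E * (2 * E * X) := by
    have : 0 < 2 * E * X := by positivity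
    nlinarith
  have h3 : (0 : ℝ) < 2 ^ (univ.erase v).card := by positivity
  have h4 : 0 < E ^ 2 * X := by positivity
  nlinarith [mul_le_mul_of_nonneg_left h2 h3.le, mul_pos h3 h4]

theorem log_gap {x y n : ℝ} (hx : 0 < x) (hy : 0 < y) (hxn : x ≤ n) (hyn : y ≤ n) :
    |x - y| / n ≤ |log x - log y| := by
  wlog h : y ≤ x generalizing x y
  · rw [abs_sub_comm x y, abs_sub_comm (log x)]
    exact this hy hx hyn hxn (not_le.1 h).le
  have h1 := log_le_sub_one_of_pos (div_pos hy hx)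
  rw [log_div hy.ne' hx.ne'] at h1
  have h2 : (x - y) / n ≤ (x - y) / x := div_le_div_of_nonneg_left (by linarith) hx hxn
  have h3 : (x - y) / x = 1 - y / x := by field_simp
  rw [abs_of_nonneg (by linarith), abs_of_nonneg (sub_nonneg.2 (log_le_log hy h))]
  linarith

theorem one_le_log {v : ℕ} (hv : 2 ≤ v) : 1 ≤ 2 * π * log v := by
  have h1 : log 2 ≤ log v := log_le_log two_pos (by exact_mod_cast hv)
  have h2 := log_two_gt_d9
  have h3 := pi_gt_three
  nlinarith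

variable {k : ℕ}

/-- the sum of powers -/
noncomputable def fa (a : Fin k → ℕ) (θ : ℝ) : ℝ := ∑ j, exp (log (a j) * θ)

theorem fa_deriv (a : Fin k → ℕ) (x : ℝ) :
    HasDerivAt (fa a) (∑ j, log (a j) * exp (log (a j) * x)) x := by
  unfold fa
  refine HasDerivAt.fun_sum fun j _ => ?_
  have h := ((hasDerivAt_id x).const_mul (log (a j))).exp
  simpa [mul_comm] using h

theorem fa_cont (a : Fin k → ℕ) : Continuous (fa a) := by
  unfold fa; fun_prop

theorem pair_osc {a a' : Fin k → ℕ} {n : ℕ} {j0 : Fin k} (h l : ℤ) (hl : l ≠ 0) {c1 α β : ℝ}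
    (ha : ∀ j, 1 ≤ a j ∧ a j ≤ n) (ha' : ∀ j, 1 ≤ a' j ∧ a' j ≤ n) (h2 : 2 ≤ a' j0)
    (hn : n ≤ 2 * a' j0) (hc : 1 ≤ c1) (hs : ∀ j, j ≠ j0 → (n : ℝ) ≤ c1 ^ 2 * |(a' j0 : ℝ) - a' j|)
    (hne : ∀ j, a j ≠ a' j0) (h0 : 0 ≤ α) (hab : α ≤ β) :
    Ψ (fun x => 2 * π * l * fa a' x + 2 * π * h * fa a x) α β ≤
      |(l : ℝ)| ^ (-(1 / (2 * k) : ℝ)) * (10 * 4 ^ k * (n : ℝ) ^ (2 * (β - α)) * c1 *
        ((n : ℝ) / 2) ^ (-(α / (2 * k))) * ∑ j, √n * (1 / √|(a j : ℝ) - a' j0|)) := by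
  have hk : 0 < k := Fin.pos j0
  have hk' : (0 : ℝ) < k := by exact_mod_cast hk
  have hn0 : (0 : ℝ) < n := by exact_mod_cast (ha' j0).1.trans (ha' j0).2
  have p1 : ∀ j, (1 : ℝ) ≤ a j := fun j => by exact_mod_cast (ha j).1
  have p2 : ∀ j, (1 : ℝ) ≤ a' j := fun j => by exact_mod_cast (ha' j).1
  have p3 : ∀ j, (a j : ℝ) ≤ n := fun j => by exact_mod_cast (ha j).2
  have p4 : ∀ j, (a' j : ℝ) ≤ n := fun j => by exact_mod_cast (ha' j).2
  have hl' : 0 < |(l : ℝ)| := abs_pos.2 (by exact_mod_cast hl)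
  set S := ∑ j, √n * (1 / √|(a j : ℝ) - a' j0|) with hS
  have hg : ∀ j, 0 < |(a j : ℝ) - a' j0| := fun j =>
    abs_pos.2 (sub_ne_zero.2 (by exact_mod_cast hne j))
  have hS1 : ∀ j, (n : ℝ) / |(a j : ℝ) - a' j0| ≤ S ^ 2 := by
    intro j
    have h3 : √n * (1 / √|(a j : ℝ) - a' j0|) ≤ S :=
      single_le_sum (f := fun j => √n * (1 / √|(a j : ℝ) - a' j0|))
        (fun _ _ => by positivity) (mem_univ j)
    refine le_trans (le_of_eq ?_) (pow_le_pow_left₀ (by positivity) h3 2)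
    rw [mul_pow, div_pow, sq_sqrt hn0.le, sq_sqrt (abs_nonneg _)]; ring
  have hS2 : 1 ≤ S ^ 2 := by
    refine le_trans ?_ (hS1 j0)
    rw [one_le_div (hg j0), abs_le]
    constructor <;> linarith [p1 j0, p2 j0, p3 j0, p4 j0]
  have hS0 : 0 < S := by
    have h3 : 0 ≤ S := sum_nonneg fun _ _ => by positivity
    refine h3.lt_of_ne fun h4 => ?_
    rw [← h4] at hS2; norm_num at hS2
  set lam : Fin k ⊕ Fin k → ℝ := Sum.elim (fun j => log (a j)) (fun j => log (a' j)) with hlam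
  set c : Fin k ⊕ Fin k → ℝ :=
    Sum.elim (fun j => 2 * π * h * log (a j)) (fun j => 2 * π * l * log (a' j)) with hc'
  have hcard : Fintype.card (Fin k ⊕ Fin k) = 2 * k := by simp [two_mul]
  have key := osc2 (c := c) (lam := lam)
    (φ := fun x => 2 * π * l * fa a' x + 2 * π * h * fa a x) (Λ := log n)
    (X := |(l : ℝ)| ^ (-(1 / (2 * k) : ℝ)) * c1 * ((n : ℝ) / 2) ^ (-(α / (2 * k))) * S)
    (fun x => by
      refine (((fa_deriv a' x).const_mul (2 * π * l)).add
        ((fa_deriv a x).const_mul (2 * π * h))).congr_deriv ?_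
      rw [Fintype.sum_sum_type, mul_sum, mul_sum, add_comm]
      simp only [hc', hlam, Sum.elim_inl, Sum.elim_inr, mul_assoc]) hab
    (by rintro (j | j); exacts [log_nonneg (p1 j), log_nonneg (p2 j)])
    (by
      rintro (j | j)
      exacts [log_le_log (by linarith [p1 j]) (p3 j), log_le_log (by linarith [p2 j]) (p4 j)])
    (by positivity) (Sum.inr j0) ⟨Sum.inl j0, by simp⟩ ?_
  · refine key.trans (le_of_eq ?_)
    rw [hcard, pow_mul, ← rpow_def_of_pos hn0, ← rpow_natCast ((n : ℝ) ^ (β - α)),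
      ← rpow_mul hn0.le, mul_comm (β - α)]
    norm_num
    ring
  set g : Fin k ⊕ Fin k → ℝ := Sum.elim (fun _ => (S ^ 2)⁻¹) (fun _ => (c1 ^ 2)⁻¹) with hgd
  have hg0 : ∀ t, 0 ≤ g t := by rintro (j | j) <;> simp only [hgd, Sum.elim_inl, Sum.elim_inr] <;>
    positivity
  have q1 : (S ^ 2)⁻¹ ^ k * (c1 ^ 2)⁻¹ ^ k ≤
      ∏ t ∈ univ.erase (Sum.inr j0 : Fin k ⊕ Fin k), |lam (Sum.inr j0) - lam t| := by
    have e : (S ^ 2)⁻¹ ^ k * (c1 ^ 2)⁻¹ ^ k = ∏ t, g t := by
      rw [Fintype.prod_sum_type]; simp [hgd]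
    rw [e, ← mul_prod_erase univ g (mem_univ (Sum.inr j0))]
    have h3 : g (Sum.inr j0) ≤ 1 := inv_le_one_of_one_le₀ (one_le_pow₀ hc)
    refine (mul_le_of_le_one_left (prod_nonneg fun t _ => hg0 t) h3).trans
      (prod_le_prod (fun t _ => hg0 t) ?_)
    rintro (j | j) hj
    · refine le_trans ?_ (log_gap (by linarith [p2 j0]) (by linarith [p1 j]) (p4 j0) (p3 j))
      rw [abs_sub_comm, ← inv_div]
      exact inv_anti₀ (div_pos hn0 (hg j)) (hS1 j)
    · refine le_trans ?_ (log_gap (by linarith [p2 j0]) (by linarith [p2 j]) (p4 j0) (p4 j))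
      have h4 := hs j (by simpa using hj)
      simp only [hgd, Sum.elim_inr]
      rw [le_div_iff₀ hn0, inv_mul_le_iff₀ (by positivity)]
      exact h4
  have q2 : |(l : ℝ)| ≤ |c (Sum.inr j0)| := by
    simp only [hc', Sum.elim_inr]
    rw [show 2 * π * l * log (a' j0) = l * (2 * π * log (a' j0)) by ring, abs_mul]
    exact le_mul_of_one_le_right hl'.le ((one_le_log h2).trans (le_abs_self _))
  have q3 : ((n : ℝ) / 2) ^ α ≤ exp (lam (Sum.inr j0) * α) := by
    simp only [hlam, Sum.elim_inr]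
    rw [← rpow_def_of_pos (by linarith [p2 j0])]
    refine rpow_le_rpow (by positivity) ?_ h0
    have : (n : ℝ) ≤ 2 * a' j0 := by exact_mod_cast hn
    linarith
  refine le_trans (le_of_eq ?_) (mul_le_mul_of_nonneg_left
    (mul_le_mul (mul_le_mul q2 q1 (by positivity) (abs_nonneg _)) q3 (by positivity)
      (by positivity)) (by positivity))
  rw [hcard, mul_pow, mul_pow, mul_pow, ← rpow_natCast (_ ^ (-(1 / (2 * k) : ℝ))),
    ← rpow_natCast (_ ^ (-(α / (2 * k) : ℝ))), ← rpow_mul hl'.le, ← rpow_mul (by positivity)]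
  have e1 : -(1 / (2 * k) : ℝ) * ((2 * k : ℕ) : ℝ) = -1 := by push_cast; field_simp
  have e2 : -(α / (2 * k) : ℝ) * ((2 * k : ℕ) : ℝ) = -α := by push_cast; field_simp
  rw [e1, e2, rpow_neg_one, rpow_neg (by positivity), pow_mul, pow_mul, inv_pow, inv_pow]
  have : 0 < ((n : ℝ) / 2) ^ α := by positivity
  field_simp

theorem pair_cov {δ δ' σ K a b : ℝ} {c c' : ℤ → ℝ} {Y Y' f g : ℝ → ℝ} (hY : IsKer δ c Y)
    (hY' : IsKer δ' c' Y') (hf : Continuous f) (hg : Continuous g) (h0 : 0 ≤ σ) (h1 : σ ≤ 1 / 2)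
    (hK : 0 ≤ K) (H : ∀ h l : ℤ, l ≠ 0 →
      Ψ (fun x => 2 * π * l * g x + 2 * π * h * f x) a b ≤ |(l : ℝ)| ^ (-σ) * K) :
    ∫ x in a..b, Y (f x) * Y' (g x) ≤ 5 * δ' ^ σ * K := by
  have hδ : 0 ≤ δ' := (hY'.nonneg 0).trans (hY'.le 0)
  have h2 : ∀ h : ℤ, ‖∫ x in a..b, e1 (2 * π * h * f x) * (Y' (g x) : ℂ)‖ ≤ 5 * δ' ^ σ * K := by
    intro h
    simp only [mul_comm (e1 _)]
    refine hY'.expand (G := fun x => e1 (2 * π * h * f x)) hg
      (continuous_e1.comp (by fun_prop)) fun s => ?_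
    refine le_trans (sum_le_sum fun l _ => ?_)
      ((sum_mul ..).ge.trans (mul_le_mul_of_nonneg_right (hY'.wsum h0 h1 s) hK))
    rcases eq_or_ne l 0 with rfl | hl
    · simp [hY'.zero]
    rw [mul_assoc (c' l)]
    refine mul_le_mul_of_nonneg_left ?_ (hY'.nonneg l)
    simp only [← e1_add]
    exact H h l hl
  have h3 := hY.expand (G := fun x => (Y' (g x) : ℂ)) hf
    (Complex.continuous_ofReal.comp (hY'.cont.comp hg)) (a := a) (b := b) (B := 5 * δ' ^ σ * K)
    fun s => by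
      refine (sum_le_sum fun h _ => mul_le_mul_of_nonneg_left (h2 h) (hY.nonneg h)).trans ?_
      rw [← sum_mul]
      exact mul_le_of_le_one_left (by positivity) (hY.sum_le s)
  simp only [← Complex.ofReal_mul] at h3
  rw [intervalIntegral.integral_ofReal, Complex.norm_real] at h3
  exact (le_abs_self _).trans h3

theorem diag_cov {δ α β : ℝ} {c : ℤ → ℝ} {Y : ℝ → ℝ} (hY : IsKer δ c Y) {a : Fin k → ℕ}
    (ha : ∀ j, 1 ≤ a j) {j0 : Fin k} (h2 : 2 ≤ a j0) (hab : α ≤ β) :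
    ∫ x in α..β, Y (fa a x) * Y (fa a x) ≤ 2 * δ * (β - α) + 4 * (a j0 : ℝ) ^ (-α) := by
  have p1 : ∀ j, (1 : ℝ) ≤ a j := fun j => by exact_mod_cast ha j
  have p0 : (0 : ℝ) < a j0 := by linarith [p1 j0]
  have hc : Continuous fun x => Y (fa a x) := hY.cont.comp (fa_cont a)
  have h1 : ∀ h : ℤ, h ≠ 0 → Ψ (fun x => 2 * π * h * fa a x) α β ≤ 4 * (a j0 : ℝ) ^ (-α) := by
    intro h hh
    have hh1 : (1 : ℝ) ≤ |(h : ℝ)| := by exact_mod_cast Int.one_le_abs hh
    obtain ⟨s, hs, hs'⟩ : ∃ s : ℝ, (s = 1 ∨ s = -1) ∧ 0 ≤ s * h := by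
      rcases le_total 0 (h : ℝ) with h3 | h3
      · exact ⟨1, Or.inl rfl, by linarith⟩
      · exact ⟨-1, Or.inr rfl, by linarith⟩
    have h3 := ibp (φ := fun x => 2 * π * h * fa a x) (lam := 0) (μ := (a j0 : ℝ) ^ α)
      (p := fun x => 2 * π * h * ∑ j, log (a j) * exp (log (a j) * x))
      (p' := fun x => 2 * π * h * ∑ j, log (a j) * (exp (log (a j) * x) * log (a j)))
      (fun x => (fa_deriv a x).const_mul _)
      (fun x => HasDerivAt.const_mul _ (HasDerivAt.fun_sum fun j _ => by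
        simpa using (((hasDerivAt_id x).const_mul (log (a j))).exp).const_mul (log (a j))))
      (by fun_prop) hab (by positivity) le_rfl hs (fun x hx => ?_) (fun x _ => ?_)
    · rw [rpow_neg p0.le]
      simpa [div_eq_mul_inv] using h3
    · have h4 : log (a j0) * exp (log (a j0) * x) ≤ ∑ j, log (a j) * exp (log (a j) * x) :=
        single_le_sum (f := fun j => log (a j) * exp (log (a j) * x))
          (fun j _ => mul_nonneg (log_nonneg (p1 j)) (exp_pos _).le) (mem_univ j0)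
      have h5 : (a j0 : ℝ) ^ α ≤ exp (log (a j0) * x) := by
        rw [← rpow_def_of_pos p0]; exact rpow_le_rpow_of_exponent_le (p1 j0) hx.1
      have h6 := one_le_log h2
      have h7 : (a j0 : ℝ) ^ α ≤ 2 * π * ∑ j, log (a j) * exp (log (a j) * x) := by
        have h8 := mul_le_mul h6 h5 (by positivity) (by linarith)
        have h9 := mul_le_mul_of_nonneg_left h4 (show 0 ≤ 2 * π by positivity)
        linarith
      rw [mul_right_comm, abs_mul]
      exact (h7.trans (le_abs_self _)).trans (le_mul_of_one_le_right (abs_nonneg _) hh1)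
    · have h4 : 0 ≤ ∑ j, log (a j) * (exp (log (a j) * x) * log (a j)) :=
        sum_nonneg fun j _ => by have := log_nonneg (p1 j); positivity
      have h5 := mul_nonneg (mul_nonneg hs' h4) (show 0 ≤ 2 * π by positivity)
      linarith
  have h3 := hY.expand (G := fun _ => 1) (fa_cont a) continuous_const (a := α) (b := β)
    (B := 4 * (a j0 : ℝ) ^ (-α)) fun s => by
      refine le_trans (sum_le_sum fun h _ => ?_) ((sum_mul ..).ge.trans
        (mul_le_of_le_one_left (by positivity) (hY.sum_le s)))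
      rcases eq_or_ne h 0 with rfl | hh
      · simp [hY.zero]
      simp only [mul_one]
      exact mul_le_mul_of_nonneg_left (h1 h hh) (hY.nonneg h)
  simp only [mul_one] at h3
  rw [intervalIntegral.integral_ofReal, Complex.norm_real] at h3
  have h4 : ∫ x in α..β, Y (fa a x) * Y (fa a x) ≤ ∫ x in α..β, (Y (fa a x) + 2 * δ) :=
    intervalIntegral.integral_mono_on hab ((hc.mul hc).intervalIntegrable _ _)
      ((hc.add continuous_const).intervalIntegrable _ _) fun x _ => by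
        rw [← sq]; exact hY.sq_le _
  rw [intervalIntegral.integral_add (hc.intervalIntegrable _ _) intervalIntegrable_const,
    intervalIntegral.integral_const, smul_eq_mul] at h4
  have h5 := (le_abs_self _).trans h3
  linarith

end Pool.Agent.P.MP_33ac70_nt.Big
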