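import Pool.Agent.P.MP_33ac70_nt.CrVar
import Pool.Agent.P.MP_33ac70_nt.Blocks

/-! The two halves of the criterion. -/

namespace Pool.Agent.P.MP_33ac70_nt.Cr

open Real Finset Big MeasureTheory Filter Metric
open scoped ENNReal

theorem ae_of_lt {f : ℝ → ℝ} (hf : Function.Injective f) {Θ : Set ℝ} {P : ℝ → Prop}
    (h : ∀ t ∈ Θ, ∀ᵐ θ : ℝ, f t < f θ → P θ) : ∀ᵐ θ : ℝ, θ ∈ Θ → P θ := by
  have h1 : ∀ᵐ θ : ℝ, ∀ q : ℚ, (∃ t ∈ Θ, f t < q) → q < f θ → P θ := by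
    refine ae_all_iff.2 fun q => ?_
    by_cases hq : ∃ t ∈ Θ, f t < q
    · obtain ⟨t, ht, h2⟩ := hq
      filter_upwards [h t ht] with θ h3 _ h4 using h3 (h2.trans h4)
    · exact .of_forall fun θ h2 => absurd h2 hq
  have h2 : Set.Subsingleton {θ ∈ Θ | ∀ t ∈ Θ, f θ ≤ f t} := fun a ha b hb =>
    hf (le_antisymm (ha.2 b hb.1) (hb.2 a ha.1))
  filter_upwards [h1, h2.countable.ae_notMem volume] with θ h3 h4 hθ
  obtain ⟨t, ht, h5⟩ : ∃ t ∈ Θ, f t < f θ := by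
    by_contra h5
    exact h4 ⟨hθ, fun t ht => not_lt.1 fun h6 => h5 ⟨t, ht, h6⟩⟩
  obtain ⟨q, h6, h7⟩ := exists_rat_btwn h5
  exact h3 q ⟨t, ht, h6⟩ h7

theorem vit (T : Set ℕ) (x r : ℕ → ℝ) {R : ℝ} (h0 : ∀ a, 0 ≤ r a) (hR : ∀ a ∈ T, r a ≤ R) :
    ∃ u ⊆ T, (∀ a ∈ u, ∀ b ∈ u, a ≠ b → r a + r b < |x a - x b|) ∧
      (∀ a ∈ T, ∃ b ∈ u, |x a - x b| + r a ≤ 5 * r b) ∧
      (Summable (u.indicator r) ↔ volume (⋃ a ∈ T, Set.Icc (x a - r a) (x a + r a)) ≠ ∞) := by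
  obtain ⟨u, h1, h2, h3⟩ := Vitali.exists_disjoint_subfamily_covering_enlargement_closedBall T x r
    R hR 5 (by norm_num)
  simp only [← Real.closedBall_eq_Icc]
  refine ⟨u, h1, fun a ha b hb hab => ?_, fun a ha => ?_, fun h4 => ?_, fun h4 => ?_⟩
  · exact (disjoint_closedBall_closedBall_iff (h0 a) (h0 b)).1 (h2 ha hb hab)
  · obtain ⟨b, hb, h4⟩ := h3 a ha
    have h5 := h4 (show x a + r a ∈ closedBall (x a) (r a) by simp [abs_of_nonneg (h0 a)])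
    have h6 := h4 (show x a - r a ∈ closedBall (x a) (r a) by simp [abs_of_nonneg (h0 a)])
    rw [mem_closedBall, Real.dist_eq, abs_le] at h5 h6
    refine ⟨b, hb, le_sub_iff_add_le.1 (abs_le.2 ⟨?_, ?_⟩)⟩ <;> linarith [h5.2, h6.1]
  · have h5 : (⋃ a ∈ T, closedBall (x a) (r a)) ⊆ ⋃ b ∈ u, closedBall (x b) (5 * r b) :=
      Set.iUnion₂_subset fun a ha => by
        obtain ⟨b, hb, h6⟩ := h3 a ha
        exact h6.trans (Set.subset_biUnion_of_mem (u := fun b => closedBall (x b) (5 * r b)) hb)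
    refine ne_top_of_le_ne_top ?_ ((measure_mono h5).trans
      (measure_biUnion_le _ u.to_countable _))
    simp only [Real.volume_closedBall]
    exact (((summable_subtype_iff_indicator.2 h4).mul_left 5).mul_left 2).tsum_ofReal_ne_top
  · have h5 := ne_top_of_le_ne_top h4 (measure_mono (Set.biUnion_subset_biUnion_left h1))
    rw [measure_biUnion u.to_countable h2 fun _ _ => measurableSet_closedBall] at h5
    have h6 := ENNReal.summable_toReal h5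
    simp only [Real.volume_closedBall] at h6
    refine summable_subtype_iff_indicator.1 ((h6.mul_left (1 / 2)).congr fun a => ?_)
    rw [ENNReal.toReal_ofReal (by linarith [h0 a]), Function.comp_apply]
    ring

theorem exists_window {f : ℕ → ℝ} (h0 : ∀ n, 0 ≤ f n) (h1 : ∀ n, f n ≤ 1) (h : ¬ Summable f)
    (L : ℕ) {B : ℝ} (hB : 0 ≤ B) :
    ∃ N, B ≤ ∑ i ∈ Ico L N, f i ∧ ∑ i ∈ Ico L N, f i ≤ B + 1 := by
  classical
  have h2 := (not_summable_iff_tendsto_nat_atTop_of_nonneg fun m => h0 (m + L)).1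
    fun h3 => h ((summable_nat_add_iff L).1 h3)
  have h3 : ∃ N, B ≤ ∑ i ∈ range N, f (i + L) := (h2.eventually_ge_atTop B).exists
  refine ⟨L + Nat.find h3, ?_⟩
  rw [sum_Ico_eq_sum_range, add_tsub_cancel_left]
  simp only [add_comm L]
  refine ⟨Nat.find_spec h3, ?_⟩
  rcases h4 : Nat.find h3 with _ | k
  · rw [sum_range_zero]; linarith
  · have := Nat.find_min h3 (show k < Nat.find h3 by omega)
    rw [sum_range_succ]
    linarith [h1 (k + L), not_le.1 this]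

theorem div_interval {u : Set ℕ} {δ : ℕ → ℝ} (h0 : ∀ m, 0 ≤ δ m) (h1 : ∀ m, δ m ≤ 1 / 2)
    {α β σ t : ℝ} (hσ : 0 ≤ σ) (ht : 0 ≤ t) (h2 : ∀ m ∈ u, (m : ℝ) ^ (-σ) ≤ δ m)
    (h3 : ∀ m ∈ u, ∀ n ∈ u, m < n → (m : ℝ) ^ t + δ m ≤ (n : ℝ) ^ t - δ n)
    (h : ¬ Summable (u.indicator δ)) (hab : α ≤ β) (hta : t < α) (hα : 3 * σ + 4 * (β - α) < α)
    (M : ℕ) : ∀ᵐ θ : ℝ, θ ∈ Set.Ioc α β → ∃ m ∈ u, M ≤ m ∧ ∃ b : ℤ, |pw m θ - b| ≤ δ m := by
  classical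
  choose c Y hK using fun m => exists_ker (h0 m) (h1 m)
  rw [← ae_restrict_iff' measurableSet_Ioc, ae_iff]
  refine null_of_variance (C := 2 * (β - α) + 8) fun B => ?_
  obtain ⟨M0, hM⟩ := variance hK hab hσ ht hta hα (max B 0 + 1)
  obtain ⟨N, n1, n2⟩ := exists_window (fun n => Set.indicator_nonneg (fun m _ => h0 m) n)
    (fun n => (Set.indicator_le_self' (fun m _ => h0 m) n).trans (by linarith [h1 n])) h
    (max M M0) (le_max_right B 0)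
  simp only [Set.indicator_apply, ← sum_filter] at n1 n2
  set A := (Ico (max M M0) N).filter (· ∈ u) with hA
  have a1 : ∀ m ∈ A, m ∈ u ∧ max M M0 ≤ m := fun m hm =>
    ⟨(mem_filter.1 hm).2, (mem_Ico.1 (mem_filter.1 hm).1).1⟩
  have hc : Continuous fun x => (∑ m ∈ A, Y m (pw m x)) ^ 2 :=
    (continuous_finsetSum _ fun m _ => (hK _).cont.comp (pw_cont m)).pow 2
  refine ⟨_, fun x => ∑ m ∈ A, Y m (pw m x), (le_max_left _ _).trans n1, hc.integrableOn_Ioc,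
    (hM A (fun m hm => ⟨(le_max_right _ _).trans (a1 m hm).2, h2 m (a1 m hm).1⟩)
      (fun m hm n hn => h3 m (a1 m hm).1 n (a1 n hn).1) n2).trans (by linarith), fun x hx => ?_⟩
  rw [← sum_neg_distrib]
  refine sum_congr rfl fun m hm => (hK _).off _ fun b => ?_
  by_contra h4
  exact hx ⟨m, (a1 m hm).1, (le_max_left _ _).trans (a1 m hm).2, b, not_lt.1 h4⟩

theorem nat_of_near {m : ℕ} (hm : 1 ≤ m) {θ : ℝ} (hθ : 0 ≤ θ) {b : ℤ}
    (h : |(m : ℝ) ^ θ - b| ≤ 1 / 2) : ∃ b' : ℕ, 1 ≤ b' ∧ (b' : ℝ) = b := by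
  have h1 : (1 : ℝ) ≤ (m : ℝ) ^ θ := one_le_rpow (by exact_mod_cast hm) hθ
  have h2 : (0 : ℝ) < b := by linarith [(abs_le.1 h).2]
  have h3 : 0 < b := by exact_mod_cast h2
  obtain ⟨b, rfl⟩ := Int.eq_ofNat_of_zero_le h3.le
  exact ⟨b, by omega, by simp⟩

theorem div_half {ψ : ℕ → ℝ} (h0 : ∀ m, 0 ≤ ψ m) {σ t : ℝ} (hσ : 0 ≤ σ) (ht : 0 ≤ t)
    (h : volume (⋃ m ∈ {m : ℕ | 1 ≤ m ∧ (m : ℝ) ^ (-σ) ≤ ψ m},
      Set.Icc ((m : ℝ) ^ t - ψ m) ((m : ℝ) ^ t + ψ m)) = ∞) :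
    ∀ᵐ θ : ℝ, t < θ → 3 * σ < θ → ∀ M : ℕ, ∃ m b : ℕ, M ≤ m ∧ 1 ≤ m ∧ 1 ≤ b ∧
      |(m : ℝ) ^ θ - b| ≤ ψ m := by
  by_cases hF : {m | 1 / 2 ≤ ψ m}.Finite
  swap
  · refine .of_forall fun θ h1 _ M => ?_
    obtain ⟨m, h2, h3⟩ := Set.Infinite.exists_gt hF M
    have h4 := abs_sub_round ((m : ℝ) ^ θ)
    obtain ⟨b, h5, h6⟩ := nat_of_near (show 1 ≤ m by omega) (ht.trans h1.le) h4
    exact ⟨m, b, h3.le, by omega, h5, h6 ▸ h4.trans h2⟩
  obtain ⟨u, u1, u2, -, u3⟩ := vit ({m : ℕ | 1 ≤ m ∧ (m : ℝ) ^ (-σ) ≤ ψ m} \ {m | 1 / 2 ≤ ψ m})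
    (fun m => (m : ℝ) ^ t) ψ h0 fun a ha => (not_le.1 ha.2).le
  have e : ∀ m ∈ u, min (ψ m) (1 / 2) = ψ m := fun m hm => min_eq_left (not_le.1 (u1 hm).2).le
  have h1 : ¬ Summable (u.indicator fun m => min (ψ m) (1 / 2)) := fun h2 => by
    rw [Set.indicator_congr e] at h2
    refine ne_top_of_le_ne_top (ENNReal.add_ne_top.2 ⟨u3.1 h2, (measure_biUnion_lt_top
      (f := fun m : ℕ => Set.Icc ((m : ℝ) ^ t - ψ m) ((m : ℝ) ^ t + ψ m)) hF
      fun _ _ => measure_Icc_lt_top).ne⟩) (le_trans (measure_mono ?_) (measure_union_le _ _)) h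
    rw [← Set.biUnion_union]
    exact Set.biUnion_subset_biUnion_left (by rw [Set.sdiff_union_self]; exact Set.subset_union_left)
  have h2 : ∀ᵐ θ : ℝ, ∀ (p : ℚ × ℚ) (M : ℕ), ((p.1 : ℝ) ≤ p.2 ∧ t < p.1 ∧
      3 * σ + 4 * (p.2 - p.1) < p.1) → θ ∈ Set.Ioc (p.1 : ℝ) p.2 →
      ∃ m ∈ u, M ≤ m ∧ ∃ b : ℤ, |pw m θ - b| ≤ min (ψ m) (1 / 2) := by
    refine ae_all_iff.2 fun p => ae_all_iff.2 fun M => ?_
    by_cases hp : (p.1 : ℝ) ≤ p.2 ∧ t < p.1 ∧ 3 * σ + 4 * (p.2 - p.1) < p.1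
    · filter_upwards [div_interval (fun m => le_min (h0 m) (by norm_num))
        (fun m => min_le_right _ _) hσ ht (fun m hm => (e m hm).symm ▸ (u1 hm).1.2)
        (fun m hm n hn hmn => by
          have h3 := u2 m hm n hn hmn.ne
          rw [abs_sub_comm, abs_of_nonneg (sub_nonneg.2 (rpow_le_rpow (by positivity)
            (by exact_mod_cast hmn.le) ht))] at h3
          rw [e m hm, e n hn]
          linarith) h1 hp.1 hp.2.1 hp.2.2 M] with θ hθ _ using hθ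
    · exact .of_forall fun θ h2 => absurd h2 hp
  filter_upwards [h2] with θ hθ h3 h4 M
  have h5 : 0 < θ - max t (3 * σ) := sub_pos.2 (max_lt h3 h4)
  obtain ⟨p, p1, p2⟩ := exists_rat_btwn (show θ - (θ - max t (3 * σ)) / 9 < θ by linarith)
  obtain ⟨q, q1, q2⟩ := exists_rat_btwn (show θ < θ + (θ - max t (3 * σ)) / 9 by linarith)
  have m1 := le_max_left t (3 * σ)
  have m2 := le_max_right t (3 * σ)
  obtain ⟨m, hm, h6, b, h7⟩ := hθ (p, q) M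
    ⟨by simp only; linarith, by simp only; linarith, by simp only; linarith⟩ ⟨p2, q1.le⟩
  rw [pw_rpow (u1 hm).1.1] at h7
  obtain ⟨b', h8, h9⟩ := nat_of_near (u1 hm).1.1 (ht.trans h3.le) (h7.trans (min_le_right _ _))
  exact ⟨m, b', h6, (u1 hm).1.1, h8, h9 ▸ h7.trans (min_le_left _ _)⟩

theorem rpow_lip {u v s : ℝ} (hu : 1 ≤ u) (hv : 1 ≤ v) (h0 : 0 ≤ s) (h1 : s ≤ 1) :
    |u ^ s - v ^ s| ≤ |u - v| := by
  wlog h : v ≤ u generalizing u v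
  · rw [abs_sub_comm, abs_sub_comm u]
    exact this hv hu (not_le.1 h).le
  have v0 : 0 < v := by linarith
  have h2 := rpow_one_add_le_one_add_mul_self (s := (u - v) / v)
    (by linarith [div_nonneg (sub_nonneg.2 h) v0.le]) h0 h1
  have e : 1 + (u - v) / v = u / v := by field_simp; ring
  rw [e, div_rpow (by linarith) v0.le, div_le_iff₀ (by positivity)] at h2
  have h3 : v ^ s ≤ v := by simpa using rpow_le_rpow_of_exponent_le hv h1
  have h4 : s * ((u - v) / v) * v ^ s ≤ 1 * ((u - v) / v) * v := by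
    have := div_nonneg (sub_nonneg.2 h) v0.le
    gcongr
  rw [one_mul, div_mul_cancel₀ _ v0.ne'] at h4
  rw [abs_of_nonneg (sub_nonneg.2 (rpow_le_rpow v0.le h h0)), abs_of_nonneg (sub_nonneg.2 h)]
  linarith

theorem conv_half {ψ : ℕ → ℝ} (h0 : ∀ m, 0 ≤ ψ m) {t : ℝ}
    (h : volume (⋃ m ∈ {m : ℕ | 1 ≤ m}, Set.Icc ((m : ℝ) ^ t - ψ m) ((m : ℝ) ^ t + ψ m)) ≠ ∞) :
    ∀ᵐ θ : ℝ, θ < t → 0 < θ →
      {p : ℕ × ℕ | 1 ≤ p.1 ∧ 1 ≤ p.2 ∧ |(p.1 : ℝ) ^ θ - p.2| ≤ ψ p.1}.Finite := by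
  classical
  obtain ⟨R, hR⟩ : ∃ R, ∀ a ∈ {m : ℕ | 1 ≤ m}, ψ a ≤ R := ⟨_, fun a ha => by
    have h1 := ENNReal.toReal_mono h (measure_mono (Set.subset_biUnion_of_mem
      (u := fun m : ℕ => Set.Icc ((m : ℝ) ^ t - ψ m) ((m : ℝ) ^ t + ψ m)) ha))
    rw [Real.volume_Icc, ENNReal.toReal_ofReal (by linarith [h0 a])] at h1
    exact le_trans (by linarith [h0 a]) h1⟩
  obtain ⟨u, u1, -, u2, u3⟩ := vit {m : ℕ | 1 ≤ m} (fun m => (m : ℝ) ^ t) ψ h0 hR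
  have hs := u3.2 h
  set K : ℕ := ⌈t⌉₊ + 1 with hK
  have K0 : (0 : ℝ) < K := by positivity
  have tK : t < K := (Nat.le_ceil t).trans_lt (by rw [hK]; push_cast; linarith)
  set s : ℕ → Set ℝ := fun a => if a ∈ u ∧ 2 ≤ a ∧ 5 * ψ a ≤ 1 / 2 then
    (· * (K : ℝ)⁻¹) ⁻¹' nearSet (a ^ K) (5 * ψ a) else ∅ with hs'
  have h1 : ∑' a, volume (s a) ≠ ∞ := by
    refine ne_top_of_le_ne_top (hs.mul_left ((K : ℝ) * 60)).tsum_ofReal_ne_top
      (ENNReal.tsum_le_tsum fun a => ?_)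
    simp only [hs']
    split_ifs with h2
    · rw [Real.volume_preimage_mul_right (by positivity), inv_inv, abs_of_pos K0,
        Set.indicator_of_mem h2.1, mul_assoc, ENNReal.ofReal_mul K0.le]
      refine mul_le_mul_right ((volume_nearSet_le _ (h2.2.1.trans (Nat.le_self_pow (by omega) a)) _
        (by linarith [h0 a]) h2.2.2).trans (le_of_eq ?_)) _
      congr 1; ring
    · simp
  have h2 : {a | 1 / 10 < u.indicator ψ a}.Finite := by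
    have := hs.tendsto_cofinite_zero.eventually (ge_mem_nhds (show (0 : ℝ) < 1 / 10 by norm_num))
    simpa only [eventually_cofinite, not_le] using this
  filter_upwards [ae_finite_setOfPred_mem h1] with θ h3 h4 h5
  obtain ⟨N, hN⟩ := ((h2.union h3).union (Set.finite_lt_nat 2)).bddAbove
  have t0 : 0 < t := h5.trans h4
  have h6 : ∀ m b : ℕ, 1 ≤ m → 1 ≤ b → |(m : ℝ) ^ θ - b| ≤ ψ m →
      (b : ℝ) ≤ (N : ℝ) ^ θ + 5 * R := by
    intro m b hm hb h7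
    obtain ⟨a, ha, h8⟩ := u2 m hm
    have a1 : (1 : ℝ) ≤ a := by exact_mod_cast u1 ha
    have m1 : (1 : ℝ) ≤ m := by exact_mod_cast hm
    have h9 := rpow_lip (one_le_rpow m1 t0.le) (one_le_rpow a1 t0.le) (s := θ / t) (by positivity)
      ((div_le_one t0).2 h4.le)
    rw [← rpow_mul (by linarith), ← rpow_mul (by linarith), mul_div_cancel₀ _ t0.ne'] at h9
    have h10 : |(a : ℝ) ^ θ - b| ≤ 5 * ψ a := by
      have := abs_sub_le ((a : ℝ) ^ θ) ((m : ℝ) ^ θ) b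
      rw [abs_sub_comm ((a : ℝ) ^ θ) ((m : ℝ) ^ θ)] at this
      linarith
    have h11 : a ≤ N := hN (by
      by_cases h12 : a < 2
      · exact Or.inr h12
      by_cases h13 : 5 * ψ a ≤ 1 / 2
      · refine Or.inl (Or.inr ?_)
        simp only [hs', Set.mem_ofPred_eq, if_pos (show a ∈ u ∧ 2 ≤ a ∧ 5 * ψ a ≤ 1 / 2 from
          ⟨ha, not_lt.1 h12, h13⟩)]
        rw [Set.mem_preimage]
        refine ⟨⟨by positivity, by rw [← div_eq_mul_inv, div_lt_one K0]; linarith⟩, b, hb, ?_⟩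
        rwa [Nat.cast_pow, ← rpow_natCast, ← rpow_mul (by linarith), mul_comm θ,
          mul_inv_cancel_left₀ K0.ne']
      · refine Or.inl (Or.inl ?_)
        rw [Set.mem_ofPred_eq, Set.indicator_of_mem ha]
        linarith [not_le.1 h13])
    have h12 : (a : ℝ) ^ θ ≤ (N : ℝ) ^ θ :=
      rpow_le_rpow (by linarith) (by exact_mod_cast h11) h5.le
    linarith [(abs_le.1 h10).1, hR a (u1 ha)]
  obtain ⟨L, hL⟩ := eventually_atTop.1 (((tendsto_rpow_atTop h5).comp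
    tendsto_natCast_atTop_atTop).eventually_gt_atTop ((N : ℝ) ^ θ + 6 * R))
  refine ((Set.finite_lt_nat L).prod (Set.finite_le_nat ⌊(N : ℝ) ^ θ + 5 * R⌋₊)).subset ?_
  rintro ⟨m, b⟩ ⟨hm, hb, h7⟩
  have h8 := h6 m b hm hb h7
  refine ⟨show m < L from not_le.1 fun h9 => ?_, Nat.le_floor h8⟩
  have h10 := hL m h9
  simp only [Function.comp_apply] at h10 h7
  linarith [(abs_le.1 h7).2, hR m hm]

end Pool.Agent.P.MP_33ac70_nt.Cr
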