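import Pool.Agent.P.MP_33ac70_nt.CrMain

/-! Monotone targets and small exponents, through the inverse exponent. -/

namespace Pool.Agent.P.MP_33ac70_nt.Cr

open Real Finset Big MeasureTheory Filter

theorem null_var {μ : Measure ℝ} [IsFiniteMeasure μ] {S : Set ℝ} {C : ℝ}
    (h : ∀ B : ℝ, ∃ (D : ℝ) (f : ℝ → ℝ), B ≤ D ∧ Integrable (fun x => f x ^ 2) μ ∧
      ∫ x, f x ^ 2 ∂μ ≤ C * (D + 1) ∧ ∀ x ∈ S, f x ≤ -D) : μ S = 0 := by
  rw [← measureReal_eq_zero_iff]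
  by_contra h0
  have h1 : 0 < μ.real S := lt_of_le_of_ne measureReal_nonneg (Ne.symm h0)
  obtain ⟨D, f, h2, h3, h4, h5⟩ := h (2 * |C| / μ.real S + 1)
  have h6 := mul_meas_ge_le_integral_of_nonneg (μ := μ) (f := fun x => f x ^ 2)
    (.of_forall fun x => sq_nonneg _) h3 (D ^ 2)
  have h8 : 0 ≤ 2 * |C| / μ.real S := by positivity
  have h7 : μ.real S ≤ μ.real {x | D ^ 2 ≤ f x ^ 2} :=
    measureReal_mono fun x hx => show D ^ 2 ≤ f x ^ 2 by nlinarith [h5 x hx]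
  have h9 : 2 * |C| < D * μ.real S := by
    rw [← div_lt_iff₀ h1]; linarith
  have h10 := mul_le_mul_of_nonneg_left h7 (sq_nonneg D)
  have h11 : C * (D + 1) ≤ |C| * (2 * D) :=
    mul_le_mul (le_abs_self C) (by linarith) (by linarith) (abs_nonneg C)
  nlinarith

theorem win_int {α β : ℝ} (hab : α ≤ β) (l h : ℝ) : ∃ α' β', α ≤ α' ∧ α' ≤ β' ∧ β' ≤ β ∧
    ∀ F : ℝ → ℝ, ∫ x in Set.Ioc α β, (Set.Ioc l h).indicator F x = ∫ x in α'..β', F x := by
  simp only [setIntegral_indicator measurableSet_Ioc, Set.Ioc_inter_Ioc]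
  by_cases k : α ⊔ l ≤ β ⊓ h
  · exact ⟨_, _, le_sup_left, k, inf_le_left, fun F => (intervalIntegral.integral_of_le k).symm⟩
  · exact ⟨α, α, le_rfl, le_rfl, hab, fun F => by
      rw [Set.Ioc_eq_empty fun e => k e.le]; simp⟩

/-- the exponents `x` with `2 ^ j < b ^ x ≤ 2 ^ (j + 1)` -/
def win (p : ℕ × ℕ) : Set ℝ :=
  Set.Ioc (p.1 * (log 2 / log p.2)) ((p.1 + 1) * (log 2 / log p.2))

theorem mem_win {j b : ℕ} (hb : 2 ≤ b) {x : ℝ} :
    x ∈ win (j, b) ↔ (2 : ℝ) ^ j < (b : ℝ) ^ x ∧ (b : ℝ) ^ x ≤ 2 ^ (j + 1) := by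
  have b1 : (1 : ℝ) < b := by exact_mod_cast hb
  have l0 := log_pos b1
  rw [win, Set.mem_Ioc, lt_rpow_iff_log_lt (by positivity) (by linarith),
    rpow_le_iff_le_log (by linarith) (by positivity), log_pow, log_pow, ← mul_div_assoc,
    ← mul_div_assoc, div_lt_iff₀ l0, le_div_iff₀ l0, Nat.cast_succ]

theorem win_count {x β : ℝ} (h1 : 1 ≤ x) (hβ : x ≤ β) (j : ℕ) (T : Finset ℕ)
    (hT : ∀ b : ℕ, b ∈ T ↔ (2 : ℝ) ^ j < (b : ℝ) ^ x ∧ (b : ℝ) ^ x ≤ 2 ^ (j + 1)) :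
    ∑ b ∈ T, 1 / (b : ℝ) ≤ 2 ∧ (2 ≤ (2 ^ (1 / β) - 1) * (2 : ℝ) ^ (j / β) →
      ((2 : ℝ) ^ (1 / β) - 1) / 4 ≤ ∑ b ∈ T, 1 / (b : ℝ)) := by
  have x0 : 0 < x := by linarith
  set u : ℝ := 2 ^ (j / x) with hu
  set κ : ℝ := 2 ^ (1 / x) with hκ
  have u1 : 1 ≤ u := one_le_rpow one_le_two (by positivity)
  have k1 : 1 ≤ κ := one_le_rpow one_le_two (by positivity)
  have k2 : κ ≤ 2 :=
    (rpow_le_rpow_of_exponent_le one_le_two ((div_le_one x0).2 h1)).trans_eq (rpow_one 2)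
  have e1 : u ^ x = 2 ^ j := by rw [hu, ← rpow_mul two_pos.le, div_mul_cancel₀ _ x0.ne', rpow_natCast]
  have e2 : (κ * u) ^ x = 2 ^ (j + 1) := by
    rw [mul_rpow (by linarith) (by linarith), e1, hκ, ← rpow_mul two_pos.le,
      div_mul_cancel₀ _ x0.ne', rpow_one, pow_succ']
  have h2 : ∀ b : ℕ, b ∈ T ↔ u < b ∧ b ≤ κ * u := fun b => by
    rw [hT, ← e1, ← e2, rpow_lt_rpow_iff (by linarith) (by positivity) x0,
      rpow_le_rpow_iff (by positivity) (by positivity) x0]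
  have h3 : T = Ioc ⌊u⌋₊ ⌊κ * u⌋₊ := by
    ext b
    rw [h2, mem_Ioc, Nat.floor_lt (by linarith), Nat.le_floor_iff (by positivity)]
  have h4 : (#T : ℝ) = ⌊κ * u⌋₊ - ⌊u⌋₊ := by
    rw [h3, Nat.card_Ioc, Nat.cast_sub (Nat.floor_mono (by nlinarith))]
  have f1 := Nat.floor_le (show 0 ≤ u by linarith)
  have f2 := Nat.lt_floor_add_one u
  have f3 := Nat.floor_le (show 0 ≤ κ * u by positivity)
  have f4 := Nat.lt_floor_add_one (κ * u)
  refine ⟨(sum_le_card_nsmul T _ (1 / u) fun b hb =>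
    one_div_le_one_div_of_le (by linarith) ((h2 b).1 hb).1.le).trans ?_, fun h5 =>
    le_trans ?_ (card_nsmul_le_sum T _ (1 / (2 * u)) fun b hb => one_div_le_one_div_of_le
      (by linarith [((h2 b).1 hb).1]) (by nlinarith [((h2 b).1 hb).2]))⟩
  · rw [nsmul_eq_mul, mul_one_div, div_le_iff₀ (by linarith)]
    nlinarith
  · have g1 : (2 : ℝ) ^ (1 / β) ≤ κ :=
      rpow_le_rpow_of_exponent_le one_le_two (one_div_le_one_div_of_le x0 hβ)
    have g2 : (2 : ℝ) ^ (j / β) ≤ u :=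
      rpow_le_rpow_of_exponent_le one_le_two (div_le_div_of_nonneg_left (by positivity) x0 hβ)
    have g3 : 1 ≤ (2 : ℝ) ^ (1 / β) := one_le_rpow one_le_two (by have := x0.trans_le hβ; positivity)
    have g4 := mul_le_mul_of_nonneg_left g2 (sub_nonneg.2 g3)
    rw [nsmul_eq_mul, mul_one_div, le_div_iff₀ (by linarith)]
    nlinarith

/-- the pairs of a scale and a base that are used -/
noncomputable def fam (β : ℝ) (L N : ℕ) : Finset (ℕ × ℕ) :=
  (Ico L N ×ˢ Icc 2 (2 ^ N)).filter fun p => (2 : ℝ) ^ p.1 ≤ (p.2 : ℝ) ^ β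

theorem fam_sum {β ε : ℝ} (hβ : 0 ≤ β) (hε : 0 < ε) (L N : ℕ) {w : ℕ → ℝ} (hw : ∀ b, 0 ≤ w b) :
    ∑ p ∈ fam β L N, w p.2 ≤ ∑ b ∈ Icc (2 : ℕ) (2 ^ N), (1 + 2 * β / ε) * (b : ℝ) ^ ε * w b := by
  rw [fam, sum_filter, sum_product_right]
  refine sum_le_sum fun b hb => ?_
  have b1 : (1 : ℝ) ≤ b := by exact_mod_cast le_trans one_le_two (mem_Icc.1 hb).1
  dsimp only
  rw [← sum_filter, sum_const, nsmul_eq_mul]
  refine mul_le_mul_of_nonneg_right ?_ (hw b)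
  have h1 : #{j ∈ Ico L N | (2 : ℝ) ^ j ≤ (b : ℝ) ^ β} ≤ #(range (⌊2 * β / ε * (b : ℝ) ^ ε⌋₊ + 1)) :=
    card_le_card fun j hj => by
      have h2 := log_le_log (by positivity) (mem_filter.1 hj).2
      rw [log_pow, log_rpow (by linarith)] at h2
      have h3 := mul_le_mul_of_nonneg_left (log_le_rpow_div (by linarith : (0 : ℝ) ≤ b) hε) hβ
      have h4 := mul_le_mul_of_nonneg_left log_two_gt_d9.le (Nat.cast_nonneg (α := ℝ) j)
      have h5 := Nat.cast_nonneg (α := ℝ) j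
      refine mem_range.2 (Nat.lt_succ_of_le (Nat.le_floor ?_))
      rw [show 2 * β / ε * (b : ℝ) ^ ε = 2 * (β * ((b : ℝ) ^ ε / ε)) by ring]
      linarith
  rw [card_range] at h1
  have h2 := (Nat.cast_le (α := ℝ)).2 h1
  have h3 := Nat.floor_le (show 0 ≤ 2 * β / ε * (b : ℝ) ^ ε by positivity)
  have h4 := one_le_rpow b1 hε.le
  push_cast at h2
  linarith

theorem fam_count {s : ℕ → ℝ} (h0 : ∀ j, 0 ≤ s j) {x β : ℝ} (h1 : 1 ≤ x) (hβ : x ≤ β) (L N : ℕ) :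
    ∑ p ∈ fam β L N, (win p).indicator (fun _ => s p.1 / p.2) x ≤ 2 * ∑ j ∈ Ico L N, s j ∧
    ((∀ j, L ≤ j → 2 ≤ (2 ^ (1 / β) - 1) * (2 : ℝ) ^ (j / β)) →
      (2 ^ (1 / β) - 1) / 4 * ∑ j ∈ Ico L N, s j ≤
        ∑ p ∈ fam β L N, (win p).indicator (fun _ => s p.1 / p.2) x) := by
  classical
  set T : ℕ → Finset ℕ := fun j => (Icc 2 (2 ^ N)).filter fun b =>
    (2 : ℝ) ^ j ≤ (b : ℝ) ^ β ∧ x ∈ win (j, b) with hT
  have e : ∑ p ∈ fam β L N, (win p).indicator (fun _ => s p.1 / p.2) x =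
      ∑ j ∈ Ico L N, (∑ b ∈ T j, 1 / (b : ℝ)) * s j := by
    simp only [fam, hT, sum_filter, sum_product, Set.indicator_apply, sum_mul, ite_and]
    refine sum_congr rfl fun j _ => sum_congr rfl fun b _ => ?_
    split_ifs <;> ring
  have h2 := fun j (hj : j ∈ Ico L N) => win_count h1 hβ j (T j) fun b => by
    rw [hT, mem_filter, mem_Icc]
    refine ⟨fun h => (mem_win h.1.1).1 h.2.2, fun h => ?_⟩
    have b2 : 2 ≤ b := by
      by_contra h3
      have := rpow_le_one (Nat.cast_nonneg b) (z := x)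
        (by exact_mod_cast (show b ≤ 1 by omega)) (by linarith)
      linarith [h.1, one_le_pow₀ (n := j) (one_le_two (α := ℝ))]
    have b1 : (1 : ℝ) ≤ b := by exact_mod_cast le_trans one_le_two b2
    refine ⟨⟨b2, ?_⟩, h.1.le.trans (rpow_le_rpow_of_exponent_le b1 hβ), (mem_win b2).2 h⟩
    have h3 : (b : ℝ) ≤ (b : ℝ) ^ x := by simpa using rpow_le_rpow_of_exponent_le b1 h1
    exact_mod_cast (h3.trans h.2).trans (pow_le_pow_right₀ one_le_two (mem_Ico.1 hj).2)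
  rw [e, mul_sum, mul_sum]
  exact ⟨sum_le_sum fun j hj => mul_le_mul_of_nonneg_right (h2 j hj).1 (h0 j), fun h =>
    sum_le_sum fun j hj => mul_le_mul_of_nonneg_right ((h2 j hj).2 (h j (mem_Ico.1 hj).1)) (h0 j)⟩

theorem sum_gap (b : ℕ) (T : Finset ℕ) :
    ∑ a ∈ T with a < b, 1 / √((b : ℝ) - a) ≤ 4 * √b := by
  have h1 := sum_inv_sqrt_int ((T.filter (· < b)).image fun a : ℕ => (b : ℤ) - a)
    (Nat.cast_nonneg b) fun t ht => by
      obtain ⟨a, ha, rfl⟩ := mem_image.1 ht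
      have : (a : ℝ) < b := by exact_mod_cast (mem_filter.1 ha).2
      push_cast
      rw [abs_of_pos (by linarith)]
      linarith [Nat.cast_nonneg (α := ℝ) a]
  rw [sum_image fun x _ y _ h => by simpa using h] at h1
  refine le_trans (le_of_eq (sum_congr rfl fun a ha => ?_)) h1
  have : (a : ℝ) < b := by exact_mod_cast (mem_filter.1 ha).2
  push_cast
  rw [abs_of_pos (by linarith)]

theorem win_mul {f g : ℝ → ℝ} (hf : Continuous f) (hg : Continuous g) (p q : ℕ × ℕ) (α β : ℝ) :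
    Integrable (fun x => (win p).indicator f x * (win q).indicator g x)
      (volume.restrict (Set.Ioc α β)) := by
  simp only [← Set.inter_indicator_mul]
  exact (hf.mul hg).integrableOn_Ioc.indicator (measurableSet_Ioc.inter measurableSet_Ioc)

theorem mono_var {s : ℕ → ℝ} (h0 : ∀ j, 0 ≤ s j) (h1 : ∀ j, s j ≤ 1 / 2) {c : ℕ × ℕ → ℤ → ℝ}
    {Y : ℕ × ℕ → ℝ → ℝ} (hK : ∀ p, IsKer (s p.1 / p.2) (c p) (Y p)) {α β : ℝ} (hab : α < β)
    (hα : 3 + 8 * (β - α) < α) : ∃ C, 0 ≤ C ∧ ∀ L N,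
      ∫ x in Set.Ioc α β, (∑ p ∈ fam β L N, (win p).indicator (fun x => Y p (pw p.2 x)) x) ^ 2 ≤
        C * (∑ j ∈ Ico L N, s j + 1) := by
  obtain ⟨ε, hε⟩ : ∃ ε, ε = β - α := ⟨_, rfl⟩
  have ε0 : 0 < ε := by linarith
  have a0 : 0 < α := by linarith
  have b0 : 0 ≤ β := by linarith
  set K := 1 + 2 * β / ε with hK'
  have K0 : 0 ≤ K := by positivity
  have hZ : Summable fun b : ℕ => (b : ℝ) ^ (4 * ε + 1 / 2 - α / 2) :=
    summable_nat_rpow.2 (by linarith)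
  set Z := ∑' b : ℕ, (b : ℝ) ^ (4 * ε + 1 / 2 - α / 2) with hZ'
  have Z1 : ∀ T : Finset ℕ, ∑ b ∈ T, (b : ℝ) ^ (4 * ε + 1 / 2 - α / 2) ≤ Z := fun T =>
    hZ.sum_le_tsum T fun b _ => by positivity
  have Z0 : 0 ≤ Z := by simpa using Z1 ∅
  refine ⟨4 * ε + (4 * K * Z + 2 * (800 * K ^ 2 * 2 ^ (α / 2) * Z)), by positivity, fun L N => ?_⟩
  have a2 : ∀ p ∈ fam β L N, 2 ≤ p.2 := fun p hp =>
    (mem_Icc.1 (mem_product.1 (mem_filter.1 hp).1).2).1
  have hc : ∀ p, Continuous fun x => Y p (pw p.2 x) := fun p => (hK p).cont.comp (pw_cont _)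
  have hm : ∀ p, MeasurableSet (win p) := fun _ => measurableSet_Ioc
  set V : ℕ → ℝ := fun b => 200 * 2 ^ (α / 2) * (b : ℝ) ^ (2 * ε - α / 2) with hV
  have V0 : ∀ b, 0 ≤ V b := fun b => by simp only [hV]; positivity
  set u : ℕ → ℕ → ℝ := fun a b => if a < b then V b * (1 / √((b : ℝ) - a)) else 0 with hu
  have u0 : ∀ a b, 0 ≤ u a b := fun a b => by
    have := V0 b
    simp only [hu]
    split_ifs <;> positivity
  have hp : ∀ p ∈ fam β L N, ∀ q ∈ fam β L N, p.2 < q.2 → ∫ x in Set.Ioc α β,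
      (win p).indicator (fun x => Y p (pw p.2 x)) x *
        (win q).indicator (fun x => Y q (pw q.2 x)) x ≤ u p.2 q.2 := by
    intro p hp q hq h
    simp only [← Set.inter_indicator_mul, win, Set.Ioc_inter_Ioc, hu, if_pos h]
    obtain ⟨α', β', w1, w2, w3, w4⟩ := win_int hab.le (p.1 * (log 2 / log p.2) ⊔
      q.1 * (log 2 / log q.2)) ((p.1 + 1) * (log 2 / log p.2) ⊓ (q.1 + 1) * (log 2 / log q.2))
    rw [w4]
    refine (cov_far (hK q) (hK p) (by linarith [a2 p hp]) h (by linarith) w2).trans ?_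
    have n2 : (2 : ℝ) ≤ q.2 := by exact_mod_cast a2 q hq
    have n0 : (0 : ℝ) < q.2 := by linarith
    have g1 : √(s q.1 / q.2) * √q.2 ≤ 1 := by
      rw [← sqrt_mul (div_nonneg (h0 _) n0.le), div_mul_cancel₀ _ n0.ne']
      exact sqrt_le_one.2 (by linarith [h1 q.1])
    have g2 : (q.2 : ℝ) ^ (2 * (β' - α')) ≤ (q.2 : ℝ) ^ (2 * ε) :=
      rpow_le_rpow_of_exponent_le (by linarith) (by linarith)
    have g3 : ((q.2 : ℝ) / 2) ^ (-(α' / 2)) ≤ 2 ^ (α / 2) * (q.2 : ℝ) ^ (-(α / 2)) := by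
      refine (rpow_le_rpow_of_exponent_le (z := -(α / 2)) (by linarith) (by linarith)).trans_eq ?_
      rw [div_rpow n0.le two_pos.le, rpow_neg two_pos.le, div_inv_eq_mul, mul_comm]
    calc _ = 200 * (√(s q.1 / q.2) * √q.2) * (q.2 : ℝ) ^ (2 * (β' - α')) *
          ((q.2 : ℝ) / 2) ^ (-(α' / 2)) * (1 / √((q.2 : ℝ) - p.2)) := by ring
      _ ≤ 200 * 1 * (q.2 : ℝ) ^ (2 * ε) * (2 ^ (α / 2) * (q.2 : ℝ) ^ (-(α / 2))) *
          (1 / √((q.2 : ℝ) - p.2)) := by gcongr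
      _ = _ := by simp only [hV]; rw [sub_eq_add_neg (2 * ε), rpow_add n0]; ring
  refine (var_le (fam β L N) (g := fun p => (win p).indicator fun x => Y p (pw p.2 x))
    (d := fun p => 2 * (∫ x in Set.Ioc α β, (win p).indicator (fun _ => s p.1 / p.2) x) +
      4 * (p.2 : ℝ) ^ (-α)) (u := fun p q => u p.2 q.2) (fun p q => win_mul (hc p) (hc q) p q α β)
    (fun p _ q _ => u0 _ _) (fun p hp => ?_) fun p hp' q hq hne => ?_).trans ?_
  · simp only [← Set.inter_indicator_mul, Set.inter_self, win]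
    obtain ⟨α', β', w1, w2, w3, w4⟩ := win_int hab.le (p.1 * (log 2 / log p.2))
      ((p.1 + 1) * (log 2 / log p.2))
    rw [w4, w4, intervalIntegral.integral_const, smul_eq_mul]
    have h2 := diag_cov (k := 1) (hK p) (a := fun _ => p.2) (fun _ => by linarith [a2 p hp])
      (j0 := 0) (a2 p hp) w2
    have h3 : (p.2 : ℝ) ^ (-α') ≤ (p.2 : ℝ) ^ (-α) := rpow_le_rpow_of_exponent_le
      (by exact_mod_cast le_trans one_le_two (a2 p hp)) (by linarith)
    exact h2.trans (by linarith)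
  · rcases lt_trichotomy p.2 q.2 with h | h | h
    · linarith [hp p hp' q hq h, u0 q.2 p.2]
    · have h2 : win p ∩ win q = ∅ := Set.eq_empty_of_forall_notMem fun x hx => by
        have h3 := (mem_win (a2 p hp')).1 hx.1
        have h4 := (mem_win (a2 q hq)).1 hx.2
        rw [← h] at h4
        have h5 := (pow_lt_pow_iff_right₀ one_lt_two).1 (h3.1.trans_le h4.2)
        have h6 := (pow_lt_pow_iff_right₀ one_lt_two).1 (h4.1.trans_le h3.2)
        exact hne (Prod.ext (by omega) h)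
      simp only [← Set.inter_indicator_mul, h2, Set.indicator_empty, integral_zero]
      linarith [u0 p.2 q.2, u0 q.2 p.2]
    · have := hp q hq p hp' h
      simp only [mul_comm ((win q).indicator _ _)] at this
      linarith [u0 p.2 q.2]
  have S0 : 0 ≤ ∑ j ∈ Ico L N, s j := sum_nonneg fun j _ => h0 j
  have hi : ∀ p, Integrable ((win p).indicator fun _ => s p.1 / p.2)
      (volume.restrict (Set.Ioc α β)) := fun p => (integrable_const _).indicator (hm p)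
  have t1 : ∑ p ∈ fam β L N, ∫ x in Set.Ioc α β, (win p).indicator (fun _ => s p.1 / p.2) x ≤
      ε * (2 * ∑ j ∈ Ico L N, s j) := by
    rw [← integral_finsetSum _ fun p _ => hi p]
    refine (setIntegral_mono_on (integrable_finsetSum _ fun p _ => hi p) (integrable_const _)
      measurableSet_Ioc fun x hx => (fam_count h0 (by linarith [hx.1]) hx.2 L N).1).trans_eq ?_
    rw [setIntegral_const, Real.volume_real_Ioc_of_le hab.le, smul_eq_mul, hε]
  have b1 : ∀ b ∈ Icc 2 (2 ^ N), (1 : ℝ) ≤ (b : ℕ) := fun b hb => by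
    exact_mod_cast le_trans one_le_two (mem_Icc.1 hb).1
  have t2 : ∑ p ∈ fam β L N, (p.2 : ℝ) ^ (-α) ≤ K * Z := by
    refine (fam_sum b0 ε0 L N (w := fun b => (b : ℝ) ^ (-α)) fun b => by positivity).trans
      (le_trans ?_ (mul_le_mul_of_nonneg_left (Z1 (Icc 2 (2 ^ N))) K0))
    rw [mul_sum]
    refine sum_le_sum fun b hb => ?_
    rw [mul_assoc, ← rpow_add (by linarith [b1 b hb])]
    exact mul_le_mul_of_nonneg_left (rpow_le_rpow_of_exponent_le (b1 b hb) (by linarith)) K0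
  have t3 : ∀ b : ℕ, ∑ p ∈ fam β L N, u p.2 b ≤ K * (b : ℝ) ^ ε * V b * (4 * √b) := fun b => by
    have := V0 b
    refine (fam_sum b0 ε0 L N fun a => u0 a b).trans (le_trans ?_
      (mul_le_mul_of_nonneg_left (sum_gap b (Icc 2 (2 ^ N))) (by positivity)))
    rw [mul_sum, sum_filter]
    refine sum_le_sum fun a _ => ?_
    simp only [hu]
    split_ifs with h
    · rw [← mul_assoc, ← hK']
      gcongr
    · exact (mul_zero _).le
  have t4 : ∑ q ∈ fam β L N, ∑ p ∈ fam β L N, u p.2 q.2 ≤ 800 * K ^ 2 * 2 ^ (α / 2) * Z := by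
    refine (sum_le_sum fun q _ => t3 q.2).trans ((fam_sum b0 ε0 L N
      (w := fun b => K * (b : ℝ) ^ ε * V b * (4 * √b)) fun b => by
        have := V0 b
        positivity).trans
      (le_trans ?_ (mul_le_mul_of_nonneg_left (Z1 (Icc 2 (2 ^ N))) (by positivity))))
    rw [mul_sum]
    refine sum_le_sum fun b hb => le_of_eq ?_
    have n0 : (0 : ℝ) < b := by linarith [b1 b hb]
    simp only [hV]
    rw [show 4 * ε + 1 / 2 - α / 2 = ε + (ε + (2 * ε - α / 2 + 1 / 2)) by ring, rpow_add n0,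
      rpow_add n0, rpow_add n0, sqrt_eq_rpow, ← hK']
    ring
  rw [sum_add_distrib, ← mul_sum, ← mul_sum]
  have := mul_nonneg (show 0 ≤ 4 * K * Z + 2 * (800 * K ^ 2 * 2 ^ (α / 2) * Z) by positivity) S0
  nlinarith

theorem mono_interval {s : ℕ → ℝ} (h0 : ∀ j, 0 ≤ s j) (h1 : ∀ j, s j ≤ 1 / 2) (h : ¬ Summable s)
    {α β : ℝ} (hab : α < β) (hα : 3 + 8 * (β - α) < α) (M : ℕ) :
    ∀ᵐ x : ℝ, x ∈ Set.Ioc α β → ∃ j b : ℕ, M ≤ j ∧ 2 ≤ b ∧ x ∈ win (j, b) ∧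
      ∃ a : ℤ, |pw b x - a| ≤ s j / b := by
  choose c Y hK using fun p : ℕ × ℕ => exists_ker (δ := s p.1 / p.2)
    (div_nonneg (h0 _) (Nat.cast_nonneg _)) ((div_nat_le_self_of_nonnneg (h0 _) _).trans (h1 _))
  obtain ⟨C, C0, hC⟩ := mono_var h0 h1 hK hab hα
  have b0 : 0 < β := by linarith
  have k1 : (1 : ℝ) < 2 ^ (1 / β) := one_lt_rpow one_lt_two (by positivity)
  obtain ⟨L, hL⟩ := eventually_atTop.1 (((tendsto_pow_atTop_atTop_of_one_lt k1).const_mul_atTop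
    (sub_pos.2 k1)).eventually_ge_atTop 2)
  set κ : ℝ := (2 ^ (1 / β) - 1) / 4 with hκ
  have κ0 : 0 < κ := by linarith
  refine (ae_restrict_iff' measurableSet_Ioc).1 (ae_iff.2 (null_var (C := C * (1 / κ + 1))
    fun B => ?_)) |>.mono fun x (hx : x ∈ Set.Ioc α β → x ∈ Set.Ioc α β → _) h => hx h h
  obtain ⟨N, n1, -⟩ := exists_window h0 (fun j => by linarith [h1 j]) h (max M L)
    (le_max_right (B / κ) 0)
  have S0 := (le_max_right _ _).trans n1
  have hc : ∀ p, Continuous fun x => Y p (pw p.2 x) := fun p => (hK p).cont.comp (pw_cont _)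
  refine ⟨κ * ∑ j ∈ Ico (max M L) N, s j, _, (div_le_iff₀' κ0).1 ((le_max_left _ _).trans n1), ?_,
    (hC (max M L) N).trans ?_, fun x hx => ?_⟩
  · simp only [sq, sum_mul_sum]
    exact integrable_finsetSum _ fun p _ => integrable_finsetSum _ fun q _ =>
      win_mul (hc p) (hc q) p q α β
  · rw [mul_assoc]
    refine mul_le_mul_of_nonneg_left ?_ C0
    rw [add_mul, mul_add, one_div, inv_mul_cancel_left₀ κ0.ne']
    nlinarith [mul_nonneg κ0.le S0, inv_pos.2 κ0]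
  · rw [Set.mem_ofPred_eq, Classical.not_imp] at hx
    refine le_trans (le_of_eq ?_) (neg_le_neg ((fam_count h0 (by linarith [hx.1.1]) hx.1.2
      (max M L) N).2 fun j hj => (hL j ((le_max_right _ _).trans hj)).trans_eq ?_))
    · rw [← sum_neg_distrib]
      refine sum_congr rfl fun p hp => ?_
      obtain ⟨g1, g2⟩ := mem_product.1 (mem_filter.1 hp).1
      by_cases g3 : x ∈ win p
      · rw [Set.indicator_of_mem g3, Set.indicator_of_mem g3]
        refine (hK p).off _ fun a => not_le.1 fun g4 => hx.2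
          ⟨p.1, p.2, (le_max_left _ _).trans (mem_Ico.1 g1).1, (mem_Icc.1 g2).1, g3, a, g4⟩
      · rw [Set.indicator_of_notMem g3, Set.indicator_of_notMem g3, neg_zero]
    · rw [← rpow_natCast, ← rpow_mul two_pos.le, one_div_mul_eq_div]

theorem abs_rpow_sub_one {t s : ℝ} (ht : 0 ≤ t) (h0 : 0 < s) (h1 : s ≤ 1) :
    |t ^ s - 1| ≤ |t - 1| := by
  rcases le_total t 1 with h | h
  · have h2 := rpow_le_rpow_of_exponent_ge' ht h h0.le h1
    rw [rpow_one] at h2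
    rw [abs_of_nonpos (sub_nonpos.2 (rpow_le_one ht h h0.le)), abs_of_nonpos (sub_nonpos.2 h)]
    linarith
  · have h2 := rpow_le_rpow_of_exponent_le h h1
    rw [rpow_one] at h2
    rw [abs_of_nonneg (sub_nonneg.2 (one_le_rpow h h0.le)), abs_of_nonneg (sub_nonneg.2 h)]
    linarith

theorem mono_inv {ψ : ℕ → ℝ} (h0 : ∀ m, 0 ≤ ψ m) (hm : ∀ ⦃m n⦄, 0 < m → m ≤ n → ψ n ≤ ψ m)
    (h : ¬ Summable ψ) : ∀ᵐ x : ℝ, 3 < x → ∀ M : ℕ, ∃ a b : ℕ, M ≤ a ∧ 1 ≤ a ∧ 1 ≤ b ∧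
      |(a : ℝ) ^ x⁻¹ - b| ≤ ψ a := by
  have h1 : ¬ Summable fun j : ℕ => min ((2 : ℝ) ^ j * ψ (2 ^ (j + 2))) (1 / 2) :=
    not_summable_min fun h2 => h ((summable_condensed_iff_of_nonneg h0 hm).1
      ((summable_nat_add_iff 2).1 ((h2.mul_left 4).congr fun j => by ring)))
  have h2 : ∀ᵐ x : ℝ, ∀ (p : ℚ × ℚ) (M : ℕ), ((p.1 : ℝ) < p.2 ∧ 3 + 8 * (p.2 - p.1) < (p.1 : ℝ)) →
      x ∈ Set.Ioc (p.1 : ℝ) p.2 → ∃ j b : ℕ, M ≤ j ∧ 2 ≤ b ∧ x ∈ win (j, b) ∧
        ∃ a : ℤ, |pw b x - a| ≤ min ((2 : ℝ) ^ j * ψ (2 ^ (j + 2))) (1 / 2) / b := by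
    refine ae_all_iff.2 fun p => ae_all_iff.2 fun M => ?_
    by_cases hp : (p.1 : ℝ) < p.2 ∧ 3 + 8 * (p.2 - p.1) < (p.1 : ℝ)
    · filter_upwards [mono_interval (fun j => le_min (mul_nonneg (by positivity) (h0 _))
        (by norm_num)) (fun j => min_le_right _ _) h1 hp.1 hp.2 M] with x hx _ using hx
    · exact .of_forall fun x h2 => absurd h2 hp
  filter_upwards [h2] with x hx h3 M
  obtain ⟨p, p1, p2⟩ := exists_rat_btwn (show x - (x - 3) / 17 < x by linarith)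
  obtain ⟨q, q1, q2⟩ := exists_rat_btwn (show x < x + (x - 3) / 17 by linarith)
  obtain ⟨j, b, g1, g2, g3, a, g4⟩ := hx (p, q) M
    ⟨by simp only; linarith, by simp only; linarith⟩ ⟨p2, q1.le⟩
  have x0 : 0 < x := by linarith
  have b0 : (0 : ℝ) < b := by positivity
  rw [pw_rpow (by omega)] at g4
  rw [mem_win g2] at g3
  have g5 := g4.trans ((div_nat_le_self_of_nonnneg (le_min (mul_nonneg (by positivity) (h0 _))
    (by norm_num)) _).trans (min_le_right _ _))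
  obtain ⟨a', a1, a2⟩ := nat_of_near (by omega) x0.le g5
  rw [← a2] at g4 g5
  have j1 : (j : ℝ) + 1 ≤ 2 ^ j := by exact_mod_cast Nat.lt_two_pow_self
  have j0 := Nat.cast_nonneg (α := ℝ) j
  have y0 : 0 < (b : ℝ) ^ x := by positivity
  obtain ⟨g6, g7⟩ := abs_le.1 g5
  refine ⟨a', b, g1.trans (by exact_mod_cast (show (j : ℝ) ≤ a' by linarith [g3.1])), a1,
    by omega, le_trans ?_ (hm a1 (n := 2 ^ (j + 2)) ?_)⟩
  · have e : (a' : ℝ) ^ x⁻¹ - b = ((a' / (b : ℝ) ^ x) ^ x⁻¹ - 1) * b := by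
      rw [div_rpow (by positivity) y0.le, rpow_rpow_inv b0.le x0.ne']
      field_simp
    have g8 := abs_rpow_sub_one (t := a' / (b : ℝ) ^ x) (by positivity) (inv_pos.2 x0)
      (inv_le_one_of_one_le₀ (by linarith))
    rw [div_sub_one y0.ne', abs_div, abs_of_pos y0, abs_sub_comm (a' : ℝ), le_div_iff₀ y0] at g8
    have g9 := (le_div_iff₀ b0).1 (g8.trans g4)
    rw [e, abs_mul, abs_of_pos b0]
    refine le_of_mul_le_mul_left (le_trans ?_ (g9.trans (min_le_left _ _)))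
      (show (0 : ℝ) < 2 ^ j by positivity)
    nlinarith [mul_le_mul_of_nonneg_left g3.1.le (mul_nonneg (abs_nonneg
      ((a' / (b : ℝ) ^ x) ^ x⁻¹ - 1)) b0.le)]
  · have : (a' : ℝ) ≤ 2 ^ (j + 2) := by
      have := g3.2
      rw [pow_succ] at this
      rw [pow_add]
      linarith
    exact_mod_cast this

end Pool.Agent.P.MP_33ac70_nt.Cr
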