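import Pool.Agent.P.MP_33ac70_nt.Main

/-! Covariance of two single powers, with a count of the resonant frequencies. -/

namespace Pool.Agent.P.MP_33ac70_nt.Cr

open Real Finset Big

/-- the power `n ^ x` as a function of the exponent -/
noncomputable def pw (n : ℕ) : ℝ → ℝ := fa fun _ : Fin 1 => n

theorem pw_eq (n : ℕ) (x : ℝ) : pw n x = exp (log n * x) := by simp [pw, fa]

theorem pw_rpow {n : ℕ} (hn : 1 ≤ n) (x : ℝ) : pw n x = (n : ℝ) ^ x := by
  rw [pw_eq, rpow_def_of_pos (by exact_mod_cast hn)]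

theorem pw_cont (n : ℕ) : Continuous (pw n) := fa_cont _

theorem osc_two {m n : ℕ} (hm : 1 ≤ m) (hmn : m < n) (h l : ℤ) (hh : h ≠ 0) {α β : ℝ}
    (h0 : 0 ≤ α) (hab : α ≤ β) :
    Ψ (fun x => 2 * π * h * pw n x + 2 * π * l * pw m x) α β ≤ |(h : ℝ)| ^ (-(1 / 2 : ℝ)) *
      (40 * (n : ℝ) ^ (2 * (β - α)) * ((n : ℝ) / 2) ^ (-(α / 2)) * (√n * (1 / √(n - m)))) := by
  have h1 := pair_osc (k := 1) (a := fun _ => m) (a' := fun _ => n) (n := n) (j0 := 0) l h hh
    (c1 := 1) (fun _ => ⟨hm, hmn.le⟩) (fun _ => ⟨by omega, le_rfl⟩) (by omega) (by omega) le_rfl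
    (fun j hj => absurd (Subsingleton.elim _ _) hj) (fun _ => hmn.ne) h0 hab
  have h2 : (m : ℝ) < n := by exact_mod_cast hmn
  refine h1.trans (le_of_eq ?_)
  rw [Fin.sum_univ_one, abs_sub_comm (m : ℝ), abs_of_pos (sub_pos.2 h2)]
  norm_num

theorem osc_one {m n : ℕ} (hm : 3 ≤ m) (hmn : m < n) (h l : ℤ) {α β ν : ℝ} (hab : α ≤ β)
    (hν : 0 < ν) (H : ∀ x ∈ Set.Icc α β,
      ν * log m ≤ |l * log m + h * (log n * exp ((log n - log m) * x))|) :
    Ψ (fun x => 2 * π * h * pw n x + 2 * π * l * pw m x) α β ≤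
      (4 + 2 * (β - α)) / (ν * (m : ℝ) ^ α) := by
  have m3 : (3 : ℝ) ≤ m := by exact_mod_cast hm
  have mn : (m : ℝ) < n := by exact_mod_cast hmn
  have l1 : 1 ≤ log m := by
    rw [le_log_iff_exp_le (by linarith)]; linarith [exp_one_lt_d9]
  have l2 : log m ≤ log n := log_le_log (by linarith) mn.le
  obtain ⟨s, hs, hs'⟩ : ∃ s : ℝ, (s = 1 ∨ s = -1) ∧ 0 ≤ s * h := by
    rcases le_total 0 (h : ℝ) with h3 | h3
    · exact ⟨1, Or.inl rfl, by linarith⟩
    · exact ⟨-1, Or.inr rfl, by linarith⟩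
  have hd : ∀ a x : ℝ, HasDerivAt (fun y => exp (a * y)) (exp (a * x) * a) x := fun a x => by
    simpa using ((hasDerivAt_id x).const_mul a).exp
  have hma : 0 < (m : ℝ) ^ α := by positivity
  have h3 := ibp (φ := fun x => 2 * π * h * pw n x + 2 * π * l * pw m x) (lam := log m)
    (μ := ν * log m * (m : ℝ) ^ α)
    (p := fun x => 2 * π * h * (exp (log n * x) * log n) + 2 * π * l * (exp (log m * x) * log m))
    (p' := fun x => 2 * π * h * (exp (log n * x) * log n * log n) +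
      2 * π * l * (exp (log m * x) * log m * log m))
    (fun x => by
      simp only [pw_eq]
      exact ((hd _ x).const_mul _).add ((hd _ x).const_mul _))
    (fun x => (((hd _ x).mul_const _).const_mul _).add (((hd _ x).mul_const _).const_mul _))
    (by fun_prop) hab (by positivity) (by linarith) hs (fun x hx => ?_) (fun x _ => ?_)
  · refine h3.trans ?_
    rw [div_le_div_iff₀ (by positivity) (by positivity)]
    have h4 : 0 < ν * (m : ℝ) ^ α := by positivity
    nlinarith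
  · have e : exp (log n * x) = exp (log m * x) * exp ((log n - log m) * x) := by
      rw [← exp_add]; congr 1; ring
    have e2 : 2 * π * h * (exp (log n * x) * log n) + 2 * π * l * (exp (log m * x) * log m) =
        (l * log m + h * (log n * exp ((log n - log m) * x))) * (2 * π * exp (log m * x)) := by
      rw [e]; ring
    have h5 : (m : ℝ) ^ α ≤ exp (log m * x) := by
      rw [← rpow_def_of_pos (by linarith)]
      exact rpow_le_rpow_of_exponent_le (by linarith) hx.1
    rw [e2, abs_mul, abs_of_pos (show 0 < 2 * π * exp (log m * x) by positivity)]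
    refine mul_le_mul (H x hx) ?_ hma.le (abs_nonneg _)
    nlinarith [pi_gt_three]
  · have h4 : 0 ≤ s * h * (2 * π * (exp (log n * x) * log n * (log n - log m))) :=
      mul_nonneg hs' (by have := sub_nonneg.2 l2; have : 0 ≤ log n := by linarith
                         positivity)
    linarith

theorem q_bounds {m n : ℕ} (hm : 3 ≤ m) (hmn : m < n) {α β x η : ℝ} (h0 : 0 ≤ α)
    (hx : x ∈ Set.Icc α β) (hη : η = ((n : ℝ) - m) / n) (h2 : η ≤ 1 / 2) :
    log m * η * α ≤ log n * exp ((log n - log m) * x) - log m ∧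
      log n * exp ((log n - log m) * x) - log m ≤ log m * η * (2 * (1 + 2 * β * exp β)) := by
  have m3 : (3 : ℝ) ≤ m := by exact_mod_cast hm
  have mn : (m : ℝ) < n := by exact_mod_cast hmn
  have n0 : (0 : ℝ) < n := by linarith
  have l1 : 1 ≤ log m := by
    rw [le_log_iff_exp_le (by linarith)]; linarith [exp_one_lt_d9]
  have η0 : 0 ≤ η := by rw [hη]; exact div_nonneg (by linarith) n0.le
  have d1 : η ≤ log n - log m := by
    have := log_gap n0 (show (0 : ℝ) < m by linarith) le_rfl mn.le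
    rwa [abs_of_pos (sub_pos.2 mn), ← hη,
      abs_of_nonneg (sub_nonneg.2 (log_le_log (by linarith) mn.le))] at this
  have d2 : log n - log m ≤ 2 * η := by
    have h3 := log_le_sub_one_of_pos (div_pos n0 (show (0 : ℝ) < m by linarith))
    rw [log_div n0.ne' (by linarith)] at h3
    refine h3.trans ?_
    rw [hη, div_le_iff₀ n0] at h2
    rw [hη, div_sub_one (by linarith), ← mul_div_assoc, div_le_div_iff₀ (by linarith) n0]
    nlinarith
  generalize log (m : ℝ) = μ at *
  obtain ⟨Δ, hΔ⟩ : ∃ Δ, log (n : ℝ) = μ + Δ := ⟨log n - μ, by ring⟩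
  rw [hΔ, add_sub_cancel_left] at d1 d2 ⊢
  have x0 : 0 ≤ x := h0.trans hx.1
  have Δ0 : 0 ≤ Δ := η0.trans d1
  have y0 : 0 ≤ Δ * x := mul_nonneg Δ0 x0
  have y1 : Δ * x ≤ Δ * β := mul_le_mul_of_nonneg_left hx.2 Δ0
  have b0 : 0 ≤ β := x0.trans hx.2
  have y2 : Δ * β ≤ β := mul_le_of_le_one_left b0 (by linarith)
  constructor
  · have h3 := add_one_le_exp (Δ * x)
    have h4 : η * α ≤ Δ * x := mul_le_mul d1 hx.1 h0 Δ0
    nlinarith
  · have h3 : exp (Δ * x) - 1 ≤ Δ * x * exp (Δ * x) := by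
      have h4 := add_one_le_exp (-(Δ * x))
      have h5 := mul_le_mul_of_nonneg_right h4 (exp_pos (Δ * x)).le
      rw [← exp_add, neg_add_cancel, exp_zero] at h5
      linarith
    have h4 : Δ * x * exp (Δ * x) ≤ 2 * η * (β * exp β) := by
      rw [← mul_assoc]
      exact mul_le_mul (y1.trans (mul_le_mul_of_nonneg_right d2 b0))
        (exp_le_exp.2 (y1.trans y2)) (exp_pos _).le (by positivity)
    have h5 : (μ + Δ) * (exp (Δ * x) - 1) ≤ 2 * μ * (2 * η * (β * exp β)) :=
      mul_le_mul (by linarith) (h3.trans h4) (by linarith [add_one_le_exp (Δ * x)]) (by linarith)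
    nlinarith

theorem sum_natAbs_le (s : Finset ℤ) (l : ℤ) (R : ℕ) {f : ℕ → ℝ} (hf : ∀ n, 0 ≤ f n)
    (hs : ∀ t ∈ s, (t + l).natAbs ∈ Icc 1 R) :
    ∑ t ∈ s, f (t + l).natAbs ≤ 2 * ∑ n ∈ Icc 1 R, f n := by
  rw [sum_comp f fun t : ℤ => (t + l).natAbs, mul_sum]
  refine le_trans (sum_le_sum fun n _ => ?_) (sum_le_sum_of_subset_of_nonneg
    (image_subset_iff.2 hs) fun n _ _ => mul_nonneg two_pos.le (hf n))
  rw [nsmul_eq_mul]
  refine mul_le_mul_of_nonneg_right ?_ (hf n)
  have h1 : #{t ∈ s | (t + l).natAbs = n} ≤ #({(n : ℤ) - l, -(n : ℤ) - l} : Finset ℤ) :=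
    card_le_card fun t ht => by
      have := (mem_filter.1 ht).2
      simp only [mem_insert, mem_singleton]
      omega
  exact_mod_cast h1.trans (card_le_two)

theorem ker_log {δ : ℝ} {c : ℤ → ℝ} {Y : ℝ → ℝ} (h : IsKer δ c Y) {R : ℕ} (hR : 1 ≤ R)
    (s : Finset ℤ) : ∑ l ∈ s, c l / |(l : ℝ)| ≤ 2 * δ * (1 + log R) + 1 / R := by
  have hδ : 0 ≤ δ := (h.nonneg 0).trans (h.le 0)
  have R0 : (0 : ℝ) < R := by exact_mod_cast hR
  have h2 : ∀ l ∈ s, c l / |(l : ℝ)| ≤
      (if (l + 0).natAbs ∈ Icc 1 R then δ * (((l + 0).natAbs : ℕ) : ℝ)⁻¹ else 0) + c l / R := by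
    intro l _
    have h3 := div_nonneg (h.nonneg l) R0.le
    rw [add_zero, Nat.cast_natAbs, Int.cast_abs]
    split_ifs with h4
    · have := div_le_div_of_nonneg_right (h.le l) (abs_nonneg (l : ℝ))
      rw [div_eq_mul_inv δ] at this
      linarith
    rcases eq_or_ne l 0 with rfl | hl
    · simp [h.zero]
    have h5 : (R : ℤ) ≤ |l| := by
      rw [mem_Icc] at h4
      rw [Int.abs_eq_natAbs]
      omega
    rw [zero_add]
    exact div_le_div_of_nonneg_left (h.nonneg l) R0 (by exact_mod_cast h5)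
  refine (sum_le_sum h2).trans ?_
  rw [sum_add_distrib, ← sum_filter, ← sum_div, ← mul_sum]
  have h3 := sum_natAbs_le (s.filter fun l => (l + 0).natAbs ∈ Icc 1 R) 0 R
    (f := fun n => (n : ℝ)⁻¹) (fun n => by positivity) fun t ht => (mem_filter.1 ht).2
  have h4 : ∑ b ∈ Icc 1 R, (b : ℝ)⁻¹ ≤ 1 + log R := by
    have := harmonic_le_one_add_log R
    rw [harmonic_eq_sum_Icc] at this
    push_cast at this
    exact this
  have h5 := div_le_div_of_nonneg_right (h.sum_le s) R0.le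
  nlinarith

theorem ker_res {δ ρ : ℝ} {c : ℤ → ℝ} {Y : ℝ → ℝ} (h : IsKer δ c Y) (hρ : 0 ≤ ρ) (l : ℤ)
    (s : Finset ℤ) (hs : ∀ t ∈ s, t + l ≠ 0 ∧ |(t : ℝ) + l| ≤ ρ) :
    ∑ t ∈ s, c t ≤ √(2 * ρ * δ) := by
  have hδ : 0 ≤ δ := (h.nonneg 0).trans (h.le 0)
  have h1 := sum_natAbs_le s l ⌊ρ⌋₊ (f := fun _ => δ) (fun _ => hδ) fun t ht => by
    refine mem_Icc.2 ⟨by have := (hs t ht).1; omega, Nat.le_floor ?_⟩
    rw [Nat.cast_natAbs]
    push_cast
    exact (hs t ht).2
  simp only [sum_const, Nat.card_Icc, add_tsub_cancel_right, nsmul_eq_mul] at h1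
  have h2 : ∑ t ∈ s, c t ≤ 2 * ρ * δ := by
    refine (sum_le_card_nsmul s c δ fun t _ => h.le t).trans ?_
    rw [nsmul_eq_mul]
    nlinarith [mul_le_mul_of_nonneg_right (Nat.floor_le hρ) hδ]
  have h3 : 0 ≤ ∑ t ∈ s, c t := sum_nonneg fun t _ => h.nonneg t
  exact le_sqrt_of_sq_le (by nlinarith [h.sum_le s])

theorem cov_near {δ δ' α β η C : ℝ} {c c' : ℤ → ℝ} {Y Y' : ℝ → ℝ} (hY : IsKer δ c Y)
    (hY' : IsKer δ' c' Y') {m n R : ℕ} (hm : 3 ≤ m) (hmn : m < n) (hR : 1 ≤ R) (h0 : 0 < α)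
    (hab : α ≤ β) (hη : η = ((n : ℝ) - m) / n) (hC : C = 2 * (1 + 2 * β * exp β))
    (h2 : 4 * C * η ≤ 1) :
    ∫ x in α..β, Y' (pw m x) * Y (pw n x) ≤
      δ * ((4 + 2 * (β - α)) / (η * α * (m : ℝ) ^ α)) * (2 * δ' * (1 + log R) + 1 / R) +
      (2 * (4 + 2 * (β - α)) / (m : ℝ) ^ α +
        4 * √(C * δ) * (40 * (n : ℝ) ^ (2 * (β - α)) * ((n : ℝ) / 2) ^ (-(α / 2)))) := by
  have hδ : 0 ≤ δ := (hY.nonneg 0).trans (hY.le 0)
  have m3 : (3 : ℝ) ≤ m := by exact_mod_cast hm
  have mn : (m : ℝ) < n := by exact_mod_cast hmn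
  have n0 : (0 : ℝ) < n := by linarith
  have l1 : 1 ≤ log m := by
    rw [le_log_iff_exp_le (by linarith)]; linarith [exp_one_lt_d9]
  have η0 : 0 < η := by rw [hη]; exact div_pos (by linarith) n0
  have b0 : 0 < β := h0.trans_le hab
  have C2 : 2 ≤ C := by
    have : 0 ≤ β * exp β := by positivity
    linarith
  have η1 : η ≤ 1 / 2 := by nlinarith
  have hma : 0 < (m : ℝ) ^ α := by positivity
  set K1 := 4 + 2 * (β - α) with hK1
  have K10 : 0 ≤ K1 := by linarith
  set K2 := 40 * (n : ℝ) ^ (2 * (β - α)) * ((n : ℝ) / 2) ^ (-(α / 2)) with hK2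
  have K20 : 0 ≤ K2 := by positivity
  have h3 : ∀ l : ℤ, l ≠ 0 → ‖∫ x in α..β, e1 (2 * π * l * pw m x) * (Y (pw n x) : ℂ)‖ ≤
      δ * (K1 / (η * α * (m : ℝ) ^ α)) / |(l : ℝ)| +
        (2 * K1 / (m : ℝ) ^ α + 4 * √(C * δ) * K2) := by
    intro l hl
    have l0 : 0 < |(l : ℝ)| := abs_pos.2 (by exact_mod_cast hl)
    simp only [mul_comm (e1 _)]
    refine hY.expand (G := fun x => e1 (2 * π * l * pw m x)) (pw_cont n)
      (continuous_e1.comp (continuous_const.mul (pw_cont m))) fun s => ?_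
    simp only [← e1_add]
    have h4 : ∀ h ∈ s, c h * Ψ (fun x => 2 * π * h * pw n x + 2 * π * l * pw m x) α β ≤
        (if h = -l then δ * (K1 / (η * α * (m : ℝ) ^ α)) / |(l : ℝ)| else 0) +
        (c h * (2 * K1 / (m : ℝ) ^ α) +
          if h + l ≠ 0 ∧ |(h : ℝ) + l| ≤ 4 * C * η * |(l : ℝ)| then
            c h * (√2 / (√|(l : ℝ)| * √η) * K2) else 0) := by
      intro h _
      have c0 := hY.nonneg h
      have g1 : 0 ≤ c h * (2 * K1 / (m : ℝ) ^ α) := by positivity
      by_cases h5 : h = -l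
      · rw [if_pos h5, if_neg fun h6 => h6.1 (by omega)]
        have h6 := osc_one hm hmn h l hab (ν := |(l : ℝ)| * (η * α)) (by positivity) fun x hx => by
          have h7 := (q_bounds hm hmn h0.le hx hη η1).1
          have h8 : 0 ≤ log m * η * α := by positivity
          rw [h5, Int.cast_neg, show l * log m + -l * (log n * exp ((log n - log m) * x)) =
            -(l * (log n * exp ((log n - log m) * x) - log m)) by ring, abs_neg, abs_mul,
            abs_of_nonneg (h8.trans h7), mul_assoc]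
          exact mul_le_mul_of_nonneg_left (by linarith) l0.le
        have h7 := mul_le_mul (hY.le h) h6 (norm_nonneg _) hδ
        have e : δ * (K1 / (η * α * (m : ℝ) ^ α)) / |(l : ℝ)| =
            δ * (K1 / (|(l : ℝ)| * (η * α) * (m : ℝ) ^ α)) := by field_simp
        rw [e]; linarith
      rw [if_neg h5, zero_add]
      have j0 : h + l ≠ 0 := by omega
      have j1 : (1 : ℝ) ≤ |(h : ℝ) + l| := by exact_mod_cast Int.one_le_abs j0
      have hh0 := abs_nonneg (h : ℝ)
      by_cases h6 : 2 * C * η * |(h : ℝ)| ≤ |(h : ℝ) + l|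
      · have h7 := osc_one hm hmn h l hab (ν := 1 / 2) (by norm_num) fun x hx => by
          obtain ⟨h7, h8⟩ := q_bounds hm hmn h0.le hx hη η1
          have h9 : 0 ≤ log m * η * α := by positivity
          rw [← hC] at h8
          have h10 := abs_sub_abs_le_abs_sub ((h + l) * log m)
            (-(h * (log n * exp ((log n - log m) * x) - log m)))
          rw [abs_neg, abs_mul, abs_mul, abs_of_nonneg (h9.trans h7),
            abs_of_nonneg (show 0 ≤ log m by linarith)] at h10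
          have h11 := mul_le_mul_of_nonneg_left h8 hh0
          have h12 := mul_le_mul_of_nonneg_right h6 (show 0 ≤ log m by linarith)
          have h13 := mul_le_mul_of_nonneg_right j1 (show 0 ≤ log m by linarith)
          refine le_trans (by linarith) (h10.trans (le_of_eq ?_))
          congr 1; ring
        have e : K1 / (1 / 2 * (m : ℝ) ^ α) = 2 * K1 / (m : ℝ) ^ α := by field_simp
        have h8 := mul_le_mul_of_nonneg_left (h7.trans_eq e) c0
        refine h8.trans (le_add_of_nonneg_right ?_)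
        split_ifs <;> positivity
      have h7 : |(h : ℝ) + l| < 2 * C * η * |(h : ℝ)| := not_le.1 h6
      have h8 : |(h : ℝ) + l| ≤ |(h : ℝ)| / 2 := by nlinarith
      have h9 : |(h : ℝ)| ≤ 2 * |(l : ℝ)| := by
        have := abs_sub ((h : ℝ) + l) l
        rw [add_sub_cancel_right] at this
        linarith
      have h10 : |(l : ℝ)| / 2 ≤ |(h : ℝ)| := by
        have := abs_sub ((h : ℝ) + l) h
        rw [add_sub_cancel_left] at this
        linarith
      have hh : h ≠ 0 := by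
        rintro rfl
        simp only [Int.cast_zero, abs_zero] at h10
        linarith
      rw [if_pos ⟨j0, by nlinarith [mul_pos (show 0 < C by linarith) η0]⟩]
      refine le_add_of_nonneg_of_le g1 (mul_le_mul_of_nonneg_left
        ((osc_two (by omega) hmn h l hh h0.le hab).trans ?_) c0)
      have e1 : √n * (1 / √(n - m)) = 1 / √η := by
        rw [hη, sqrt_div (by linarith)]
        have := sqrt_pos.2 n0
        field_simp
      have e2 : |(h : ℝ)| ^ (-(1 / 2 : ℝ)) ≤ √2 / √|(l : ℝ)| := by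
        rw [rpow_neg hh0, ← sqrt_eq_rpow, ← inv_div, ← sqrt_div l0.le]
        exact inv_anti₀ (sqrt_pos.2 (by linarith)) (sqrt_le_sqrt h10)
      rw [e1, ← hK2]
      refine (mul_le_mul_of_nonneg_right e2 (by positivity)).trans (le_of_eq (by ring))
    refine (sum_le_sum h4).trans ?_
    rw [sum_add_distrib, sum_add_distrib, ← sum_filter, ← sum_filter, ← sum_mul, ← sum_mul]
    refine add_le_add ?_ (add_le_add (mul_le_of_le_one_left (by positivity) (hY.sum_le s)) ?_)
    · rw [sum_const, nsmul_eq_mul]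
      refine mul_le_of_le_one_left (by positivity) ?_
      exact_mod_cast card_le_one.2 fun a ha b hb => by
        rw [(mem_filter.1 ha).2, (mem_filter.1 hb).2]
    · have h5 := ker_res hY (ρ := 4 * C * η * |(l : ℝ)|) (by positivity) l _
        fun t (ht : t ∈ s.filter fun h : ℤ =>
          h + l ≠ 0 ∧ |(h : ℝ) + l| ≤ 4 * C * η * |(l : ℝ)|) => (mem_filter.1 ht).2
      refine (mul_le_mul_of_nonneg_right h5 (by positivity)).trans (le_of_eq ?_)
      have e : √(2 * (4 * C * η * |(l : ℝ)|) * δ) * √2 = 4 * √(C * δ) * (√|(l : ℝ)| * √η) := by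
        have hc : 0 ≤ C * δ := by positivity
        rw [← sqrt_mul l0.le, ← sqrt_mul (by positivity), mul_assoc 4 (√_), ← sqrt_mul hc,
          show (4 : ℝ) * √(C * δ * (|(l : ℝ)| * η)) = √(4 ^ 2 * (C * δ * (|(l : ℝ)| * η))) by
            rw [sqrt_mul (x := 4 ^ 2) (by norm_num), sqrt_sq (by norm_num)]]
        congr 1; ring
      have := sqrt_pos.2 l0
      have := sqrt_pos.2 η0
      rw [← mul_assoc, ← mul_div_assoc, e]
      field_simp
  have h4 := hY'.expand (G := fun x => (Y (pw n x) : ℂ)) (pw_cont m)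
    (Complex.continuous_ofReal.comp (hY.cont.comp (pw_cont n))) (a := α) (b := β)
    (B := δ * (K1 / (η * α * (m : ℝ) ^ α)) * (2 * δ' * (1 + log R) + 1 / R) +
      (2 * K1 / (m : ℝ) ^ α + 4 * √(C * δ) * K2)) fun s => by
      have h5 : ∀ l ∈ s, c' l * ‖∫ x in α..β, e1 (2 * π * l * pw m x) * (Y (pw n x) : ℂ)‖ ≤
          δ * (K1 / (η * α * (m : ℝ) ^ α)) * (c' l / |(l : ℝ)|) +
            c' l * (2 * K1 / (m : ℝ) ^ α + 4 * √(C * δ) * K2) := fun l _ => by
        rcases eq_or_ne l 0 with rfl | hl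
        · simp [hY'.zero]
        exact (mul_le_mul_of_nonneg_left (h3 l hl) (hY'.nonneg l)).trans (le_of_eq (by ring))
      refine (sum_le_sum h5).trans ?_
      rw [sum_add_distrib, ← mul_sum, ← sum_mul]
      exact add_le_add (mul_le_mul_of_nonneg_left (ker_log hY' hR s) (by positivity))
        (mul_le_of_le_one_left (by positivity) (hY'.sum_le s))
  simp only [← Complex.ofReal_mul] at h4
  rw [intervalIntegral.integral_ofReal, Complex.norm_real] at h4
  exact (le_abs_self _).trans h4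

theorem cov_far {δ δ' α β : ℝ} {c c' : ℤ → ℝ} {Y Y' : ℝ → ℝ} (hY : IsKer δ c Y)
    (hY' : IsKer δ' c' Y') {m n : ℕ} (hm : 1 ≤ m) (hmn : m < n) (h0 : 0 ≤ α) (hab : α ≤ β) :
    ∫ x in α..β, Y' (pw m x) * Y (pw n x) ≤ 5 * √δ *
      (40 * (n : ℝ) ^ (2 * (β - α)) * ((n : ℝ) / 2) ^ (-(α / 2)) * (√n * (1 / √(n - m)))) := by
  rw [sqrt_eq_rpow δ]
  exact pair_cov hY' hY (pw_cont m) (pw_cont n) (by norm_num) le_rfl (by positivity)
    fun l h hh => osc_two hm hmn h l hh h0 hab

end Pool.Agent.P.MP_33ac70_nt.Cr
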