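import Pool.Agent.P.MP_33ac70_nt.CrPair

/-! The variance bound for a separated family of thick targets. -/

namespace Pool.Agent.P.MP_33ac70_nt.Cr

open Real Finset Big MeasureTheory Filter

theorem var_le {ι : Type*} {μ : Measure ℝ} (A : Finset ι) {g : ι → ℝ → ℝ} {d : ι → ℝ}
    {u : ι → ι → ℝ} (hi : ∀ a b, Integrable (fun x => g a x * g b x) μ)
    (hu : ∀ a ∈ A, ∀ b ∈ A, 0 ≤ u a b) (hd : ∀ a ∈ A, ∫ x, g a x * g a x ∂μ ≤ d a)
    (ho : ∀ a ∈ A, ∀ b ∈ A, a ≠ b → ∫ x, g a x * g b x ∂μ ≤ u a b + u b a) :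
    ∫ x, (∑ a ∈ A, g a x) ^ 2 ∂μ ≤ ∑ a ∈ A, d a + 2 * ∑ b ∈ A, ∑ a ∈ A, u a b := by
  classical
  simp only [sq, sum_mul_sum]
  rw [integral_finsetSum _ fun a _ => integrable_finsetSum _ fun b _ => hi a b,
    sum_congr rfl fun a _ => integral_finsetSum _ fun b _ => hi a b]
  have h1 : ∀ a ∈ A, ∀ b ∈ A, ∫ x, g a x * g b x ∂μ ≤
      (if a = b then d a else 0) + u a b + u b a := fun a ha b hb => by
    split_ifs with h
    · subst h
      linarith [hd a ha, hu a ha a ha]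
    · linarith [ho a ha b hb h]
  refine (sum_le_sum fun a ha => sum_le_sum fun b hb => h1 a ha b hb).trans (le_of_eq ?_)
  simp only [sum_add_distrib]
  rw [sum_comm (f := u), sum_congr rfl fun a ha => (sum_ite_eq ..).trans (if_pos ha)]
  ring

theorem sep_sum {x δ : ℕ → ℝ} {y d : ℝ} (hd : 0 < d) (A : Finset ℕ) :
    ∀ z, z ≤ y - d → (∀ m ∈ A, z ≤ x m) → (∀ m ∈ A, 0 ≤ δ m ∧ x m + δ m ≤ y - d) →
      (∀ m ∈ A, ∀ m' ∈ A, m < m' → x m + δ m ≤ x m') →
      ∑ m ∈ A, δ m / (y - x m) ≤ log (y - z) - log d := by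
  induction A using Finset.induction_on_min with
  | empty =>
    intro z hz _ _ _
    simpa using log_le_log hd (by linarith)
  | insert a s ha ih =>
    intro z _ h1 h2 h3
    have hs : a ∉ s := fun h => lt_irrefl _ (ha a h)
    obtain ⟨g1, g2⟩ := h2 a (mem_insert_self ..)
    have g3 := ih (x a + δ a) g2
      (fun m hm => h3 a (mem_insert_self ..) m (mem_insert_of_mem hm) (ha m hm))
      (fun m hm => h2 m (mem_insert_of_mem hm))
      fun m hm m' hm' => h3 m (mem_insert_of_mem hm) m' (mem_insert_of_mem hm')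
    have g4 : 0 < y - x a := by linarith
    have g5 : 0 < y - (x a + δ a) := by linarith
    have g6 := log_le_sub_one_of_pos (div_pos g5 g4)
    rw [log_div g5.ne' g4.ne'] at g6
    have g7 : (y - (x a + δ a)) / (y - x a) - 1 = -(δ a / (y - x a)) := by field_simp; ring
    have g8 := log_le_log g4 (show y - x a ≤ y - z by linarith [h1 a (mem_insert_self ..)])
    rw [sum_insert hs]
    linarith

theorem ev_small (K : ℝ) {κ : ℝ} (hκ : 0 < κ) :
    ∀ᶠ n : ℕ in atTop, K * (log n ^ 2 * (n : ℝ) ^ (-κ)) ≤ 1 := by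
  have h1 := (((isLittleO_log_rpow_rpow_atTop 2 hκ).tendsto_div_nhds_zero.const_mul K).comp
    tendsto_natCast_atTop_atTop).eventually (ge_mem_nhds (show K * 0 < 1 by simp))
  filter_upwards [h1] with n hn
  rwa [Function.comp_apply, rpow_two, div_eq_mul_inv, ← rpow_neg (by positivity)] at hn

theorem gap_le {m n t : ℝ} (hm : 0 ≤ m) (hmn : m ≤ n) (hn : 1 ≤ n) (ht : 0 ≤ t) :
    n ^ t - m ^ t ≤ (t + 1) * ((n - m) / n) * n ^ t := by
  have n0 : 0 < n := by linarith
  have h1 : (n - m) / n ≤ 1 := by rw [div_le_one n0]; linarith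
  have h2 := one_add_mul_self_le_rpow_one_add (s := -((n - m) / n)) (by linarith)
    (p := t + 1) (by linarith)
  have e : 1 + -((n - m) / n) = m / n := by field_simp; ring
  rw [e] at h2
  have h3 : (m / n) ^ (t + 1) ≤ (m / n) ^ t :=
    rpow_le_rpow_of_exponent_ge' (by positivity) ((div_le_one n0).2 hmn) ht (by linarith)
  have h4 : (m / n) ^ t * n ^ t = m ^ t := by
    rw [div_rpow hm n0.le, div_mul_cancel₀ _ (by positivity)]
  have h5 := mul_le_mul_of_nonneg_right (h2.trans h3) (rpow_nonneg n0.le t)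
  linarith

theorem variance {δ : ℕ → ℝ} {c : ℕ → ℤ → ℝ} {Y : ℕ → ℝ → ℝ}
    (hK : ∀ m, IsKer (δ m) (c m) (Y m)) {α β σ t : ℝ} (hab : α ≤ β) (hσ : 0 ≤ σ) (ht : 0 ≤ t)
    (hta : t < α) (hα : 3 * σ + 4 * (β - α) < α) (D : ℝ) :
    ∃ M : ℕ, ∀ A : Finset ℕ, (∀ m ∈ A, M ≤ m ∧ (m : ℝ) ^ (-σ) ≤ δ m) →
      (∀ m ∈ A, ∀ n ∈ A, m < n → (m : ℝ) ^ t + δ m ≤ (n : ℝ) ^ t - δ n) → ∑ m ∈ A, δ m ≤ D →
      ∫ x in Set.Ioc α β, (∑ m ∈ A, Y m (pw m x)) ^ 2 ≤ (2 * (β - α) + 8) * ∑ m ∈ A, δ m := by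
  have h0 : 0 < α := ht.trans_lt hta
  have b0 : 0 < β := h0.trans_le hab
  have hδ : ∀ m, 0 ≤ δ m := fun m => ((hK m).nonneg 0).trans ((hK m).le 0)
  set C : ℝ := 2 * (1 + 2 * β * exp β) with hC
  have C0 : 0 < C := by positivity
  set K1 := 4 + 2 * (β - α) with hK1
  have K10 : 0 ≤ K1 := by linarith
  set S : ℕ := ⌈σ⌉₊ with hS
  obtain ⟨M, hM⟩ := eventually_atTop.1 (((ev_small
    (K1 * (t + 1) * 2 ^ α / α * (3 + 2 * S) * (t + σ)) (sub_pos.2 hta)).and
    (ev_small (2 * (D * (2 * K1 * 2 ^ α))) (show 0 < α - 2 * σ by linarith))).and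
    (ev_small (2 * (D * (400 * √C * 2 ^ (α / 2))))
      (show 0 < α / 2 - 2 * (β - α) - 3 * σ / 2 by linarith)))
  refine ⟨max M 3, fun A hA hsep hD => ?_⟩
  have a3 : ∀ m ∈ A, 3 ≤ m := fun m hm => (le_max_right _ _).trans (hA m hm).1
  have a3' : ∀ m ∈ A, (3 : ℝ) ≤ m := fun m hm => by exact_mod_cast a3 m hm
  have l1 : ∀ m ∈ A, 1 ≤ log m := fun m hm => by
    rw [le_log_iff_exp_le (by linarith [a3' m hm])]; linarith [exp_one_lt_d9, a3' m hm]
  have δ0 : ∀ m ∈ A, 0 < δ m := fun m hm =>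
    (rpow_pos_of_pos (by linarith [a3' m hm]) _).trans_le (hA m hm).2
  have D0 : 0 ≤ D := (sum_nonneg fun m _ => hδ m).trans hD
  have th : ∀ m ∈ A, ∀ n : ℕ, m ≤ n → 1 ≤ δ m * (n : ℝ) ^ σ := fun m hm n hn => by
    have m0 : (0 : ℝ) < m := by linarith [a3' m hm]
    have h1 : (m : ℝ) ^ σ ≤ (n : ℝ) ^ σ := rpow_le_rpow m0.le (by exact_mod_cast hn) hσ
    have h2 := mul_le_mul (hA m hm).2 h1 (by positivity) (hδ m)
    rwa [← rpow_add m0, neg_add_cancel, rpow_zero] at h2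
  set T1 : ℕ → ℝ := fun n => K1 * (t + 1) * 2 ^ α / α * (3 + 2 * S) *
    (log n * (n : ℝ) ^ (-(α - t))) with hT1
  set T2 : ℕ → ℝ := fun n => 2 * K1 * 2 ^ α * (n : ℝ) ^ (σ - α) +
    400 * √C * 2 ^ (α / 2) * (n : ℝ) ^ (σ / 2 + 2 * (β - α) - α / 2) with hT2
  have T10 : ∀ n, 0 ≤ T1 n := fun n => by
    have := log_natCast_nonneg n
    simp only [hT1]; positivity
  have T20 : ∀ n, 0 ≤ T2 n := fun n => by simp only [hT2]; positivity
  have gp : ∀ m ∈ A, ∀ n ∈ A, m < n → 0 < (n : ℝ) ^ t - (m : ℝ) ^ t := fun m hm n hn h => by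
    linarith [hsep m hm n hn h, δ0 m hm, δ0 n hn]
  set u : ℕ → ℕ → ℝ := fun m n => if m < n then
    δ n * (T1 n * (δ m / ((n : ℝ) ^ t - (m : ℝ) ^ t)) + T2 n) else 0 with hu
  have hu0 : ∀ m ∈ A, ∀ n ∈ A, 0 ≤ u m n := fun m hm n hn => by
    simp only [hu]
    split_ifs with h
    · have := gp m hm n hn h
      have := hδ m
      have := hδ n
      have := T10 n
      have := T20 n
      positivity
    · exact le_rfl
  have hpair : ∀ m ∈ A, ∀ n ∈ A, m < n →
      ∫ x in α..β, Y m (pw m x) * Y n (pw n x) ≤ u m n := by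
    intro m hm n hn h
    have mn : (m : ℝ) < n := by exact_mod_cast h
    have m0 : (0 : ℝ) < m := by linarith [a3' m hm]
    have n0 : (0 : ℝ) < n := m0.trans mn
    have g0 := gp m hm n hn h
    have d0 := δ0 n hn
    have d1 := δ0 m hm
    have g1 := T10 n
    set η := ((n : ℝ) - m) / n with hη
    have η0 : 0 < η := div_pos (by linarith) n0
    have s1 : √(δ n) ≤ δ n * (n : ℝ) ^ (σ / 2) := by
      refine sqrt_le_iff.2 ⟨by positivity, ?_⟩
      rw [mul_pow, ← rpow_natCast (_ ^ _), ← rpow_mul n0.le, show σ / 2 * (2 : ℕ) = σ by simp]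
      nlinarith [th n hn n le_rfl]
    have e1 : 40 * (n : ℝ) ^ (2 * (β - α)) * ((n : ℝ) / 2) ^ (-(α / 2)) * (n : ℝ) ^ (σ / 2) =
        40 * 2 ^ (α / 2) * (n : ℝ) ^ (σ / 2 + 2 * (β - α) - α / 2) := by
      rw [div_rpow n0.le two_pos.le, rpow_neg two_pos.le, div_inv_eq_mul, sub_eq_add_neg (_ + _),
        rpow_add n0, rpow_add n0]
      ring
    set K2 := 40 * (n : ℝ) ^ (2 * (β - α)) * ((n : ℝ) / 2) ^ (-(α / 2)) with hK2
    have K20 : 0 ≤ K2 := by positivity
    have s2 : 10 * √C * √(δ n) * K2 ≤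
        δ n * (400 * √C * 2 ^ (α / 2) * (n : ℝ) ^ (σ / 2 + 2 * (β - α) - α / 2)) := by
      calc _ ≤ 10 * √C * (δ n * (n : ℝ) ^ (σ / 2)) * K2 := by gcongr
        _ = δ n * (10 * √C) * (K2 * (n : ℝ) ^ (σ / 2)) := by ring
        _ = _ := by rw [e1]; ring
    simp only [hu, if_pos h, hT2]
    rw [mul_add, mul_add]
    have p1 : 0 ≤ δ n * (T1 n * (δ m / ((n : ℝ) ^ t - (m : ℝ) ^ t))) := by positivity
    have p2 : 0 ≤ δ n * (2 * K1 * 2 ^ α * (n : ℝ) ^ (σ - α)) := by positivity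
    by_cases h2 : 4 * C * η ≤ 1
    · have C2 : 2 ≤ C := by
        have : 0 ≤ β * exp β := by positivity
        linarith
      have h3 : (n : ℝ) / 2 ≤ m := by
        have h4 : η ≤ 1 / 2 := by nlinarith
        rw [hη, div_le_iff₀ n0] at h4
        linarith
      have h4 : ((m : ℝ) ^ α)⁻¹ ≤ 2 ^ α * (n : ℝ) ^ (-α) := by
        refine (inv_anti₀ (by positivity) (rpow_le_rpow (by positivity) h3 h0.le)).trans_eq ?_
        rw [div_rpow n0.le two_pos.le, inv_div, rpow_neg n0.le, div_eq_mul_inv]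
      refine (cov_near (R := n ^ S) (hK n) (hK m) (a3 m hm) h (Nat.one_le_pow _ _ (by omega)) h0
        hab hη hC h2).trans (add_le_add ?_ (add_le_add ?_ (le_trans ?_ s2)))
      · have h5 : 1 / ((n ^ S : ℕ) : ℝ) ≤ δ m := by
          rw [Nat.cast_pow, div_le_iff₀ (by positivity), ← rpow_natCast]
          exact (th m hm n h.le).trans (mul_le_mul_of_nonneg_left (rpow_le_rpow_of_exponent_le
            (by linarith [a3' n hn]) (Nat.le_ceil σ)) d1.le)
        have h6 : 2 * δ m * (1 + log ((n ^ S : ℕ) : ℝ)) + 1 / ((n ^ S : ℕ) : ℝ) ≤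
            δ m * ((3 + 2 * S) * log n) := by
          have := mul_le_mul_of_nonneg_left (l1 n hn) d1.le
          rw [Nat.cast_pow, log_pow] at *
          nlinarith
        have h7 : η⁻¹ ≤ (t + 1) * (n : ℝ) ^ t / ((n : ℝ) ^ t - (m : ℝ) ^ t) := by
          rw [le_div_iff₀ g0, inv_mul_le_iff₀ η0]
          linarith [gap_le m0.le mn.le (by linarith [a3' n hn]) ht]
        have h8 := l1 n hn
        rw [← hK1, mul_assoc (δ n)]
        refine mul_le_mul_of_nonneg_left ?_ d0.le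
        calc _ = K1 / α * η⁻¹ * ((m : ℝ) ^ α)⁻¹ *
              (2 * δ m * (1 + log ((n ^ S : ℕ) : ℝ)) + 1 / ((n ^ S : ℕ) : ℝ)) := by
              congr 1; field_simp
          _ ≤ K1 / α * ((t + 1) * (n : ℝ) ^ t / ((n : ℝ) ^ t - (m : ℝ) ^ t)) *
              (2 ^ α * (n : ℝ) ^ (-α)) * (δ m * ((3 + 2 * S) * log n)) := by
              have := log_natCast_nonneg (n ^ S)
              gcongr
          _ = _ := by
              simp only [hT1]
              rw [neg_sub, sub_eq_add_neg t, rpow_add n0]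
              ring
      · rw [← hK1, sub_eq_add_neg σ, rpow_add n0, div_eq_mul_inv]
        calc _ ≤ 2 * K1 * (2 ^ α * (n : ℝ) ^ (-α)) * 1 := by rw [mul_one]; gcongr
          _ ≤ 2 * K1 * (2 ^ α * (n : ℝ) ^ (-α)) * (δ n * (n : ℝ) ^ σ) :=
              mul_le_mul_of_nonneg_left (th n hn n le_rfl) (by positivity)
          _ = _ := by ring
      · rw [sqrt_mul C0.le, ← hK2]
        have : 0 ≤ √C * √(δ n) * K2 := by positivity
        linarith
    · have h3 := cov_far (hK n) (hK m) (by linarith [a3 m hm]) h h0.le hab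
      have h4 : √n * (1 / √(n - m)) ≤ 2 * √C := by
        have e : √n * (1 / √(n - m)) = √η⁻¹ := by
          rw [hη, inv_div, sqrt_div n0.le]; ring
        rw [e]
        refine sqrt_le_iff.2 ⟨by positivity, ?_⟩
        rw [mul_pow, sq_sqrt C0.le, inv_le_iff_one_le_mul₀ η0]
        linarith [not_le.1 h2]
      have h5 := mul_le_mul_of_nonneg_left (mul_le_mul_of_nonneg_left h4 K20)
        (show 0 ≤ 5 * √(δ n) by positivity)
      rw [← hK2] at h3
      linarith
  have hrow : ∀ n ∈ A, ∑ m ∈ A, u m n ≤ 2 * δ n := by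
    intro n hn
    have n0 : (0 : ℝ) < n := by linarith [a3' n hn]
    have d0 := δ0 n hn
    have h8 := l1 n hn
    obtain ⟨⟨e1, e2⟩, e3⟩ := hM n ((le_max_left _ _).trans (hA n hn).1)
    simp only [hu]
    rw [← sum_filter, ← mul_sum, sum_add_distrib, ← mul_sum, sum_const, nsmul_eq_mul, mul_comm 2]
    refine mul_le_mul_of_nonneg_left ?_ d0.le
    have h1 : ∑ m ∈ A with m < n, δ m / ((n : ℝ) ^ t - (m : ℝ) ^ t) ≤ (t + σ) * log n := by
      rcases (A.filter (· < n)).eq_empty_or_nonempty with h | ⟨m0, h⟩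
      · rw [h, sum_empty]; positivity
      have h2 := sep_sum (x := fun m => (m : ℝ) ^ t) (δ := δ) (y := (n : ℝ) ^ t) d0
        (A.filter (· < n)) 0 (by
          have := hsep m0 (mem_filter.1 h).1 n hn (mem_filter.1 h).2
          have : 0 ≤ (m0 : ℝ) ^ t := by positivity
          linarith [hδ m0]) (fun m _ => by positivity)
        (fun m hm => ⟨hδ m, hsep m (mem_filter.1 hm).1 n hn (mem_filter.1 hm).2⟩)
        fun m hm m' hm' h => by
          linarith [hsep m (mem_filter.1 hm).1 m' (mem_filter.1 hm').1 h, hδ m']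
      have h3 := log_le_log (by positivity) (hA n hn).2
      rw [sub_zero, log_rpow n0] at h2
      rw [log_rpow n0] at h3
      linarith
    have h2 : (#{m ∈ A | m < n} : ℝ) ≤ D * (n : ℝ) ^ σ := by
      rw [card_eq_sum_ones, Nat.cast_sum, Nat.cast_one]
      refine (sum_le_sum fun m hm => th m (mem_filter.1 hm).1 n (mem_filter.1 hm).2.le).trans ?_
      rw [← sum_mul]
      exact mul_le_mul_of_nonneg_right ((sum_le_sum_of_subset_of_nonneg (filter_subset _ _)
        fun m _ _ => hδ m).trans hD) (by positivity)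
    have h3 : T1 n * ((t + σ) * log n) ≤ 1 := by
      refine le_trans (le_of_eq ?_) e1
      simp only [hT1]; ring
    have h4 : 1 ≤ log n ^ 2 := one_le_pow₀ h8
    have h5 : D * (n : ℝ) ^ σ * T2 n = D * (2 * K1 * 2 ^ α) * (n : ℝ) ^ (-(α - 2 * σ)) +
        D * (400 * √C * 2 ^ (α / 2)) * (n : ℝ) ^ (-(α / 2 - 2 * (β - α) - 3 * σ / 2)) := by
      simp only [hT2]
      rw [show -(α - 2 * σ) = σ + (σ - α) by ring, show -(α / 2 - 2 * (β - α) - 3 * σ / 2) =
        σ + (σ / 2 + 2 * (β - α) - α / 2) by ring, rpow_add n0 σ, rpow_add n0 σ]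
      ring
    have h6 := mul_le_mul_of_nonneg_left h4
      (show 0 ≤ D * (2 * K1 * 2 ^ α) * (n : ℝ) ^ (-(α - 2 * σ)) by positivity)
    have h7 := mul_le_mul_of_nonneg_left h4 (show 0 ≤ D * (400 * √C * 2 ^ (α / 2)) *
      (n : ℝ) ^ (-(α / 2 - 2 * (β - α) - 3 * σ / 2)) by positivity)
    have h9 := mul_le_mul_of_nonneg_left h1 (T10 n)
    have h10 := mul_le_mul_of_nonneg_right h2 (T20 n)
    linarith
  have hc : ∀ m, Continuous fun x => Y m (pw m x) := fun m => (hK m).cont.comp (pw_cont m)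
  refine (var_le A (g := fun m x => Y m (pw m x)) (d := fun m => (2 * (β - α) + 4) * δ m) (u := u)
    (fun a b => ((hc a).mul (hc b)).integrableOn_Ioc) hu0 (fun n hn => ?_)
    fun m hm n hn hne => ?_).trans ?_
  · have h1 := diag_cov (k := 1) (hK n) (a := fun _ => n) (fun _ => by linarith [a3 n hn])
      (j0 := 0) (by linarith [a3 n hn]) hab
    have h2 : (n : ℝ) ^ (-α) ≤ δ n := (rpow_le_rpow_of_exponent_le (by linarith [a3' n hn])
      (by linarith)).trans (hA n hn).2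
    rw [← intervalIntegral.integral_of_le hab]
    refine h1.trans (by linarith)
  · rw [← intervalIntegral.integral_of_le hab]
    rcases lt_or_gt_of_ne hne with h | h
    · linarith [hpair m hm n hn h, hu0 n hn m hm]
    · have := hpair n hn m hm h
      simp only [mul_comm (Y n _)] at this
      linarith [hu0 m hm n hn]
  · have h1 := sum_le_sum hrow
    rw [← mul_sum] at h1 ⊢
    linarith

end Pool.Agent.P.MP_33ac70_nt.Cr
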