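import Pool.Agent.P.MP_33ac70_nt.Osc

/-! The centered tent function and its Fourier series. -/

namespace Pool.Agent.P.MP_33ac70_nt.Big

open Real Finset

theorem hs_congr {f g : ℤ → ℂ} {a b : ℂ} (h : HasSum f a) (h1 : ∀ i, g i = f i) (h2 : b = a) :
    HasSum g b := by
  rw [funext h1, h2]; exact h

theorem hB {t : ℝ} (n : ℤ) (ht : t ∈ Set.Icc (0 : ℝ) 1) :
    HasSum (fun h : ℤ => ((1 / (h : ℝ) ^ 2 : ℝ) : ℂ) * e1 (2 * π * h * (t + n)))
      ((2 * π ^ 2 * (t ^ 2 - t + 6⁻¹) : ℝ) : ℂ) := by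
  have h := hasSum_one_div_pow_mul_fourier_mul_bernoulliFun (k := 2) le_rfl ht
  rw [bernoulliFun_two] at h
  refine hs_congr h (fun h => ?_) ?_
  · rw [fourier_coe_apply, mul_add, e1_add]
    have h1 : e1 (2 * π * h * n) = 1 := by
      rw [e1, Complex.exp_eq_one_iff]
      exact ⟨h * n, by push_cast; ring⟩
    rw [h1, mul_one, e1]
    push_cast
    ring_nf
  · push_cast
    rw [mul_pow, Complex.I_sq]
    rw [show ((Nat.factorial 2 : ℕ) : ℂ) = 2 by simp]
    ring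

theorem hB' {y : ℝ} (n : ℤ) (h0 : -1 ≤ y) (h1 : y ≤ 2) :
    HasSum (fun h : ℤ => ((1 / (h : ℝ) ^ 2 : ℝ) : ℂ) * e1 (2 * π * h * (y + n)))
      ((2 * π ^ 2 * (y ^ 2 - y + 6⁻¹ - 2 * max (y - 1) 0 - 2 * max (-y) 0) : ℝ) : ℂ) := by
  rcases le_total y 0 with h2 | h2
  · have h := hB (t := y + 1) (n - 1) ⟨by linarith, by linarith⟩
    rw [max_eq_right (by linarith), max_eq_left (by linarith)]
    refine hs_congr h (fun h => ?_) ?_
    · push_cast; ring_nf
    · congr 1; ring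
  rcases le_total y 1 with h3 | h3
  · have h := hB (t := y) n ⟨h2, h3⟩
    rw [max_eq_right (by linarith), max_eq_right (by linarith)]
    refine hs_congr h (fun h => rfl) ?_
    congr 1; ring
  · have h := hB (t := y - 1) (n + 1) ⟨by linarith, by linarith⟩
    rw [max_eq_left (by linarith), max_eq_right (by linarith)]
    refine hs_congr h (fun h => ?_) ?_
    · push_cast; ring_nf
    · congr 1; ring

/-- `Y` is a centered periodic bump of width `δ` with Fourier coefficients `c` -/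
structure IsKer (δ : ℝ) (c : ℤ → ℝ) (Y : ℝ → ℝ) : Prop where
  nonneg : ∀ h, 0 ≤ c h
  le : ∀ h, c h ≤ δ
  zero : c 0 = 0
  summable : Summable c
  sum_le : ∀ s : Finset ℤ, ∑ h ∈ s, c h ≤ 1
  hasSum : ∀ x, HasSum (fun h : ℤ => (c h : ℂ) * e1 (2 * π * h * x)) (Y x)
  sq_le : ∀ x, Y x ^ 2 ≤ Y x + 2 * δ
  off : ∀ x : ℝ, (∀ b : ℤ, δ < |x - b|) → Y x = -δ

theorem IsKer.cont {δ : ℝ} {c : ℤ → ℝ} {Y : ℝ → ℝ} (h : IsKer δ c Y) : Continuous Y := by
  have h1 : Continuous fun x => ∑' l : ℤ, (c l : ℂ) * e1 (2 * π * l * x) :=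
    continuous_tsum (fun l => continuous_const.mul (continuous_e1.comp (by fun_prop))) h.summable
      fun l x => by
        rw [norm_mul, norm_e1, mul_one, Complex.norm_real, norm_of_nonneg (h.nonneg l)]
  have h2 : Y = fun x => (∑' l : ℤ, (c l : ℂ) * e1 (2 * π * l * x)).re := by
    ext x; rw [(h.hasSum x).tsum_eq, Complex.ofReal_re]
  rw [h2]
  exact Complex.continuous_re.comp h1

theorem exists_ker {δ : ℝ} (h0 : 0 ≤ δ) (h1 : δ ≤ 1 / 2) : ∃ c Y, IsKer δ c Y := by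
  rcases h0.eq_or_lt with rfl | h0
  · exact ⟨0, 0, fun _ => le_rfl, fun _ => le_rfl, rfl, summable_zero, fun s => by simp,
      fun x => by simp, fun x => by simp, fun x _ => by simp⟩
  set c : ℤ → ℝ := fun h => (1 - cos (2 * π * h * δ)) / (2 * π ^ 2 * (h : ℝ) ^ 2 * δ) with hc
  set Y : ℝ → ℝ := fun x =>
    (max (δ - Int.fract x) 0 + max (Int.fract x + δ - 1) 0) / δ - δ with hY
  have hn : ∀ h, 0 ≤ c h := fun h =>
    div_nonneg (sub_nonneg.2 (cos_le_one _)) (by positivity)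
  have hs : ∀ x, HasSum (fun h : ℤ => (c h : ℂ) * e1 (2 * π * h * x)) (Y x) := by
    intro x
    have f0 := Int.fract_nonneg x
    have f1 := Int.fract_lt_one x
    have a0 := hB' (y := Int.fract x) ⌊x⌋ (by linarith) (by linarith)
    have a1 := hB' (y := Int.fract x + δ) ⌊x⌋ (by linarith) (by linarith)
    have a2 := hB' (y := Int.fract x - δ) ⌊x⌋ (by linarith) (by linarith)
    have a3 := (a0.sub ((a1.add a2).mul_left (1 / 2))).mul_left (((1 / (2 * π ^ 2 * δ) : ℝ) : ℂ))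
    refine hs_congr a3 (fun h => ?_) ?_
    · have e0 : Int.fract x + ⌊x⌋ = x := Int.fract_add_floor x
      have e2 : 2 * π * h * (Int.fract x + δ + ⌊x⌋) = 2 * π * h * x + 2 * π * h * δ := by
        rw [← mul_add]; congr 1; linarith
      have e3 : 2 * π * h * (Int.fract x - δ + ⌊x⌋) = 2 * π * h * x + -(2 * π * h * δ) := by
        rw [← mul_neg, ← mul_add]; congr 1; linarith
      have e4 : e1 (2 * π * h * δ) + e1 (-(2 * π * h * δ)) =
          2 * ((cos (2 * π * h * δ) : ℝ) : ℂ) := by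
        rw [e1, e1, Complex.ofReal_cos, Complex.two_cos]
        push_cast
        ring_nf
      rw [e0, e2, e3, e1_add, e1_add, ← mul_add, ← mul_add, e4, hc]
      have e5 : (1 - cos (2 * π * h * δ)) / (2 * π ^ 2 * (h : ℝ) ^ 2 * δ) =
          1 / (2 * π ^ 2 * δ) * (1 / (h : ℝ) ^ 2) * (1 - cos (2 * π * h * δ)) := by ring
      simp only [e5]
      push_cast
      ring
    · rw [max_eq_right (show Int.fract x - 1 ≤ 0 by linarith),
        max_eq_right (show -Int.fract x ≤ 0 by linarith),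
        max_eq_right (show -(Int.fract x + δ) ≤ 0 by linarith),
        max_eq_right (show Int.fract x - δ - 1 ≤ 0 by linarith), neg_sub]
      simp only [hY]
      generalize max (δ - Int.fract x) 0 = u
      generalize max (Int.fract x + δ - 1) 0 = v
      generalize Int.fract x = y
      have hp : (π : ℂ) ≠ 0 := by exact_mod_cast pi_ne_zero
      have hd : (δ : ℂ) ≠ 0 := by exact_mod_cast h0.ne'
      push_cast
      field_simp
      ring
  have hs0 : HasSum c (Y 0) := by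
    have := hs 0
    simp only [mul_zero, e1, Complex.ofReal_zero, Complex.exp_zero, mul_one] at this
    exact Complex.hasSum_ofReal.1 this
  refine ⟨c, Y, hn, fun h => ?_, by simp [hc], hs0.summable, fun s => ?_, hs, fun x => ?_,
    fun x hx => ?_⟩
  · rcases eq_or_ne h 0 with rfl | hh
    · simp [hc, h0.le]
    have hh' : (h : ℝ) ≠ 0 := by exact_mod_cast hh
    have h2 := one_sub_sq_div_two_le_cos (x := 2 * π * h * δ)
    rw [hc, div_le_iff₀ (by positivity)]
    nlinarith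
  · refine (sum_le_hasSum s (fun i _ => hn i) hs0).trans ?_
    simp only [hY, Int.fract_zero, sub_zero, zero_add]
    rw [max_eq_left h0.le, max_eq_right (by linarith), add_zero, div_self h0.ne']
    linarith
  · have f0 := Int.fract_nonneg x
    have f1 := Int.fract_lt_one x
    set F := (max (δ - Int.fract x) 0 + max (Int.fract x + δ - 1) 0) / δ with hF
    have F0 : 0 ≤ F := by positivity
    have F1 : F ≤ 1 := by
      rw [hF, div_le_one h0]
      rcases le_total (δ - Int.fract x) 0 with h2 | h2 <;>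
        rcases le_total (Int.fract x + δ - 1) 0 with h3 | h3 <;>
        simp only [max_eq_left, max_eq_right, h2, h3] <;> linarith
    have : Y x = F - δ := rfl
    rw [this]
    nlinarith
  · have f0 := Int.fract_nonneg x
    have f1 := Int.fract_lt_one x
    have e0 : Int.fract x + ⌊x⌋ = x := Int.fract_add_floor x
    have h2 := hx ⌊x⌋
    have h3 := hx (⌊x⌋ + 1)
    rw [abs_of_nonneg (by linarith)] at h2
    push_cast at h3
    rw [abs_of_nonpos (by linarith)] at h3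
    simp only [hY]
    rw [max_eq_right (by linarith), max_eq_right (by linarith)]
    simp

theorem IsKer.expand {δ : ℝ} {c : ℤ → ℝ} {Y : ℝ → ℝ} (h : IsKer δ c Y) {f : ℝ → ℝ} {G : ℝ → ℂ}
    (hf : Continuous f) (hG : Continuous G) {a b B : ℝ}
    (hB : ∀ s : Finset ℤ, ∑ l ∈ s, c l * ‖∫ x in a..b, e1 (2 * π * l * f x) * G x‖ ≤ B) :
    ‖∫ x in a..b, (Y (f x) : ℂ) * G x‖ ≤ B := by
  have h1 : HasSum (fun l : ℤ => ∫ x in a..b, (c l : ℂ) * e1 (2 * π * l * f x) * G x)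
      (∫ x in a..b, (Y (f x) : ℂ) * G x) := by
    refine intervalIntegral.hasSum_integral_of_dominated_convergence (fun l x => c l * ‖G x‖)
      (fun l => ((continuous_const.mul (continuous_e1.comp (by fun_prop))).mul
        hG).aestronglyMeasurable) (fun l => .of_forall fun x _ => ?_)
      (.of_forall fun x _ => h.summable.mul_right _) ?_
      (.of_forall fun x _ => (h.hasSum (f x)).mul_right _)
    · rw [norm_mul, norm_mul, norm_e1, mul_one, Complex.norm_real, norm_of_nonneg (h.nonneg l)]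
    · simp only [tsum_mul_right]
      exact (continuous_const.mul hG.norm).intervalIntegrable a b
  refine le_of_tendsto' h1.norm fun s => (norm_sum_le _ _).trans (le_trans (le_of_eq ?_) (hB s))
  refine sum_congr rfl fun l _ => ?_
  simp only [mul_assoc (c l : ℂ)]
  rw [intervalIntegral.integral_const_mul, norm_mul, Complex.norm_real,
    norm_of_nonneg (h.nonneg l)]

theorem sum_inv_sqrt (N : ℕ) : ∑ l ∈ Icc 1 N, 1 / √(l : ℝ) ≤ 2 * √(N : ℝ) := by
  induction N with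
  | zero => simp
  | succ n ih =>
    rw [sum_Icc_succ_top (by omega)]
    have h1 : 0 < √((n + 1 : ℕ) : ℝ) := by positivity
    have h2 : √((n + 1 : ℕ) : ℝ) ^ 2 = n + 1 := by rw [sq_sqrt (by positivity)]; push_cast; ring
    have h3 : √(n : ℝ) ^ 2 = n := sq_sqrt (by positivity)
    have h4 : 1 / √((n + 1 : ℕ) : ℝ) ≤ 2 * √((n + 1 : ℕ) : ℝ) - 2 * √(n : ℝ) := by
      rw [div_le_iff₀ h1]
      nlinarith [sq_nonneg (√((n + 1 : ℕ) : ℝ) - √(n : ℝ))]
    linarith

theorem sum_inv_sqrt_int (s : Finset ℤ) {R : ℝ} (hR : 0 ≤ R) (hs : ∀ t ∈ s, |(t : ℝ)| ≤ R) :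
    ∑ t ∈ s, 1 / √|(t : ℝ)| ≤ 4 * √R := by
  have h1 : ∑ t ∈ s, 1 / √|(t : ℝ)| = ∑ t ∈ s.erase 0, 1 / √|(t : ℝ)| :=
    (sum_erase s (by simp)).symm
  have h2 : s.erase 0 ⊆ (Icc 1 ⌊R⌋₊).image (fun n : ℕ => (n : ℤ)) ∪
      (Icc 1 ⌊R⌋₊).image (fun n : ℕ => -(n : ℤ)) := by
    intro t ht
    obtain ⟨h3, h4⟩ := mem_erase.1 ht
    have h5 : t.natAbs ∈ Icc 1 ⌊R⌋₊ := by
      refine mem_Icc.2 ⟨by omega, Nat.le_floor ?_⟩
      have := hs t h4
      rwa [Nat.cast_natAbs, Int.cast_abs]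
    rcases Int.natAbs_eq t with h6 | h6
    · exact mem_union_left _ (mem_image.2 ⟨_, h5, h6.symm⟩)
    · exact mem_union_right _ (mem_image.2 ⟨_, h5, h6.symm⟩)
  have h3 := sum_inv_sqrt ⌊R⌋₊
  have h4 : √(⌊R⌋₊ : ℝ) ≤ √R := sqrt_le_sqrt (Nat.floor_le hR)
  rw [h1]
  refine (sum_le_sum_of_subset_of_nonneg h2 fun _ _ _ => by positivity).trans ?_
  have h5 := sum_union_inter (s₁ := (Icc 1 ⌊R⌋₊).image (fun n : ℕ => (n : ℤ)))
    (s₂ := (Icc 1 ⌊R⌋₊).image (fun n : ℕ => -(n : ℤ))) (f := fun t : ℤ => 1 / √|(t : ℝ)|)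
  rw [sum_image (fun x _ y _ h => by exact_mod_cast h),
    sum_image (fun x _ y _ h => by simpa using h)] at h5
  simp only [Int.cast_neg, Int.cast_natCast, abs_neg, Nat.abs_cast] at h5
  have h6 : 0 ≤ ∑ t ∈ (Icc 1 ⌊R⌋₊).image (fun n : ℕ => (n : ℤ)) ∩
      (Icc 1 ⌊R⌋₊).image (fun n : ℕ => -(n : ℤ)), 1 / √|(t : ℝ)| :=
    sum_nonneg fun _ _ => by positivity
  linarith

theorem IsKer.wsum {δ : ℝ} {c : ℤ → ℝ} {Y : ℝ → ℝ} (h : IsKer δ c Y) {σ : ℝ} (h0 : 0 ≤ σ)
    (h1 : σ ≤ 1 / 2) (s : Finset ℤ) : ∑ l ∈ s, c l * |(l : ℝ)| ^ (-σ) ≤ 5 * δ ^ σ := by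
  have hδ : 0 ≤ δ := (h.nonneg 0).trans (h.le 0)
  rcases hδ.eq_or_lt with rfl | hδ
  · rw [sum_eq_zero fun l _ => by rw [le_antisymm (h.le l) (h.nonneg l), zero_mul]]
    positivity
  have h2 : ∀ l ∈ s, c l * |(l : ℝ)| ^ (-σ) ≤
      δ ^ σ * (c l + if |(l : ℝ)| ≤ 1 / δ then √δ * (1 / √|(l : ℝ)|) else 0) := by
    intro l _
    rcases eq_or_ne l 0 with rfl | hl
    · simp [h.zero]
    have hl' : 0 < |(l : ℝ)| := abs_pos.2 (by exact_mod_cast hl)
    have e : |(l : ℝ)| ^ (-σ) = δ ^ σ * (δ * |(l : ℝ)|) ^ (-σ) := by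
      rw [mul_rpow hδ.le hl'.le, ← mul_assoc, ← rpow_add hδ]; simp
    rw [e, mul_left_comm]
    refine mul_le_mul_of_nonneg_left ?_ (by positivity)
    split_ifs with h3
    · have h4 : δ * |(l : ℝ)| ≤ 1 := by rwa [le_div_iff₀' hδ] at h3
      have h5 : (δ * |(l : ℝ)|) ^ (-σ) ≤ (δ * |(l : ℝ)|) ^ (-(1 / 2 : ℝ)) :=
        rpow_le_rpow_of_exponent_ge (by positivity) h4 (by linarith)
      have h6 : δ * (δ * |(l : ℝ)|) ^ (-(1 / 2 : ℝ)) = √δ * (1 / √|(l : ℝ)|) := by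
        rw [rpow_neg (by positivity), ← sqrt_eq_rpow, sqrt_mul hδ.le]
        have := sqrt_pos.2 hδ
        have := sqrt_pos.2 hl'
        field_simp
        exact (sq_sqrt hδ.le).symm
      have h7 := mul_le_mul (h.le l) h5 (by positivity) hδ.le
      linarith [h.nonneg l]
    · have h4 : 1 ≤ δ * |(l : ℝ)| := by
        rw [not_le, div_lt_iff₀' hδ] at h3; exact h3.le
      have h5 : (δ * |(l : ℝ)|) ^ (-σ) ≤ 1 := rpow_le_one_of_one_le_of_nonpos h4 (by linarith)
      have := mul_le_mul_of_nonneg_left h5 (h.nonneg l)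
      linarith
  refine (sum_le_sum h2).trans ?_
  rw [← mul_sum, sum_add_distrib, ← sum_filter, ← mul_sum, mul_comm 5]
  refine mul_le_mul_of_nonneg_left ?_ (by positivity)
  have h3 := sum_inv_sqrt_int (s.filter fun l : ℤ => |(l : ℝ)| ≤ 1 / δ) (R := 1 / δ)
    (by positivity) fun t ht => (mem_filter.1 ht).2
  have h4 : √δ * (4 * √(1 / δ)) = 4 := by
    rw [mul_left_comm, ← sqrt_mul hδ.le, mul_one_div_cancel hδ.ne', sqrt_one, mul_one]
  have h5 := mul_le_mul_of_nonneg_left h3 (sqrt_nonneg δ)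
  linarith [h.sum_le s]

end Pool.Agent.P.MP_33ac70_nt.Big
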