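import Pool.Agent.P.MP_33ac70_nt.Var

/-! Second moment argument: almost every large exponent has infinitely many solutions. -/

namespace Pool.Agent.P.MP_33ac70_nt.Big

open Real Finset MeasureTheory Filter

variable {k : ℕ}

theorem null_of_variance {μ : Measure ℝ} [IsFiniteMeasure μ] {S : Set ℝ} {C : ℝ}
    (h : ∀ B : ℝ, ∃ (D : ℝ) (f : ℝ → ℝ), B ≤ D ∧ Integrable (fun x => f x ^ 2) μ ∧
      ∫ x, f x ^ 2 ∂μ ≤ C * (D + 1) ∧ ∀ x ∈ S, f x = -D) : μ S = 0 := by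
  rw [← measureReal_eq_zero_iff]
  by_contra h0
  have h1 : 0 < μ.real S := lt_of_le_of_ne measureReal_nonneg (Ne.symm h0)
  obtain ⟨D, f, h2, h3, h4, h5⟩ := h (2 * |C| / μ.real S + 1)
  have h6 := mul_meas_ge_le_integral_of_nonneg (μ := μ) (f := fun x => f x ^ 2)
    (.of_forall fun x => sq_nonneg _) h3 (D ^ 2)
  have h7 : μ.real S ≤ μ.real {x | D ^ 2 ≤ f x ^ 2} :=
    measureReal_mono fun x hx => by simp [h5 x hx]
  have h8 : 0 ≤ 2 * |C| / μ.real S := by positivity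
  have h9 : 2 * |C| < D * μ.real S := by
    rw [← div_lt_iff₀ h1]; linarith
  have h10 := mul_le_mul_of_nonneg_left h7 (sq_nonneg D)
  have h11 : C * (D + 1) ≤ |C| * (2 * D) :=
    mul_le_mul (le_abs_self C) (by linarith) (by linarith) (abs_nonneg C)
  nlinarith

theorem not_summable_min {t : ℕ → ℝ} (h : ¬ Summable t) :
    ¬ Summable fun m => min (t m) (1 / 2) := by
  intro h1
  refine h (h1.congr_atTop ?_)
  filter_upwards [h1.tendsto_atTop_zero.eventually (gt_mem_nhds (show (0 : ℝ) < 1 / 2 by norm_num))]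
    with m hm
  exact min_eq_left (min_lt_iff.1 hm |>.resolve_right (lt_irrefl _)).le

theorem big_family {ρ : ℕ → ℝ} (h0 : ∀ m, 0 ≤ ρ m) (h : ¬ Summable fun m => ρ m / m) (M : ℕ)
    (B : ℝ) : ∃ A : Finset (Fin (k + 1) → ℕ),
      (∀ a ∈ A, (a ∈ Fm k (a 0) ∧ 8 * (k + 1) ≤ a 0) ∧ M ≤ a 0) ∧
      B ≤ ∑ a ∈ A, min (ρ (a 0) / (a 0 : ℝ) ^ (k + 1)) (1 / 2) := by
  set L := M + 8 * (k + 1) with hL
  have h1 : ¬ Summable fun m => min (ρ (m + L) / (m + L : ℕ)) (1 / 2) := fun h2 =>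
    not_summable_min h ((summable_nat_add_iff L).1 h2)
  have h2 := (not_summable_iff_tendsto_nat_atTop_of_nonneg fun m =>
    le_min (div_nonneg (h0 _) (by positivity)) (by norm_num)).1 h1
  obtain ⟨N, hN⟩ := (h2.eventually_ge_atTop ((8 * (k + 1)) ^ k * B)).exists
  refine ⟨(range N).biUnion fun i => Fm k (i + L), fun a ha => ?_, ?_⟩
  · obtain ⟨i, _, hi⟩ := mem_biUnion.1 ha
    rw [Fm_zero hi]
    exact ⟨⟨hi, by omega⟩, by omega⟩
  rw [sum_biUnion fun i _ j _ hij => disjoint_left.2 fun a h3 h4 => hij (by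
    have := (Fm_zero h3).symm.trans (Fm_zero h4)
    omega)]
  have hp : (0 : ℝ) < (8 * (k + 1)) ^ k := by positivity
  refine le_of_mul_le_mul_left (hN.trans ?_) hp
  rw [mul_sum]
  refine sum_le_sum fun i _ => ?_
  rw [sum_congr rfl fun a ha => by rw [Fm_zero ha], sum_const, card_Fm, nsmul_eq_mul, ← mul_assoc]
  set m := i + L
  have h3 : (m : ℝ) ≤ 8 * (k + 1) * wd k m := by exact_mod_cast wd_ge (by omega : 8 * (k + 1) ≤ m)
  have h4 : (1 : ℝ) ≤ m := by exact_mod_cast (by omega : 1 ≤ m)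
  have h5 : (m : ℝ) ^ k ≤ (8 * (k + 1)) ^ k * ((wd k m ^ k : ℕ) : ℝ) := by
    rw [Nat.cast_pow, ← mul_pow]; exact pow_le_pow_left₀ (by positivity) h3 k
  refine le_trans ?_ (mul_le_mul_of_nonneg_right h5
    (le_min (div_nonneg (h0 _) (by positivity)) (by norm_num)))
  rw [mul_min_of_nonneg _ _ (by positivity)]
  refine min_le_min (le_of_eq (by field_simp; ring)) ?_
  have := one_le_pow₀ (n := k) h4
  linarith

theorem ae_interval {ρ : ℕ → ℝ} (h0 : ∀ m, 0 ≤ ρ m) (h : ¬ Summable fun m => ρ m / m) {α β : ℝ}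
    (hab : α ≤ β) (hα : 4 * ((k : ℝ) + 1) ^ 2 - (k + 1) + 4 * (k + 1) * (β - α) < α) (M : ℕ) :
    ∀ᵐ θ : ℝ, θ ∈ Set.Ioc α β → ∃ a : Fin (k + 1) → ℕ, (a ∈ Fm k (a 0) ∧ 8 * (k + 1) ≤ a 0) ∧
      M ≤ a 0 ∧ ∃ b : ℤ, |fa a θ - b| ≤ min (ρ (a 0) / (a 0 : ℝ) ^ (k + 1)) (1 / 2) := by
  set δ : ℕ → ℝ := fun m => min (ρ m / (m : ℝ) ^ (k + 1)) (1 / 2) with hδ
  choose c Y hK using fun m => exists_ker (δ := δ m)
    (le_min (div_nonneg (h0 _) (by positivity)) (by norm_num)) (min_le_right _ _)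
  obtain ⟨C, hC⟩ := variance (k := k) hK hab hα
  rw [← ae_restrict_iff' measurableSet_Ioc, ae_iff]
  refine null_of_variance (C := C) fun B => ?_
  obtain ⟨A, hA, hB⟩ := big_family (k := k) h0 h M B
  have hc : Continuous fun x => (∑ a ∈ A, Y (a 0) (fa a x)) ^ 2 :=
    (continuous_finsetSum _ fun a _ => (hK _).cont.comp (fa_cont a)).pow 2
  refine ⟨_, fun x => ∑ a ∈ A, Y (a 0) (fa a x), hB, hc.integrableOn_Ioc, ?_, fun x hx => ?_⟩
  · rw [← intervalIntegral.integral_of_le hab]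
    exact hC A fun a ha => (hA a ha).1
  · rw [← sum_neg_distrib]
    refine sum_congr rfl fun a ha => (hK _).off _ fun b => ?_
    by_contra h1
    exact hx ⟨a, (hA a ha).1, (hA a ha).2, b, not_lt.1 h1⟩

theorem ae_large {ρ : ℕ → ℝ} (h0 : ∀ m, 0 ≤ ρ m) (h : ¬ Summable fun m => ρ m / m) :
    ∀ᵐ θ : ℝ, 4 * ((k : ℝ) + 1) ^ 2 - (k + 1) < θ → ∀ M : ℕ, ∃ (a : Fin (k + 1) → ℕ) (b : ℕ),
      (∀ j, 1 ≤ a j) ∧ 1 ≤ b ∧ M ≤ a 0 ∧ univ.sup a = a 0 ∧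
      |∑ j, (a j : ℝ) ^ θ - b| ≤ ρ (a 0) / (a 0 : ℝ) ^ (k + 1) := by
  have h1 : ∀ᵐ θ : ℝ, ∀ (p : ℚ × ℚ) (M : ℕ), ((p.1 : ℝ) ≤ p.2 ∧
      4 * ((k : ℝ) + 1) ^ 2 - (k + 1) + 4 * (k + 1) * (p.2 - p.1) < p.1) →
      θ ∈ Set.Ioc (p.1 : ℝ) p.2 → ∃ a : Fin (k + 1) → ℕ, (a ∈ Fm k (a 0) ∧ 8 * (k + 1) ≤ a 0) ∧
      M ≤ a 0 ∧ ∃ b : ℤ, |fa a θ - b| ≤ min (ρ (a 0) / (a 0 : ℝ) ^ (k + 1)) (1 / 2) := by
    refine ae_all_iff.2 fun p => ae_all_iff.2 fun M => ?_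
    by_cases hp : (p.1 : ℝ) ≤ p.2 ∧
      4 * ((k : ℝ) + 1) ^ 2 - (k + 1) + 4 * (k + 1) * (p.2 - p.1) < p.1
    · filter_upwards [ae_interval h0 h hp.1 hp.2 M] with θ hθ _ using hθ
    · exact .of_forall fun θ h2 => absurd h2 hp
  filter_upwards [h1] with θ hθ ht M
  have hk0 : (0 : ℝ) ≤ k := Nat.cast_nonneg k
  set ε := (θ - (4 * ((k : ℝ) + 1) ^ 2 - (k + 1))) / (8 * (k + 1) + 1) with hε
  have hε0 : 0 < ε := div_pos (by linarith) (by positivity)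
  have hε1 : ε * (8 * (k + 1) + 1) = θ - (4 * ((k : ℝ) + 1) ^ 2 - (k + 1)) :=
    div_mul_cancel₀ _ (by positivity)
  obtain ⟨p, hp1, hp2⟩ := exists_rat_btwn (show θ - ε < θ by linarith)
  obtain ⟨q, hq1, hq2⟩ := exists_rat_btwn (show θ < θ + ε by linarith)
  obtain ⟨a, ⟨ha, ha8⟩, hM, b, hb⟩ := hθ (p, q) M ⟨by simp only; linarith, by
    simp only
    nlinarith⟩ ⟨hp2, hq1.le⟩
  have h2 : ∀ j, 1 ≤ a j := fun j => by
    have := (Fm_le ha j).2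
    omega
  have h3 : ∀ j, (1 : ℝ) ≤ a j := fun j => by exact_mod_cast h2 j
  have e : fa a θ = ∑ j, (a j : ℝ) ^ θ :=
    sum_congr rfl fun j _ => (rpow_def_of_pos (by linarith [h3 j]) θ).symm
  have h4 : 1 ≤ fa a θ := by
    rw [e]
    refine le_trans (one_le_rpow (z := θ) (h3 0) (by nlinarith)) ?_
    exact single_le_sum (f := fun j => (a j : ℝ) ^ θ) (fun _ _ => by positivity) (mem_univ 0)
  have h5 : (0 : ℝ) < b := by
    have := (abs_le.1 (hb.trans (min_le_right _ _))).2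
    linarith
  have h6 : 0 < b := by exact_mod_cast h5
  obtain ⟨b, rfl⟩ := Int.eq_ofNat_of_zero_le h6.le
  refine ⟨a, b, h2, by omega, hM,
    le_antisymm (Finset.sup_le fun j _ => (Fm_le ha j).1) (le_sup (mem_univ 0)), ?_⟩
  rw [← e]
  simpa using hb.trans (min_le_left _ _)

end Pool.Agent.P.MP_33ac70_nt.Big
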