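import Mathlib

/-! Oscillatory integrals whose phase derivative is an exponential polynomial. -/

namespace Pool.Agent.P.MP_33ac70_nt.Big

open intervalIntegral Complex

section
open Set

/-- `e1 y = exp (i y)` -/
noncomputable def e1 (y : ℝ) : ℂ := Complex.exp (I * y)

theorem norm_e1 (y : ℝ) : ‖e1 y‖ = 1 := by
  rw [e1, mul_comm, Complex.norm_exp_ofReal_mul_I]

theorem e1_add (x y : ℝ) : e1 (x + y) = e1 x * e1 y := by
  rw [e1, e1, e1, ← Complex.exp_add]; push_cast; ring_nf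

theorem continuous_e1 : Continuous e1 := by
  unfold e1; fun_prop

theorem hasDerivAt_e1 {φ : ℝ → ℝ} {p x : ℝ} (h : HasDerivAt φ p x) :
    HasDerivAt (fun y => e1 (φ y)) (e1 (φ x) * (I * p)) x := by
  have h1 : HasDerivAt (fun y => I * ((φ y : ℝ) : ℂ)) (I * p) x := h.ofReal_comp.const_mul I
  exact h1.cexp

/-- the oscillatory integral -/
noncomputable def Ψ (φ : ℝ → ℝ) (a b : ℝ) : ℝ := ‖∫ x in a..b, e1 (φ x)‖

theorem Ψ_self (φ : ℝ → ℝ) (a : ℝ) : Ψ φ a a = 0 := by simp [Ψ]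

theorem Ψ_le (φ : ℝ → ℝ) {a b : ℝ} (h : a ≤ b) : Ψ φ a b ≤ b - a := by
  have := norm_integral_le_of_norm_le_const (a := a) (b := b) (C := 1)
    (f := fun x => e1 (φ x)) (fun x _ => (norm_e1 _).le)
  rwa [one_mul, abs_of_nonneg (sub_nonneg.2 h)] at this

theorem Ψ_add {φ : ℝ → ℝ} (hφ : Continuous φ) (a b c : ℝ) : Ψ φ a c ≤ Ψ φ a b + Ψ φ b c := by
  have hc : Continuous fun x => e1 (φ x) := continuous_e1.comp hφ
  unfold Ψ
  rw [← integral_add_adjacent_intervals (hc.intervalIntegrable a b) (hc.intervalIntegrable b c)]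
  exact norm_add_le _ _

/-- first derivative test, with twisted monotonicity -/
theorem ibp {φ p p' : ℝ → ℝ} (hφ : ∀ x, HasDerivAt φ (p x) x) (hp : ∀ x, HasDerivAt p (p' x) x)
    (hp' : Continuous p') {a b μ lam s : ℝ} (hab : a ≤ b) (hμ : 0 < μ) (hl : 0 ≤ lam)
    (hs : s = 1 ∨ s = -1) (h1 : ∀ x ∈ Icc a b, μ ≤ |p x|)
    (h2 : ∀ x ∈ Icc a b, 0 ≤ s * (p' x - lam * p x)) :
    Ψ φ a b ≤ (4 + 2 * lam * (b - a)) / μ := by
  have hφc : Continuous φ := continuous_iff_continuousAt.2 fun x => (hφ x).continuousAt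
  have hpc : Continuous p := continuous_iff_continuousAt.2 fun x => (hp x).continuousAt
  have hne : ∀ x ∈ Icc a b, p x ≠ 0 := fun x hx h0 => by
    have := h1 x hx; rw [h0, abs_zero] at this; linarith
  have hu : uIcc a b = Icc a b := uIcc_of_le hab
  have hec : Continuous fun x => e1 (φ x) := continuous_e1.comp hφc
  have hqc : ContinuousOn (fun x => p' x / p x ^ 2) (Icc a b) :=
    hp'.continuousOn.div (hpc.pow 2).continuousOn fun x hx => pow_ne_zero 2 (hne x hx)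
  have hG : ∀ x ∈ uIcc a b, HasDerivAt (fun y => e1 (φ y) * (-I * (((p y)⁻¹ : ℝ) : ℂ)))
      (e1 (φ x) + e1 (φ x) * (I * ((p' x / p x ^ 2 : ℝ) : ℂ))) x := by
    intro x hx
    rw [hu] at hx
    have h3 := ((hp x).inv (hne x hx)).ofReal_comp.const_mul (-I)
    have h4 := (hasDerivAt_e1 (hφ x)).mul h3
    refine h4.congr_deriv ?_
    have h5 : ((p x : ℝ) : ℂ) ≠ 0 := by exact_mod_cast hne x hx
    simp only [Pi.inv_apply]
    push_cast
    field_simp
    ring_nf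
    rw [I_sq]; ring
  have hc2 : ContinuousOn (fun x => e1 (φ x) * (I * ((p' x / p x ^ 2 : ℝ) : ℂ))) (uIcc a b) := by
    rw [hu]
    exact hec.continuousOn.mul (continuousOn_const.mul (continuous_ofReal.comp_continuousOn hqc))
  have hI := integral_eq_sub_of_hasDerivAt hG
    ((hec.intervalIntegrable a b).add hc2.intervalIntegrable)
  rw [integral_add (hec.intervalIntegrable a b) hc2.intervalIntegrable] at hI
  have hb : ∀ x ∈ Icc a b, ‖e1 (φ x) * (-I * (((p x)⁻¹ : ℝ) : ℂ))‖ ≤ μ⁻¹ := by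
    intro x hx
    rw [norm_mul, norm_e1, norm_mul, norm_neg, norm_I, one_mul, one_mul, Complex.norm_real,
      Real.norm_eq_abs, abs_inv]
    exact inv_anti₀ hμ (h1 x hx)
  have hinv : ∀ x ∈ Icc a b, |(p x)⁻¹| ≤ μ⁻¹ := fun x hx => by
    rw [abs_inv]; exact inv_anti₀ hμ (h1 x hx)
  have hs1 : |s| = 1 := by rcases hs with rfl | rfl <;> simp
  have hF : ∀ x ∈ uIcc a b, HasDerivAt (fun y => s * (-(p y)⁻¹) + 2 * lam * μ⁻¹ * y)
      (s * (p' x / p x ^ 2) + 2 * lam * μ⁻¹) x := by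
    intro x hx
    rw [hu] at hx
    have h3 := (((hp x).inv (hne x hx)).neg.const_mul s).add
      ((hasDerivAt_id x).const_mul (2 * lam * μ⁻¹))
    refine h3.congr_deriv ?_
    ring
  have hc3 : ContinuousOn (fun x => s * (p' x / p x ^ 2) + 2 * lam * μ⁻¹) (uIcc a b) := by
    rw [hu]; exact (continuousOn_const.mul hqc).add continuousOn_const
  have hJ := integral_eq_sub_of_hasDerivAt hF hc3.intervalIntegrable
  have hK : ‖∫ x in a..b, e1 (φ x) * (I * ((p' x / p x ^ 2 : ℝ) : ℂ))‖ ≤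
      ∫ x in a..b, (s * (p' x / p x ^ 2) + 2 * lam * μ⁻¹) := by
    refine norm_integral_le_of_norm_le hab (Filter.Eventually.of_forall fun x hx => ?_)
      hc3.intervalIntegrable
    have hx' : x ∈ Icc a b := Ioc_subset_Icc_self hx
    rw [norm_mul, norm_e1, norm_mul, norm_I, one_mul, one_mul, Complex.norm_real, Real.norm_eq_abs]
    have e : p' x / p x ^ 2 = (p' x - lam * p x) / p x ^ 2 + lam * (p x)⁻¹ := by
      have := hne x hx'
      field_simp
      ring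
    have h3 : |(p' x - lam * p x) / p x ^ 2| = s * ((p' x - lam * p x) / p x ^ 2) := by
      rw [← mul_div_assoc, ← abs_of_nonneg (div_nonneg (h2 x hx') (sq_nonneg (p x))), abs_div,
        abs_div, abs_mul, hs1, one_mul]
    have h4 : |lam * (p x)⁻¹| ≤ lam * μ⁻¹ := by
      rw [abs_mul, abs_of_nonneg hl]; exact mul_le_mul_of_nonneg_left (hinv x hx') hl
    have h5 : |s * (lam * (p x)⁻¹)| ≤ lam * μ⁻¹ := by rw [abs_mul, hs1, one_mul]; exact h4
    rw [e, mul_add]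
    have h6 := abs_add_le ((p' x - lam * p x) / p x ^ 2) (lam * (p x)⁻¹)
    have h7 := neg_abs_le (s * (lam * (p x)⁻¹))
    linarith
  rw [hJ] at hK
  have ha : a ∈ Icc a b := left_mem_Icc.2 hab
  have hb' : b ∈ Icc a b := right_mem_Icc.2 hab
  have h8 : |s * (p a)⁻¹| ≤ μ⁻¹ := by rw [abs_mul, hs1, one_mul]; exact hinv a ha
  have h9 : |s * (p b)⁻¹| ≤ μ⁻¹ := by rw [abs_mul, hs1, one_mul]; exact hinv b hb'
  have h10 := eq_sub_of_add_eq hI
  unfold Ψ
  rw [h10]
  refine (norm_sub_le _ _).trans ?_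
  have h11 := norm_sub_le (e1 (φ b) * (-I * (((p b)⁻¹ : ℝ) : ℂ)))
    (e1 (φ a) * (-I * (((p a)⁻¹ : ℝ) : ℂ)))
  have h12 := hb a ha
  have h13 := hb b hb'
  have h14 := le_abs_self (s * (p a)⁻¹)
  have h15 := neg_abs_le (s * (p b)⁻¹)
  rw [div_eq_mul_inv]
  nlinarith

/-- one step of the van der Corput induction -/
theorem step {φ q q' : ℝ → ℝ} (hφ : Continuous φ) (hq : ∀ x, HasDerivAt q (q' x) x)
    {a b ε ε' η lam s B E : ℝ} (hab : a ≤ b) (hε : 0 < ε) (hη : 0 < η) (hl : 0 ≤ lam) (hB : 0 ≤ B)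
    (hs : s = 1 ∨ s = -1) (hE : Real.exp (lam * (b - a)) ≤ E) (hε' : ε * (2 * E / η) ≤ ε')
    (H : ∀ s' : ℝ, s' = 1 ∨ s' = -1 → ∀ a' b', a ≤ a' → a' ≤ b' → b' ≤ b →
      (∀ x ∈ Icc a' b', ε ≤ s' * q x) → Ψ φ a' b' ≤ B)
    (h2 : ∀ x ∈ Icc a b, ε' ≤ s * (q' x - lam * q x)) : Ψ φ a b ≤ 2 * B + η := by
  set g : ℝ → ℝ := fun x => Real.exp (-(lam * (x - a))) * (s * q x) with hg
  have hgd : ∀ x, HasDerivAt g (Real.exp (-(lam * (x - a))) * (s * (q' x - lam * q x))) x := by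
    intro x
    have h3 := ((((hasDerivAt_id x).sub_const a).const_mul lam).neg.exp).mul ((hq x).const_mul s)
    refine h3.congr_deriv ?_
    simp only [id, Pi.neg_apply]
    ring
  have hgc : Continuous g := continuous_iff_continuousAt.2 fun x => (hgd x).continuousAt
  have hEp : 0 < E := (Real.exp_pos _).trans_le hE
  have hmono : ∀ x ∈ Icc a b, ∀ y ∈ Icc a b, x ≤ y → 2 * ε / η * (y - x) ≤ g y - g x := by
    refine (convex_Icc a b).mul_sub_le_image_sub_of_le_deriv hgc.continuousOn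
      (fun x _ => (hgd x).differentiableAt.differentiableWithinAt) fun x hx => ?_
    have hx' : x ∈ Icc a b := interior_subset hx
    rw [(hgd x).deriv]
    have h3 : E⁻¹ ≤ Real.exp (-(lam * (x - a))) := by
      rw [Real.exp_neg]
      refine inv_anti₀ (Real.exp_pos _) (le_trans (Real.exp_le_exp.2 ?_) hE)
      exact mul_le_mul_of_nonneg_left (by linarith [hx'.2]) hl
    calc 2 * ε / η = E⁻¹ * (ε * (2 * E / η)) := by field_simp
      _ ≤ _ := mul_le_mul h3 (hε'.trans (h2 x hx')) (by positivity) (Real.exp_pos _).le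
  have hm0 : ∀ x ∈ Icc a b, ∀ y ∈ Icc a b, x ≤ y → g x ≤ g y := fun x hx y hy hxy => by
    have h3 := hmono x hx y hy hxy
    have h4 : 0 ≤ 2 * ε / η * (y - x) := mul_nonneg (by positivity) (sub_nonneg.2 hxy)
    linarith
  have hq1 : ∀ x, a ≤ x → ∀ y, ε ≤ Real.exp (-(lam * (x - a))) * y → ε ≤ y := by
    intro x hx y hy
    have h3 : Real.exp (-(lam * (x - a))) ≤ 1 :=
      Real.exp_le_one_iff.2 (neg_nonpos.2 (mul_nonneg hl (sub_nonneg.2 hx)))
    have h4 := Real.exp_pos (-(lam * (x - a)))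
    have h5 : 0 < y := by
      by_contra h6
      have := mul_nonpos_of_nonneg_of_nonpos h4.le (not_lt.1 h6)
      linarith
    nlinarith
  have hneg : ∀ c ∈ Icc a b, g c ≤ -ε → Ψ φ a c ≤ B := by
    intro c hc hgc'
    refine H (-s) (by rcases hs with rfl | rfl <;> simp) a c le_rfl hc.1 hc.2 fun x hx => ?_
    refine hq1 x hx.1 _ ?_
    have h3 := hm0 x ⟨hx.1, hx.2.trans hc.2⟩ c hc hx.2
    have h4 : g x = Real.exp (-(lam * (x - a))) * (s * q x) := rfl
    rw [neg_mul, mul_neg, ← h4]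
    linarith
  obtain ⟨c, hc, hc1, hc2⟩ : ∃ c ∈ Icc a b, Ψ φ a c ≤ B ∧ (c = b ∨ -ε ≤ g c) := by
    by_cases h3 : -ε ≤ g a
    · exact ⟨a, left_mem_Icc.2 hab, by rw [Ψ_self]; exact hB, Or.inr h3⟩
    by_cases h4 : g b ≤ -ε
    · exact ⟨b, right_mem_Icc.2 hab, hneg b (right_mem_Icc.2 hab) h4, Or.inl rfl⟩
    obtain ⟨c, hc, hc'⟩ := intermediate_value_Icc hab hgc.continuousOn
      (⟨(not_le.1 h3).le, (not_le.1 h4).le⟩ : -ε ∈ Icc (g a) (g b))
    exact ⟨c, hc, hneg c hc hc'.le, Or.inr hc'.ge⟩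
  by_cases h3 : b ≤ c + η
  · have h4 := Ψ_add hφ a c b
    have h5 := Ψ_le φ hc.2
    linarith
  have h3' : c + η < b := not_le.1 h3
  have h4 : -ε ≤ g c := hc2.resolve_left fun h => by rw [h] at h3'; linarith
  have hc3 : c + η ∈ Icc a b := ⟨by linarith [hc.1], h3'.le⟩
  have h5 := hmono c hc (c + η) hc3 (by linarith)
  have h6 : 2 * ε / η * (c + η - c) = 2 * ε := by field_simp; ring
  have h7 : Ψ φ (c + η) b ≤ B := by
    refine H s hs (c + η) b hc3.1 h3'.le le_rfl fun x hx => ?_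
    refine hq1 x (hc3.1.trans hx.1) _ ?_
    have h8 := hm0 (c + η) hc3 x ⟨hc3.1.trans hx.1, hx.2⟩ hx.1
    have h9 : g x = Real.exp (-(lam * (x - a))) * (s * q x) := rfl
    rw [← h9]
    linarith
  have h8 := Ψ_add hφ a c b
  have h9 := Ψ_add hφ c (c + η) b
  have h10 := Ψ_le φ (show c ≤ c + η by linarith)
  linarith

end

section
open Finset
variable {ι : Type*} [Fintype ι]

/-- the exponential polynomial after applying the operators `D - lam t`, `t ∈ T` -/
noncomputable def PT (c lam : ι → ℝ) (T : Finset ι) (x : ℝ) : ℝ :=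
  ∑ u, c u * (∏ t ∈ T, (lam u - lam t)) * Real.exp (lam u * x)

/-- its derivative -/
noncomputable def PT' (c lam : ι → ℝ) (T : Finset ι) (x : ℝ) : ℝ :=
  ∑ u, c u * (∏ t ∈ T, (lam u - lam t)) * (Real.exp (lam u * x) * lam u)

theorem PT_deriv (c lam : ι → ℝ) (T : Finset ι) (x : ℝ) :
    HasDerivAt (PT c lam T) (PT' c lam T x) x := by
  unfold PT PT'
  refine HasDerivAt.fun_sum fun u _ => ?_
  have h := (((hasDerivAt_id x).const_mul (lam u)).exp).const_mul
    (c u * ∏ t ∈ T, (lam u - lam t))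
  simpa using h

theorem PT'_cont (c lam : ι → ℝ) (T : Finset ι) : Continuous (PT' c lam T) := by
  unfold PT'; fun_prop

theorem PT_cons (c lam : ι → ℝ) (T : Finset ι) (t : ι) (ht : t ∉ T) (x : ℝ) :
    PT c lam (T.cons t ht) x = PT' c lam T x - lam t * PT c lam T x := by
  unfold PT PT'
  rw [mul_sum, ← sum_sub_distrib]
  refine sum_congr rfl fun u _ => ?_
  rw [prod_cons]; ring

theorem osc_aux {c lam : ι → ℝ} {φ : ℝ → ℝ} (hφ : ∀ x, HasDerivAt φ (PT c lam ∅ x) x)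
    {α β Λ η μ : ℝ} (hl : ∀ u, 0 ≤ lam u) (hΛ : ∀ u, lam u ≤ Λ) (hη : 0 < η) (hμ : 0 < μ)
    (T : Finset ι) (hT : T.Nonempty) : ∀ s : ℝ, s = 1 ∨ s = -1 → ∀ a b, α ≤ a → a ≤ b → b ≤ β →
      (∀ x ∈ Set.Icc a b, μ * (2 * Real.exp (Λ * (β - α)) / η) ^ T.card ≤ s * PT c lam T x) →
      Ψ φ a b ≤ 2 ^ T.card * ((4 + 2 * Λ * (β - α)) / μ + η) - η := by
  have hφc : Continuous φ := continuous_iff_continuousAt.2 fun x => (hφ x).continuousAt
  have hE : ∀ t a b, α ≤ a → a ≤ b → b ≤ β → lam t * (b - a) ≤ Λ * (β - α) :=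
    fun t a b h1 h2 h3 => mul_le_mul (hΛ t) (by linarith) (by linarith) ((hl t).trans (hΛ t))
  induction hT using Finset.Nonempty.cons_induction with
  | singleton t =>
    intro s hs a b h1 h2 h3 h4
    have h0 : 0 ≤ Λ * (β - α) := (mul_nonneg (hl t) (sub_nonneg.2 h2)).trans (hE t a b h1 h2 h3)
    have h5 : ∀ x ∈ Set.Icc a b, μ * (2 * Real.exp (Λ * (β - α)) / η) ≤
        s * (PT' c lam ∅ x - lam t * PT c lam ∅ x) := fun x hx => by
      have := h4 x hx
      rwa [card_singleton, pow_one, ← cons_empty t, PT_cons] at this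
    have h6 := step (B := (4 + 2 * Λ * (β - α)) / μ) hφc (PT_deriv c lam ∅) h2 hμ hη (hl t)
      (by positivity [show 0 ≤ 4 + 2 * Λ * (β - α) by linarith]) hs
      (Real.exp_le_exp.2 (hE t a b h1 h2 h3)) le_rfl ?_ h5
    · rw [card_singleton, pow_one]; linarith
    intro s' hs' a' b' g1 g2 g3 g4
    refine (ibp hφ (PT_deriv c lam ∅) (PT'_cont c lam ∅) g2 hμ (hl t) hs (fun x hx => ?_)
      (fun x hx => ?_)).trans ?_
    · refine (g4 x hx).trans ((le_abs_self _).trans (le_of_eq ?_))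
      rcases hs' with rfl | rfl <;> simp
    · exact le_trans (by positivity) (h5 x ⟨g1.trans hx.1, hx.2.trans g3⟩)
    · have := hE t a' b' (h1.trans g1) g2 (g3.trans h3)
      exact div_le_div_of_nonneg_right (by linarith) hμ.le
  | cons t T ht hT ih =>
    intro s hs a b h1 h2 h3 h4
    have h0 : 0 ≤ Λ * (β - α) := (mul_nonneg (hl t) (sub_nonneg.2 h2)).trans (hE t a b h1 h2 h3)
    have h7 : 0 ≤ (4 + 2 * Λ * (β - α)) / μ := div_nonneg (by linarith) hμ.le
    have h8 : (1 : ℝ) ≤ 2 ^ T.card := one_le_pow₀ one_le_two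
    have h6 := step (B := 2 ^ T.card * ((4 + 2 * Λ * (β - α)) / μ + η) - η)
      (ε := μ * (2 * Real.exp (Λ * (β - α)) / η) ^ T.card) hφc (PT_deriv c lam T) h2
      (by positivity) hη (hl t) (by nlinarith) hs
      (Real.exp_le_exp.2 (hE t a b h1 h2 h3)) le_rfl
      (fun s' hs' a' b' g1 g2 g3 g4 => ih s' hs' a' b' (h1.trans g1) g2 (g3.trans h3) g4)
      (fun x hx => by
        have := h4 x hx
        rwa [card_cons, pow_succ, ← mul_assoc, PT_cons] at this)
    rw [card_cons, pow_succ]; linarith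

/-- van der Corput estimate for exponential polynomial phases -/
theorem osc [DecidableEq ι] {c lam : ι → ℝ} {φ : ℝ → ℝ}
    (hφ : ∀ x, HasDerivAt φ (∑ u, c u * Real.exp (lam u * x)) x)
    {α β Λ η μ : ℝ} (hab : α ≤ β) (hl : ∀ u, 0 ≤ lam u) (hΛ : ∀ u, lam u ≤ Λ) (hη : 0 < η)
    (hμ : 0 < μ) (v : ι) (hv : (univ.erase v).Nonempty)
    (h : μ * (2 * Real.exp (Λ * (β - α)) / η) ^ (univ.erase v).card ≤
      |c v| * (∏ t ∈ univ.erase v, |lam v - lam t|) * Real.exp (lam v * α)) :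
    Ψ φ α β ≤ 2 ^ (univ.erase v).card * ((4 + 2 * Λ * (β - α)) / μ + η) := by
  have hP : ∀ x, PT c lam (univ.erase v) x =
      c v * (∏ t ∈ univ.erase v, (lam v - lam t)) * Real.exp (lam v * x) := by
    intro x
    unfold PT
    refine sum_eq_single v (fun u _ hu => ?_) (fun h => absurd (mem_univ v) h)
    rw [prod_eq_zero (i := u) (mem_erase.2 ⟨hu, mem_univ u⟩) (sub_self _)]; simp
  obtain ⟨s, hs, hs'⟩ : ∃ s : ℝ, (s = 1 ∨ s = -1) ∧
      s * (c v * ∏ t ∈ univ.erase v, (lam v - lam t)) =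
        |c v * ∏ t ∈ univ.erase v, (lam v - lam t)| := by
    rcases le_total 0 (c v * ∏ t ∈ univ.erase v, (lam v - lam t)) with h0 | h0
    · exact ⟨1, Or.inl rfl, by rw [abs_of_nonneg h0, one_mul]⟩
    · exact ⟨-1, Or.inr rfl, by rw [abs_of_nonpos h0, neg_one_mul]⟩
  have h1 := osc_aux (c := c) (lam := lam) (φ := φ) (α := α) (β := β)
    (fun x => by simpa [PT] using hφ x) hl hΛ hη hμ _ hv s hs α β le_rfl hab le_rfl fun x hx => by
      rw [hP, ← mul_assoc, hs', abs_mul, abs_prod]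
      refine h.trans (mul_le_mul_of_nonneg_left (Real.exp_le_exp.2 ?_) (by positivity))
      exact mul_le_mul_of_nonneg_left hx.1 (hl v)
  linarith

end

end Pool.Agent.P.MP_33ac70_nt.Big
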