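import Pool.Agent.P.MP_33ac70_nt.Cov

/-! The family of well separated tuples and the variance bound. -/

namespace Pool.Agent.P.MP_33ac70_nt.Big

open Real Finset

/-- window width -/
def wd (k m : ℕ) : ℕ := m / (4 * (k + 1))

/-- the window of the coordinate `j` -/
def Win (k m : ℕ) (j : Fin (k + 1)) : Finset ℕ :=
  if j = 0 then {m} else Ico (m - (2 * j + 1) * wd k m) (m - (2 * j + 1) * wd k m + wd k m)

/-- the tuples with first and largest coordinate `m` -/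
def Fm (k m : ℕ) : Finset (Fin (k + 1) → ℕ) := Fintype.piFinset (Win k m)

variable {k : ℕ}

theorem wd_le (m : ℕ) (j : Fin (k + 1)) : 2 * ((2 * j + 1) * wd k m) ≤ m := by
  have h1 : 4 * (k + 1) * wd k m ≤ m := Nat.mul_div_le _ _
  have h2 := j.2
  calc 2 * ((2 * j + 1) * wd k m) = (4 * j + 2) * wd k m := by ring
    _ ≤ 4 * (k + 1) * wd k m := Nat.mul_le_mul_right _ (by omega)
    _ ≤ m := h1

theorem win_mem {m x : ℕ} {j : Fin (k + 1)} (h : x ∈ Win k m j) :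
    x + 2 * (j * wd k m) ≤ m ∧ m ≤ x + 2 * (j * wd k m) + wd k m := by
  have h1 := wd_le m j
  have e : (2 * j + 1) * wd k m = 2 * (j * wd k m) + wd k m := by ring
  unfold Win at h
  split_ifs at h with h0
  · subst h0
    simp only [mem_singleton] at h
    simp [h]
  · rw [mem_Ico, e] at h
    omega

theorem card_Fm (m : ℕ) : (Fm k m).card = wd k m ^ k := by
  rw [Fm, Fintype.card_piFinset, Fin.prod_univ_succ]
  simp [Win]

theorem Fm_zero {m : ℕ} {a : Fin (k + 1) → ℕ} (h : a ∈ Fm k m) : a 0 = m := by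
  simpa [Win] using Fintype.mem_piFinset.1 h 0

theorem Fm_le {m : ℕ} {a : Fin (k + 1) → ℕ} (h : a ∈ Fm k m) (j : Fin (k + 1)) :
    a j ≤ m ∧ m ≤ 2 * a j := by
  have h1 := win_mem (Fintype.mem_piFinset.1 h j)
  have h2 := wd_le m j
  have e : (2 * j + 1) * wd k m = 2 * (j * wd k m) + wd k m := by ring
  omega

theorem Fm_sep {m : ℕ} {a a' : Fin (k + 1) → ℕ} (h : a ∈ Fm k m) (h' : a' ∈ Fm k m)
    {i j : Fin (k + 1)} (hij : i ≠ j) : (wd k m : ℝ) ≤ |(a i : ℝ) - a' j| := by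
  have key : ∀ {a a' : Fin (k + 1) → ℕ}, a ∈ Fm k m → a' ∈ Fm k m → ∀ {i j : Fin (k + 1)},
      i < j → (wd k m : ℝ) ≤ (a i : ℝ) - a' j := by
    intro a a' h h' i j hij
    have h1 := (win_mem (Fintype.mem_piFinset.1 h i)).2
    have h2 := (win_mem (Fintype.mem_piFinset.1 h' j)).1
    have h3 : (i + 1) * wd k m ≤ j * wd k m := Nat.mul_le_mul_right _ hij
    rw [add_mul, one_mul] at h3
    have h4 : a' j + wd k m ≤ a i := by omega
    have h5 : (a' j : ℝ) + wd k m ≤ a i := by exact_mod_cast h4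
    linarith
  rcases lt_or_gt_of_ne hij with h1 | h1
  · exact (key h h' h1).trans (le_abs_self _)
  · rw [abs_sub_comm]; exact (key h' h h1).trans (le_abs_self _)

theorem wd_ge {m : ℕ} (h : 8 * (k + 1) ≤ m) : m ≤ 8 * (k + 1) * wd k m := by
  have h1 : m < 4 * (k + 1) * (wd k m + 1) := Nat.lt_mul_div_succ m (by omega)
  have h2 : 1 ≤ wd k m := (Nat.le_div_iff_mul_le (by omega)).2 (by omega)
  nlinarith

theorem young {σ δ X : ℝ} (h0 : 0 < σ) (h1 : σ < 1) (hδ : 0 ≤ δ) (hX : 0 ≤ X) :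
    δ ^ σ * X ≤ δ + X ^ (1 / (1 - σ)) := by
  have h := geom_mean_le_arith_mean2_weighted h0.le (sub_nonneg.2 h1.le) hδ
    (rpow_nonneg hX (1 / (1 - σ))) (by ring)
  rw [← rpow_mul hX, one_div_mul_cancel (by linarith), rpow_one] at h
  have h2 := rpow_nonneg hX (1 / (1 - σ))
  nlinarith

theorem fam_sum {κ : ℝ} (hκ : k + 1 < κ) : ∃ C : ℝ, 0 ≤ C ∧ ∀ A : Finset (Fin (k + 1) → ℕ),
    (∀ a ∈ A, a ∈ Fm k (a 0) ∧ 8 * (k + 1) ≤ a 0) → ∑ a ∈ A, (a 0 : ℝ) ^ (-κ) ≤ C := by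
  have hs : Summable fun n : ℕ => (n : ℝ) ^ (k - κ) := summable_nat_rpow.2 (by linarith)
  refine ⟨∑' n : ℕ, (n : ℝ) ^ (k - κ), tsum_nonneg fun _ => by positivity, fun A hA => ?_⟩
  rw [sum_comp (fun n : ℕ => (n : ℝ) ^ (-κ)) (fun a : Fin (k + 1) → ℕ => a 0)]
  refine le_trans (sum_le_sum fun n hn => ?_) (hs.sum_le_tsum _ fun _ _ => by positivity)
  obtain ⟨a, ha, rfl⟩ := mem_image.1 hn
  have h0 : (0 : ℝ) < a 0 := by have := (hA a ha).2; exact_mod_cast (by omega : 0 < a 0)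
  have h1 : #{b ∈ A | b 0 = a 0} ≤ a 0 ^ k := by
    refine le_trans (card_le_card (t := Fm k (a 0)) fun b hb => ?_) ?_
    · obtain ⟨h2, h3⟩ := mem_filter.1 hb
      rw [← h3]; exact (hA b h2).1
    · rw [card_Fm]; exact Nat.pow_le_pow_left (Nat.div_le_self _ _) k
  rw [nsmul_eq_mul, sub_eq_add_neg, rpow_add h0, rpow_natCast]
  exact mul_le_mul_of_nonneg_right (by exact_mod_cast h1) (by positivity)

theorem gap_sum {n v : ℕ} (hv : v ≤ n) (A : Finset (Fin (k + 1) → ℕ))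
    (hA : ∀ a ∈ A, ∀ j, 1 ≤ a j ∧ a j ≤ n) :
    ∑ a ∈ A, ∑ j, √n * (1 / √|(a j : ℝ) - v|) ≤ 4 * (k + 1) * (n : ℝ) ^ (k + 1) := by
  have h1 : ∑ t ∈ Icc 1 n, 1 / √|(t : ℝ) - v| ≤ 4 * √n := by
    have h2 := sum_inv_sqrt_int ((Icc 1 n).image fun t : ℕ => (t : ℤ) - v) (R := n)
      (by positivity) fun t ht => by
        obtain ⟨s, hs, rfl⟩ := mem_image.1 ht
        have h3 : (s : ℝ) ≤ n := by exact_mod_cast (mem_Icc.1 hs).2
        have h4 : (v : ℝ) ≤ n := by exact_mod_cast hv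
        push_cast
        rw [abs_le]
        constructor <;> linarith [Nat.cast_nonneg (α := ℝ) s, Nat.cast_nonneg (α := ℝ) v]
    rw [sum_image fun x _ y _ h => by simpa using h] at h2
    simpa using h2
  refine (sum_le_sum_of_subset_of_nonneg
    (t := Fintype.piFinset fun _ : Fin (k + 1) => Icc 1 n)
    (fun a ha => Fintype.mem_piFinset.2 fun j => mem_Icc.2 (hA a ha j))
    fun _ _ _ => by positivity).trans ?_
  rw [sum_comm]
  have h2 : ∀ j : Fin (k + 1), ∑ a ∈ Fintype.piFinset fun _ : Fin (k + 1) => Icc 1 n,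
      √n * (1 / √|(a j : ℝ) - v|) ≤ 4 * (n : ℝ) ^ (k + 1) := by
    intro j
    rw [Fintype.sum_piFinset_apply (fun t : ℕ => √n * (1 / √|(t : ℝ) - v|)), ← mul_sum]
    simp only [Nat.card_Icc, add_tsub_cancel_right, Fintype.card_fin, nsmul_eq_mul, Nat.cast_pow]
    have h3 := mul_le_mul_of_nonneg_left h1 (sqrt_nonneg n)
    have h4 : √(n : ℝ) * (4 * √n) = 4 * n := by
      rw [mul_left_comm, mul_self_sqrt (by positivity)]
    calc _ ≤ (n : ℝ) ^ k * (4 * n) := mul_le_mul_of_nonneg_left (h4 ▸ h3) (by positivity)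
      _ = _ := by ring
  refine (sum_le_sum fun j _ => h2 j).trans (le_of_eq ?_)
  simp
  ring

theorem exists_private {a a' : Fin (k + 1) → ℕ} (h : a ∈ Fm k (a 0)) (h' : a' ∈ Fm k (a' 0))
    (h8 : 8 * (k + 1) ≤ a' 0) (hle : a 0 ≤ a' 0) (hne : a ≠ a') : ∃ j0, ∀ j, a j ≠ a' j0 := by
  rcases hle.eq_or_lt with h1 | h1
  · obtain ⟨j0, h2⟩ := Function.ne_iff.1 hne
    refine ⟨j0, fun j h3 => ?_⟩
    rcases eq_or_ne j j0 with rfl | h4
    · exact h2 h3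
    have h5 := Fm_sep (h1 ▸ h) h' h4
    rw [h3, sub_self, abs_zero] at h5
    have h6 : wd k (a' 0) = 0 := by exact_mod_cast le_antisymm h5 (by positivity)
    have := wd_ge h8
    rw [h6] at this
    omega
  · exact ⟨0, fun j => ((Fm_le h j).1.trans_lt h1).ne⟩

theorem variance {δ : ℕ → ℝ} {c : ℕ → ℤ → ℝ} {Y : ℕ → ℝ → ℝ}
    (hK : ∀ m, IsKer (δ m) (c m) (Y m)) {α β : ℝ} (hab : α ≤ β)
    (hα : 4 * ((k : ℝ) + 1) ^ 2 - (k + 1) + 4 * (k + 1) * (β - α) < α) :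
    ∃ C : ℝ, ∀ A : Finset (Fin (k + 1) → ℕ), (∀ a ∈ A, a ∈ Fm k (a 0) ∧ 8 * (k + 1) ≤ a 0) →
      ∫ x in α..β, (∑ a ∈ A, Y (a 0) (fa a x)) ^ 2 ≤ C * (∑ a ∈ A, δ (a 0) + 1) := by
  have hk0 : (0 : ℝ) ≤ k := Nat.cast_nonneg k
  have hl : 0 ≤ β - α := sub_nonneg.2 hab
  have hα1 : (k : ℝ) + 1 < α := by nlinarith
  have hδ : ∀ m, 0 ≤ δ m := fun m => ((hK m).nonneg 0).trans ((hK m).le 0)
  set σ : ℝ := 1 / (2 * ((k + 1 : ℕ) : ℝ)) with hσ
  have hσ0 : 0 < σ := by positivity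
  have hσ1 : σ ≤ 1 / 2 := by
    rw [hσ]; push_cast
    exact one_div_le_one_div_of_le two_pos (by linarith)
  set τ : ℝ := α / (2 * ((k + 1 : ℕ) : ℝ)) with hτ
  set κ : ℝ := (τ - (k + 1) - 2 * (β - α)) * (1 / (1 - σ)) with hκ
  have hκ1 : k + 1 < κ := by
    rw [hκ, mul_one_div, lt_div_iff₀ (by linarith), hτ, hσ]
    push_cast
    rw [lt_sub_iff_add_lt, lt_sub_iff_add_lt, lt_div_iff₀ (by positivity)]
    field_simp
    nlinarith
  obtain ⟨C1, hC1, hC1'⟩ := fam_sum hκ1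
  obtain ⟨C2, hC2, hC2'⟩ := fam_sum hα1
  set c1 : ℝ := 4 * (k + 1) with hc1
  set K0 : ℝ := 10 * 4 ^ (k + 1) * c1 * 2 ^ τ * (4 * (k + 1) ^ 2) with hK0
  have hK00 : 0 ≤ K0 := by positivity
  refine ⟨2 * (β - α) + 10 * K0 + 4 * C2 + 10 * K0 * C1, fun A hA => ?_⟩
  have hc : ∀ a : Fin (k + 1) → ℕ, Continuous fun x => Y (a 0) (fa a x) :=
    fun a => (hK _).cont.comp (fa_cont a)
  have h1 : ∀ a ∈ A, ∀ j, 2 ≤ a j := fun a ha j => by
    have := (Fm_le (hA a ha).1 j).2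
    have := (hA a ha).2
    omega
  set u : (Fin (k + 1) → ℕ) → (Fin (k + 1) → ℕ) → ℝ := fun a a' =>
    if a 0 ≤ a' 0 then 5 * δ (a' 0) ^ σ * (10 * 4 ^ (k + 1) * (a' 0 : ℝ) ^ (2 * (β - α)) * c1 *
      ((a' 0 : ℝ) / 2) ^ (-τ) * ∑ j0, ∑ j, √(a' 0) * (1 / √|(a j : ℝ) - a' j0|)) else 0 with hu
  have hu0 : ∀ a a', 0 ≤ u a a' := fun a a' => by
    have := hδ (a' 0)
    simp only [hu]; split_ifs <;> positivity
  have hpair : ∀ a ∈ A, ∀ a' ∈ A, a 0 ≤ a' 0 → a ≠ a' →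
      ∫ x in α..β, Y (a 0) (fa a x) * Y (a' 0) (fa a' x) ≤ u a a' := by
    intro a ha a' ha' hle hne
    obtain ⟨j0, hj0⟩ := exists_private (hA a ha).1 (hA a' ha').1 (hA a' ha').2 hle hne
    simp only [hu, if_pos hle]
    refine pair_cov (hK _) (hK _) (fa_cont a) (fa_cont a') hσ0.le hσ1 (by positivity)
      fun h l hl0 => ?_
    refine (pair_osc (n := a' 0) (j0 := j0) (c1 := c1) h l hl0
      (fun j => ⟨by linarith [h1 a ha j], (Fm_le (hA a ha).1 j).1.trans hle⟩)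
      (fun j => ⟨by linarith [h1 a' ha' j], (Fm_le (hA a' ha').1 j).1⟩) (h1 a' ha' j0)
      (Fm_le (hA a' ha').1 j0).2 (by rw [hc1]; linarith) (fun j hj => ?_) hj0 (by linarith)
      hab).trans ?_
    · have h2 := Fm_sep (hA a' ha').1 (hA a' ha').1 hj.symm
      have h3 : (a' 0 : ℝ) ≤ 8 * (k + 1) * wd k (a' 0) := by exact_mod_cast wd_ge (hA a' ha').2
      refine h3.trans (mul_le_mul ?_ h2 (by positivity) (by positivity))
      rw [hc1]; nlinarith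
    · refine mul_le_mul_of_nonneg_left (mul_le_mul_of_nonneg_left ?_ (by positivity))
        (by positivity)
      exact single_le_sum (f := fun j0 => ∑ j, √(a' 0) * (1 / √|(a j : ℝ) - a' j0|))
        (fun _ _ => by positivity) (mem_univ j0)
  have hrow : ∀ a' ∈ A, ∑ a ∈ A, u a a' ≤ 5 * K0 * (δ (a' 0) + (a' 0 : ℝ) ^ (-κ)) := by
    intro a' ha'
    have n0 : (0 : ℝ) < a' 0 := by exact_mod_cast (by linarith [h1 a' ha' 0] : 0 < a' 0)
    simp only [hu]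
    rw [← sum_filter, ← mul_sum, ← mul_sum, sum_comm]
    have h2 : ∑ j0, ∑ a ∈ A with a 0 ≤ a' 0, ∑ j, √(a' 0) * (1 / √|(a j : ℝ) - a' j0|) ≤
        4 * (k + 1) ^ 2 * (a' 0 : ℝ) ^ (k + 1) := by
      refine (sum_le_sum fun j0 _ => gap_sum (Fm_le (hA a' ha').1 j0).1 _ fun a ha j => ?_).trans
        (le_of_eq ?_)
      · obtain ⟨h3, h4⟩ := mem_filter.1 ha
        exact ⟨by linarith [h1 a h3 j], (Fm_le (hA a h3).1 j).1.trans h4⟩
      · simp
        ring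
    have h3 := young hσ0 (by linarith) (hδ (a' 0))
      (rpow_nonneg n0.le (-(τ - (k + 1) - 2 * (β - α))))
    rw [← rpow_mul n0.le, neg_mul, ← hκ] at h3
    have e : (a' 0 : ℝ) ^ (-(τ - (k + 1) - 2 * (β - α))) =
        (a' 0 : ℝ) ^ (2 * (β - α)) * (a' 0 : ℝ) ^ (-τ) * (a' 0 : ℝ) ^ (k + 1) := by
      rw [← rpow_natCast, ← rpow_add n0, ← rpow_add n0]
      congr 1; push_cast; ring
    have e2 : ((a' 0 : ℝ) / 2) ^ (-τ) = (a' 0 : ℝ) ^ (-τ) * 2 ^ τ := by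
      rw [div_rpow n0.le two_pos.le, rpow_neg two_pos.le, div_inv_eq_mul]
    have hd := hδ (a' 0)
    refine (mul_le_mul_of_nonneg_left (mul_le_mul_of_nonneg_left h2 (by positivity))
      (by positivity)).trans ?_
    refine le_trans (le_of_eq ?_) (mul_le_mul_of_nonneg_left h3 (by positivity))
    rw [e, e2, hK0]; ring
  have hexp : ∫ x in α..β, (∑ a ∈ A, Y (a 0) (fa a x)) ^ 2 =
      ∑ a ∈ A, ∑ a' ∈ A, ∫ x in α..β, Y (a 0) (fa a x) * Y (a' 0) (fa a' x) := by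
    simp only [sq, sum_mul_sum]
    have hc2 : ∀ a a' : Fin (k + 1) → ℕ,
        Continuous fun x => Y (a 0) (fa a x) * Y (a' 0) (fa a' x) := fun a a' => (hc a).mul (hc a')
    rw [intervalIntegral.integral_finsetSum fun a _ =>
      (continuous_finsetSum _ fun a' _ => hc2 a a').intervalIntegrable _ _]
    exact sum_congr rfl fun a _ => intervalIntegral.integral_finsetSum fun a' _ =>
      (hc2 a a').intervalIntegrable _ _
  have hall : ∀ a ∈ A, ∀ a' ∈ A, ∫ x in α..β, Y (a 0) (fa a x) * Y (a' 0) (fa a' x) ≤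
      (if a = a' then 2 * δ (a 0) * (β - α) + 4 * (a 0 : ℝ) ^ (-α) else 0) + u a a' + u a' a := by
    intro a ha a' ha'
    have g1 := hu0 a a'
    have g2 := hu0 a' a
    split_ifs with h
    · subst h
      have := diag_cov (hK (a 0)) (fun j => by linarith [h1 a ha j]) (h1 a ha 0) hab
      linarith
    rcases le_total (a 0) (a' 0) with h2 | h2
    · linarith [hpair a ha a' ha' h2 h]
    · have := hpair a' ha' a ha h2 (Ne.symm h)
      simp only [mul_comm (Y (a' 0) _)] at this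
      linarith
  rw [hexp]
  refine (sum_le_sum fun a ha => sum_le_sum fun a' ha' => hall a ha a' ha').trans ?_
  simp only [sum_add_distrib]
  rw [sum_comm (f := u)]
  have h2 : ∑ a ∈ A, ∑ a' ∈ A,
      (if a = a' then 2 * δ (a 0) * (β - α) + 4 * (a 0 : ℝ) ^ (-α) else 0) =
      2 * (β - α) * ∑ a ∈ A, δ (a 0) + 4 * ∑ a ∈ A, (a 0 : ℝ) ^ (-α) := by
    rw [mul_sum, mul_sum, ← sum_add_distrib]
    refine sum_congr rfl fun a ha => ?_
    rw [sum_ite_eq, if_pos ha]; ring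
  have h3 := sum_le_sum hrow
  rw [← mul_sum, sum_add_distrib] at h3
  have h4 := mul_le_mul_of_nonneg_left (hC1' A hA) hK00
  have h5 := hC2' A hA
  have h6 : 0 ≤ ∑ a ∈ A, δ (a 0) := sum_nonneg fun a _ => hδ _
  have h7 := mul_nonneg hK00 hC1
  rw [h2]
  nlinarith [mul_nonneg h6 hC2, mul_nonneg h6 h7]

end Pool.Agent.P.MP_33ac70_nt.Big
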